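import Pool.Agent.H565.PL.Resc
set_option autoImplicit false

/-!
# From the tangential maximal function to shaded tubes
-/

namespace Pool.Agent.H565.PL
open MeasureTheory Finset Metric
open scoped ENNReal Pointwise
open Pool.Agent.H565.MK

section Caps

variable {d : ℕ}

/-- Lower bound for the measure of a cap (from the library, `Y254.EL.Dual`). -/
theorem cap_lower (d : ℕ) : ∃ κ : ℝ, 0 < κ ∧
    ∀ (e : sphere (0 : E (d + 1)) 1) (r : ℝ), 0 < r → r ≤ 1 →
      ENNReal.ofReal (κ * r ^ d) ≤ (volume : Measure (E (d + 1))).toSphere (closedBall e r) := by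
  obtain ⟨κ, hκ, hV⟩ := Pool.Agent.W131.HM.VOL d
  refine ⟨(1 / 4) ^ (d + 1) * (κ * (1 / 2) ^ d), by positivity, ?_⟩
  intro e r hr hr1
  have he : ‖(e : E (d + 1))‖ = 1 := by simp
  set T : Set (E (d + 1)) :=
    tube (r / 2) ((2 : ℝ) • (e : E (d + 1))) e with hT
  have hTv : ENNReal.ofReal (κ * (r / 2) ^ d) ≤ volume T :=
    (hV ((2 : ℝ) • (e : E (d + 1))) e (r / 2) he (by positivity)
    (by linarith)).1
  have hsub : (1 / 4 : ℝ) • T ⊆ Set.Ioo (0 : ℝ) 1 • ((↑) '' (closedBall e r) :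
      Set (E (d + 1))) := by
    rintro _ ⟨y, hy, rfl⟩
    obtain ⟨h1, h2⟩ := hy
    set s : ℝ := inner ℝ (y - (2 : ℝ) • (e : E (d + 1))) e with hs
    set u : E (d + 1) := y - (2 : ℝ) • (e : E (d + 1)) -
      s • (e : E (d + 1)) with hu
    have hy' : y = (2 + s) • (e : E (d + 1)) + u := by
      rw [hu, add_smul]; abel
    rw [abs_le] at h1
    have hue : inner ℝ u (e : E (d + 1)) = 0 := by
      rw [hu, inner_sub_left, ← hs, inner_smul_left, real_inner_self_eq_norm_sq, he]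
      simp
    have hny : ‖y‖ ≤ 3 := by
      rw [hy']
      refine (norm_add_le _ _).trans ?_
      rw [norm_smul, he, mul_one, Real.norm_eq_abs, abs_of_pos (by linarith)]
      linarith
    have hny2 : 3 / 2 ≤ ‖y‖ := by
      have h3 : inner ℝ y (e : E (d + 1)) = 2 + s := by
        rw [hy', inner_add_left, hue, inner_smul_left, real_inner_self_eq_norm_sq, he]
        simp
      have h4 := real_inner_le_norm y (e : E (d + 1))
      rw [h3, he, mul_one] at h4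
      linarith
    have hy0 : 0 < ‖y‖ := by linarith
    have hn1 : ‖‖y‖⁻¹ • y‖ = 1 := by
      rw [norm_smul, norm_inv, norm_norm, inv_mul_cancel₀ hy0.ne']
    refine ⟨‖y‖ / 4, ⟨by positivity, by linarith⟩, ‖y‖⁻¹ • y,
      ⟨⟨‖y‖⁻¹ • y, by rw [mem_sphere_zero_iff_norm]; exact hn1⟩, ?_, rfl⟩, ?_⟩
    · rw [mem_closedBall, Subtype.dist_eq, dist_eq_norm]
      change ‖‖y‖⁻¹ • y - (e : E (d + 1))‖ ≤ r
      have h5 : ‖y‖⁻¹ • y - (e : E (d + 1)) =
          ‖y‖⁻¹ • (((2 + s) - ‖y‖) • (e : E (d + 1)) + u) := by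
        rw [sub_smul, smul_add, smul_sub, smul_smul ‖y‖⁻¹ ‖y‖, inv_mul_cancel₀ hy0.ne', one_smul]
        nth_rewrite 2 [hy']
        rw [smul_add]
        abel
      have h6 : |(2 + s) - ‖y‖| ≤ ‖u‖ := by
        have h7 : ‖(2 + s) • (e : E (d + 1))‖ = 2 + s := by
          rw [norm_smul, he, mul_one, Real.norm_eq_abs, abs_of_pos (by linarith)]
        have h8 := abs_norm_sub_norm_le ((2 + s) • (e : E (d + 1))) y
        rw [h7] at h8
        refine h8.trans (le_of_eq ?_)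
        have h9 : (2 + s) • (e : E (d + 1)) - y = -u := by
          nth_rewrite 1 [hy']
          abel
        rw [h9, norm_neg]
      rw [h5, norm_smul, norm_inv, norm_norm, inv_mul_le_iff₀ hy0]
      refine (norm_add_le _ _).trans ?_
      rw [norm_smul, he, mul_one, Real.norm_eq_abs]
      have h7 : ‖u‖ ≤ r / 2 := h2
      nlinarith
    · change (‖y‖ / 4) • (‖y‖⁻¹ • y) = (1 / 4 : ℝ) • y
      rw [smul_smul]
      congr 1
      field_simp
  rw [Measure.toSphere_apply' _ isClosed_closedBall.measurableSet, finrank_euclideanSpace_fin]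
  have h1 : volume ((1 / 4 : ℝ) • T) = ENNReal.ofReal ((1 / 4) ^ (d + 1)) * volume T := by
    rw [Measure.addHaar_smul, finrank_euclideanSpace_fin, abs_of_pos (by positivity)]
  calc ENNReal.ofReal ((1 / 4) ^ (d + 1) * (κ * (1 / 2) ^ d) * r ^ d)
      = ENNReal.ofReal ((1 / 4) ^ (d + 1)) * ENNReal.ofReal (κ * (r / 2) ^ d) := by
        rw [← ENNReal.ofReal_mul (by positivity)]
        congr 1
        have e1 : (r / 2) ^ d = (1 / 2) ^ d * r ^ d := by rw [← mul_pow]; congr 1; ring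
        rw [e1]
        ring
    _ ≤ ENNReal.ofReal ((1 / 4) ^ (d + 1)) * volume T := by gcongr
    _ = volume ((1 / 4 : ℝ) • T) := h1.symm
    _ ≤ volume (Set.Ioo (0 : ℝ) 1 • ((↑) '' (closedBall e r) :
      Set (E (d + 1)))) := measure_mono hsub
    _ ≤ ((d + 1 : ℕ) : ℝ≥0∞) * volume (Set.Ioo (0 : ℝ) 1 • ((↑) '' (closedBall e r) :
      Set (E (d + 1)))) := by
        conv_lhs => rw [← one_mul (volume _)]
        gcongr
        exact_mod_cast Nat.succ_le_succ (Nat.zero_le d)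

/-- A tube is covered by two thicker tubes in a neighbouring direction. -/
theorem tube_cover {n : ℕ} {δ : ℝ} (hδ : 0 < δ) (hδ5 : δ ≤ 1 / 5) (a : E n)
    {e e' : E n} (he : ‖e‖ = 1) (hee : ‖e' - e‖ ≤ δ / 4) :
    tube δ a e' ⊆ tube (2 * δ) (a + (1 / 4 : ℝ) • e) e ∪ tube (2 * δ) (a - (1 / 4 : ℝ) • e) e := by
  intro y hy
  obtain ⟨h1, h2⟩ := hy
  set s : ℝ := inner ℝ (y - a) e' with hs
  rw [abs_le] at h1
  have hw : ‖(y - a) - s • e‖ ≤ 5 / 4 * δ := by
    have h3 : (y - a) - s • e = ((y - a) - s • e') + s • (e' - e) := by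
      rw [smul_sub]; abel
    rw [h3]
    refine (norm_add_le _ _).trans ?_
    rw [norm_smul, Real.norm_eq_abs]
    have h4 : |s| ≤ 1 / 2 := abs_le.2 h1
    have h5 : |s| * ‖e' - e‖ ≤ 1 / 2 * (δ / 4) := by gcongr
    linarith
  rcases le_total 0 s with h0 | h0
  · left
    refine Pool.Agent.W46.KK.near_axis _ _ _ he (s - 1 / 4) (5 / 4 * δ) ?_ (by linarith) ?_
    · have : |s - 1 / 4| ≤ 1 / 4 := by rw [abs_le]; constructor <;> linarith
      linarith
    · refine le_trans (le_of_eq ?_) hw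
      congr 1
      rw [sub_smul]
      abel
  · right
    refine Pool.Agent.W46.KK.near_axis _ _ _ he (s + 1 / 4) (5 / 4 * δ) ?_ (by linarith) ?_
    · have : |s + 1 / 4| ≤ 1 / 4 := by rw [abs_le]; constructor <;> linarith
      linarith
    · refine le_trans (le_of_eq ?_) hw
      congr 1
      rw [add_smul]
      abel

/-- Hölder's inequality on a set, without measurability of the function. -/
theorem holder_set {X : Type*} [MeasurableSpace X] (μ : Measure X) (A : Set X) (f : X → ℝ≥0∞)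
    {p : ℝ} (hp : 1 < p) :
    ∫⁻ x in A, f x ∂μ ≤ (∫⁻ x in A, f x ^ p ∂μ) ^ (1 / p) * μ A ^ (1 - 1 / p) := by
  have hp0 : 0 < p := by linarith
  obtain ⟨g, hg, hgf, hint⟩ := exists_measurable_le_lintegral_eq (μ.restrict A) f
  have hgf' : ∀ x, g x ≤ f x := hgf
  have hpq : p.HolderConjugate (Real.conjExponent p) := Real.HolderConjugate.conjExponent hp
  have h1 := ENNReal.lintegral_mul_le_Lp_mul_Lq (μ.restrict A) hpq hg.aemeasurable
    (measurable_const (a := (1 : ℝ≥0∞))).aemeasurable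
  have h2 : 1 / Real.conjExponent p = 1 - 1 / p := by
    have := hpq.inv_add_inv_eq_one
    rw [one_div, one_div]
    linarith
  rw [h2] at h1
  rw [hint]
  calc ∫⁻ x in A, g x ∂μ = ∫⁻ x in A, (g * (fun _ => (1 : ℝ≥0∞)) : X → ℝ≥0∞) x ∂μ := by simp
    _ ≤ _ := h1
    _ ≤ (∫⁻ x in A, f x ^ p ∂μ) ^ (1 / p) * μ A ^ (1 - 1 / p) := by
        have h3 : 0 ≤ 1 - 1 / p := by
          rw [sub_nonneg, div_le_one hp0]
          exact hp.le
        have h4 : ∫⁻ x in A, g x ^ p ∂μ ≤ ∫⁻ x in A, f x ^ p ∂μ := by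
          refine lintegral_mono fun x => ?_
          exact ENNReal.rpow_le_rpow (hgf' x) hp0.le
        have h5 : ∫⁻ _x in A, (1 : ℝ≥0∞) ^ Real.conjExponent p ∂μ ≤ μ A := by
          simp
        gcongr

/-- Solving the inequality. -/
theorem solve_ineq {J B X Y p d' : ℝ} (hJ : 0 ≤ J) (hB : 0 ≤ B) (hX : 0 ≤ X) (hY : 0 ≤ Y)
    (hp : p = d' + 1) (hd' : 0 < d')
    (h : J ≤ B * X ^ (1 / p) * J ^ (1 / p) * Y ^ (1 - 1 / p)) :
    J ≤ B ^ (p / d') * X ^ (1 / d') * Y := by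
  have hp0 : 0 < p := by linarith
  rcases hJ.eq_or_lt with h0 | h0
  · rw [← h0]
    positivity
  have e1 : J = J ^ (1 - 1 / p) * J ^ (1 / p) := by
    rw [← Real.rpow_add h0]
    simp
  have h1 : J ^ (1 - 1 / p) ≤ B * X ^ (1 / p) * Y ^ (1 - 1 / p) := by
    have h2 : 0 < J ^ (1 / p) := by positivity
    rw [← mul_le_mul_iff_left₀ h2]
    calc J ^ (1 - 1 / p) * J ^ (1 / p) = J := e1.symm
      _ ≤ _ := h
      _ = _ := by ring
  have e2 : 1 - 1 / p = d' / p := by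
    rw [hp]
    field_simp
    ring
  rw [e2] at h1
  calc J = (J ^ (d' / p)) ^ (p / d') := by
        rw [← Real.rpow_mul hJ]
        have : d' / p * (p / d') = 1 := by field_simp
        rw [this, Real.rpow_one]
    _ ≤ (B * X ^ (1 / p) * Y ^ (d' / p)) ^ (p / d') := by gcongr
    _ = B ^ (p / d') * X ^ (1 / d') * Y := by
        rw [Real.mul_rpow (by positivity) (by positivity), Real.mul_rpow hB (by positivity),
          ← Real.rpow_mul hX, ← Real.rpow_mul hY]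
        have e3 : 1 / p * (p / d') = 1 / d' := by field_simp
        have e4 : d' / p * (p / d') = 1 := by field_simp
        rw [e3, e4, Real.rpow_one]

end Caps

section Dual

variable {n : ℕ}

/-- The Kakeya maximal function of the parts of the tubes that are tangent to the field `V`,
for functions with values in `[0, ∞]`. -/
noncomputable def kmaxT (δ r : ℝ) (V : E n → Submodule ℝ (E n)) (f : E n → ℝ≥0∞) (e : E n) :
    ℝ≥0∞ :=
  ⨆ a : E n, (volume (tube δ a e))⁻¹ * ∫⁻ y in tube δ a e ∩ {y | infDist e (V y) < r}, f y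

/-- The integral over a shading and the maximal function in a neighbouring direction. -/
theorem int_le_kmaxT (hn : 1 ≤ n) : ∃ C : ℝ, 0 ≤ C ∧ ∀ {δ r r' : ℝ}, 0 < δ → δ ≤ 1 / 5 →
    r + δ / 4 < r' → ∀ (a : E n) {e e' : E n}, ‖e‖ = 1 → ‖e' - e‖ ≤ δ / 4 →
    ∀ (V : E n → Submodule ℝ (E n)) (g : E n → ℝ≥0∞),
    ∫⁻ y in {y | y ∈ tube δ a e' ∧ infDist e' (V y) ≤ r}, g y ≤
      ENNReal.ofReal (C * δ ^ (n - 1)) * kmaxT (2 * δ) r' V g e := by
  obtain ⟨d, rfl⟩ : ∃ d, n = d + 1 := ⟨n - 1, by omega⟩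
  obtain ⟨κ, hκ, hV⟩ := Pool.Agent.W131.HM.VOL d
  refine ⟨2 * (((d + 1).factorial : ℝ) * 6 ^ (d + 1) * 2 ^ d), by positivity, ?_⟩
  intro δ r r' hδ hδ5 hrr a e e' he hee V g
  rw [Nat.add_sub_cancel]
  have hone : ∀ b : E (d + 1), ∫⁻ y in tube (2 * δ) b e ∩ {y | infDist e (V y) < r'}, g y ≤
      ENNReal.ofReal (((d + 1).factorial : ℝ) * 6 ^ (d + 1) * (2 * δ) ^ d) *
        kmaxT (2 * δ) r' V g e := by
    intro b
    obtain ⟨h1, h2⟩ := hV b e (2 * δ) he (by positivity) (by linarith)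
    have h3 : volume (tube (2 * δ) b e) ≠ 0 := by
      intro h
      have h1' : ENNReal.ofReal (κ * (2 * δ) ^ d) ≤ volume (tube (2 * δ) b e) := h1
      rw [h, nonpos_iff_eq_zero, ENNReal.ofReal_eq_zero] at h1'
      have : 0 < κ * (2 * δ) ^ d := by positivity
      linarith
    have h2' : volume (tube (2 * δ) b e) ≠ ∞ := h2
    have h4 : volume (tube (2 * δ) b e) ≤
        ENNReal.ofReal (((d + 1).factorial : ℝ) * 6 ^ (d + 1) * (2 * δ) ^ d) := by
      have h5 := volume_tube (n := d + 1) (by omega) (δ := 2 * δ) (by positivity)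
        (by linarith) b e he
      rw [Nat.add_sub_cancel] at h5
      exact h5
    calc ∫⁻ y in tube (2 * δ) b e ∩ {y | infDist e (V y) < r'}, g y
        = volume (tube (2 * δ) b e) * ((volume (tube (2 * δ) b e))⁻¹ *
          ∫⁻ y in tube (2 * δ) b e ∩ {y | infDist e (V y) < r'}, g y) := by
          rw [← mul_assoc, ENNReal.mul_inv_cancel h3 h2', one_mul]
      _ ≤ _ := by
          gcongr
          exact le_iSup (fun a => (volume (tube (2 * δ) a e))⁻¹ *
            ∫⁻ y in tube (2 * δ) a e ∩ {y | infDist e (V y) < r'}, g y) b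
  have hsub : {y | y ∈ tube δ a e' ∧ infDist e' (V y) ≤ r} ⊆
      (tube (2 * δ) (a + (1 / 4 : ℝ) • e) e ∩ {y | infDist e (V y) < r'}) ∪
      (tube (2 * δ) (a - (1 / 4 : ℝ) • e) e ∩ {y | infDist e (V y) < r'}) := by
    rintro y ⟨hy1, hy2⟩
    have h1 : infDist e (V y) < r' := by
      have h2 := infDist_le_infDist_add_dist (s := (V y : Set (E (d + 1)))) (x := e) (y := e')
      rw [dist_eq_norm, norm_sub_rev] at h2
      linarith
    rcases tube_cover hδ hδ5 a he hee hy1 with h3 | h3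
    · exact Or.inl ⟨h3, h1⟩
    · exact Or.inr ⟨h3, h1⟩
  refine (lintegral_mono_set hsub).trans ((lintegral_union_le _ _ _).trans
    ((add_le_add (hone _) (hone _)).trans (le_of_eq ?_)))
  rw [← two_mul, ← mul_assoc, ← ENNReal.ofReal_ofNat, ← ENNReal.ofReal_mul (by norm_num)]
  congr 2
  rw [mul_pow]
  ring

/-- **Duality.** -/
theorem PT_of_max {k : ℕ} (hk : 2 ≤ k) (hn : 1 ≤ n) {η B C : ℝ} (hη : 0 < η) (hη1 : η ≤ 1)
    (hB : 0 ≤ B) (hC : 0 ≤ C)
    (h : ∀ δ : ℝ, 0 < δ → δ < 1 → ∀ V : SimpleFunc (E n) (Submodule ℝ (E n)),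
      (∀ x, Module.finrank ℝ (V x) < k) → ∀ g : E n → ℝ≥0∞, Measurable g → (∀ x, g x ≠ ∞) →
      ∫⁻ e : sphere (0 : E n) 1, kmaxT δ (δ ^ η) V g e ^ (k : ℝ) ∂(volume : Measure (E n)).toSphere ≤
        ENNReal.ofReal (C * (1 / δ) ^ B) * ∫⁻ y, g y ^ (k : ℝ)) :
    ∃ C' : ℝ, 0 ≤ C' ∧ PT n k η (fun δ => C' * (1 / δ) ^ (B / ((k : ℝ) - 1)) * δ ^ (n - 1)) := by
  classical
  obtain ⟨C₀, hC₀, hint⟩ := int_le_kmaxT (n := n) hn
  obtain ⟨d, rfl⟩ : ∃ d, n = d + 1 := ⟨n - 1, by omega⟩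
  have hk2 : (2 : ℝ) ≤ k := by exact_mod_cast hk
  have hk1 : (0 : ℝ) < (k : ℝ) - 1 := by linarith
  have hk0 : (0 : ℝ) < k := by linarith
  have hk11 : (1 : ℝ) < k := by linarith
  obtain ⟨κ, hκ, hcl⟩ := cap_lower d
  obtain ⟨C1, hC1, hcu⟩ := Pool.Agent.W131.HM.CAP d
  rw [Nat.add_sub_cancel] at hint ⊢
  have hp0 : 0 < 1 / ((k : ℝ) - 1) := by positivity
  obtain ⟨q, hq⟩ : ∃ q : ℝ, q = 1 + 1 / ((k : ℝ) - 1) := ⟨_, rfl⟩
  have hq1 : 1 < q := by linarith
  have hq0 : 0 < q := by linarith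
  have hkq : k * (1 / ((k : ℝ) - 1)) = q := by rw [hq]; field_simp; ring
  have hqk : 1 / q = 1 - 1 / k := by rw [hq]; field_simp; ring
  have h1p : 0 ≤ 1 - 1 / (k : ℝ) := by rw [← hqk]; positivity
  have hconj : Real.HolderConjugate q k := by
    rw [Real.holderConjugate_iff]
    refine ⟨hq1, ?_⟩
    rw [← one_div, hqk, ← one_div]
    ring
  obtain ⟨B₁, hB₁⟩ : ∃ B₁ : ℝ, B₁ = C₀ * (4 ^ d / κ) * C ^ (1 / (k : ℝ)) * C1 ^ (1 - 1 / (k : ℝ)) :=
    ⟨_, rfl⟩
  have hB₁0 : 0 ≤ B₁ := by rw [hB₁]; positivity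
  refine ⟨B₁ ^ ((k : ℝ) / ((k : ℝ) - 1)), by positivity, ?_⟩
  intro δ hδ hδ5 ι _ a e he hsep c hc V hVk
  have hδ1 : δ < 1 := by linarith
  rw [← hq]
  have hδη : δ ≤ δ ^ η := by
    calc δ = δ ^ (1 : ℝ) := (Real.rpow_one δ).symm
      _ ≤ δ ^ η := Real.rpow_le_rpow_of_exponent_ge hδ hδ1.le hη1
  have hδη0 : 0 < δ ^ η := by positivity
  have h2δη : δ ^ η ≤ (2 * δ) ^ η := Real.rpow_le_rpow hδ.le (by linarith) hη.le
  have hrr : δ ^ η / 2 + δ / 4 < (2 * δ) ^ η := by linarith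
  obtain ⟨Y, hY⟩ : ∃ Y : ι → Set (E (d + 1)), ∀ i, Y i =
    {x | x ∈ tube δ (a i) (e i) ∧ infDist (e i) (V x) ≤ δ ^ η / 2} := ⟨_, fun _ => rfl⟩
  have hYm : ∀ i, MeasurableSet (Y i) := fun i => by
    rw [hY]
    exact measurableSet_shading _ _ _ _ _
  obtain ⟨F, hF⟩ : ∃ F : E (d + 1) → ℝ≥0∞, F = tsum δ (δ ^ η / 2) a e c V := ⟨_, rfl⟩
  have hFm : Measurable F := by rw [hF]; exact measurable_tsum _ _ _ _ _ _
  have hFe : ∀ x, F x = ∑ i, (Y i).indicator (fun _ => c i) x := by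
    intro x
    rw [hF]
    simp only [hY]
    rfl
  have hFt : ∀ x, F x ≠ ∞ := by
    intro x
    rw [hFe]
    refine ENNReal.sum_ne_top.2 fun i _ => ?_
    rw [Set.indicator_apply]
    split_ifs
    · exact hc i
    · exact ENNReal.zero_ne_top
  rw [← hF]
  obtain ⟨g, hg⟩ : ∃ g : E (d + 1) → ℝ≥0∞, ∀ x, g x = F x ^ (1 / ((k : ℝ) - 1)) :=
    ⟨_, fun _ => rfl⟩
  have hgm : Measurable g := by
    have : g = fun x => F x ^ (1 / ((k : ℝ) - 1)) := funext hg
    rw [this]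
    exact hFm.pow_const _
  have hgt : ∀ x, g x ≠ ∞ := fun x => by
    rw [hg]
    exact ENNReal.rpow_ne_top_of_nonneg hp0.le (hFt x)
  obtain ⟨I, hI⟩ : ∃ I : ℝ≥0∞, I = ∫⁻ x, F x ^ q := ⟨_, rfl⟩
  rw [← hI]
  have hIg : I = ∫⁻ y, g y ^ (k : ℝ) := by
    rw [hI]
    refine lintegral_congr fun x => ?_
    rw [hg, ← ENNReal.rpow_mul, mul_comm, hkq]
  obtain ⟨S, hS⟩ : ∃ S : ℝ≥0∞, S = ∑ i, c i ^ q := ⟨_, rfl⟩
  have hSt : S ≠ ∞ := by
    rw [hS]
    exact ENNReal.sum_ne_top.2 fun i _ => ENNReal.rpow_ne_top_of_nonneg hq0.le (hc i)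
  rw [← hS]
  have hIt : I ≠ ∞ := by
    rw [hI]
    have h1 : ∀ x, F x ^ q ≤ (Fintype.card ι : ℝ≥0∞) ^ (q - 1) *
        ∑ i, (tube δ (a i) (e i)).indicator (fun _ => c i ^ q) x := by
      intro x
      rw [hFe]
      refine (ENNReal.rpow_sum_le_const_mul_sum_rpow _ _ hq1.le).trans ?_
      rw [Finset.card_univ]
      refine mul_le_mul_right (Finset.sum_le_sum fun i _ => ?_) _
      rw [Set.indicator_apply]
      split_ifs with hx
      · rw [hY] at hx
        rw [Set.indicator_of_mem hx.1]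
      · rw [ENNReal.zero_rpow_of_pos hq0]
        exact zero_le
    refine ne_top_of_le_ne_top ?_ (lintegral_mono h1)
    have hm : ∀ i, Measurable ((tube δ (a i) (e i)).indicator (fun _ : E (d + 1) => c i ^ q)) :=
      fun i => measurable_const.indicator (measurableSet_tube _ _ _)
    rw [lintegral_const_mul _ (Finset.measurable_sum _ fun i _ => hm i),
      lintegral_finsetSum _ fun i _ => hm i]
    refine ENNReal.mul_ne_top (ENNReal.rpow_ne_top_of_nonneg (by linarith)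
      (ENNReal.natCast_ne_top _)) (ENNReal.sum_ne_top.2 fun i _ => ?_)
    rw [lintegral_indicator_const (measurableSet_tube _ _ _)]
    exact ENNReal.mul_ne_top (ENNReal.rpow_ne_top_of_nonneg hq0.le (hc i))
      (ne_top_of_le_ne_top ENNReal.ofReal_ne_top (volume_tube (by omega) hδ hδ1.le _ _ (he i)))
  have hsum : I = ∑ i, c i * ∫⁻ y in Y i, g y := by
    have e1 : ∀ x, F x ^ q = ∑ i, (Y i).indicator (fun y => c i * g y) x := by
      intro x
      rw [hq, ENNReal.rpow_add_of_nonneg _ _ zero_le_one hp0.le, ENNReal.rpow_one, ← hg, hFe,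
        Finset.sum_mul]
      refine Finset.sum_congr rfl fun i _ => ?_
      by_cases hx : x ∈ Y i
      · rw [Set.indicator_of_mem hx, Set.indicator_of_mem hx]
      · rw [Set.indicator_of_notMem hx, Set.indicator_of_notMem hx, zero_mul]
    rw [hI, lintegral_congr e1, lintegral_finsetSum _ fun i _ =>
      (hgm.const_mul (c i)).indicator (hYm i)]
    refine Finset.sum_congr rfl fun i _ => ?_
    rw [lintegral_indicator (hYm i), lintegral_const_mul _ hgm]
  obtain ⟨cp, hcp⟩ : ∃ cp : ι → Set (sphere (0 : E (d + 1)) 1), ∀ i, cp i =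
    closedBall ⟨e i, by rw [mem_sphere_zero_iff_norm]; exact he i⟩ (δ / 4) := ⟨_, fun _ => rfl⟩
  have hcm : ∀ i, MeasurableSet (cp i) := fun i => by
    rw [hcp]
    exact isClosed_closedBall.measurableSet
  have hcdist : ∀ i, ∀ x ∈ cp i, ‖e i - (x : E (d + 1))‖ ≤ δ / 4 := by
    intro i x hx
    rw [hcp, mem_closedBall, Subtype.dist_eq, dist_eq_norm, norm_sub_rev] at hx
    exact hx
  have hdis : ((Finset.univ : Finset ι) : Set ι).PairwiseDisjoint cp := by
    intro i _ j _ hij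
    rw [Function.onFun, Set.disjoint_left]
    intro x hxi hxj
    have h1 := hcdist i x hxi
    have h2 := hcdist j x hxj
    have h3 := hsep i j hij
    have h4 : e i - e j = (e i - x) - (e j - x) := by abel
    rw [h4] at h3
    have := norm_sub_le (e i - (x : E (d + 1))) (e j - x)
    linarith
  obtain ⟨σ, hσ⟩ : ∃ σ : Measure (sphere (0 : E (d + 1)) 1), σ =
    (volume : Measure (E (d + 1))).toSphere := ⟨_, rfl⟩
  obtain ⟨H, hH⟩ : ∃ H : sphere (0 : E (d + 1)) 1 → ℝ≥0∞, ∀ x, H x =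
    kmaxT (2 * δ) ((2 * δ) ^ η) V g x := ⟨_, fun _ => rfl⟩
  have hclσ : ∀ i, ENNReal.ofReal (κ * (δ / 4) ^ d) ≤ σ (cp i) := fun i => by
    rw [hσ, hcp]
    exact hcl _ _ (by positivity) (by linarith)
  have hcuσ : ∀ i, σ (cp i) ≤ ENNReal.ofReal (C1 * δ ^ d) := fun i => by
    rw [hσ, hcp]
    refine (hcu _ _ (by positivity) (by linarith)).trans (ENNReal.ofReal_le_ofReal ?_)
    have : (δ / 4) ^ d ≤ δ ^ d := by
      gcongr
      linarith
    gcongr
  have hstep : ∀ i, ENNReal.ofReal (κ * (δ / 4) ^ d) * ∫⁻ y in Y i, g y ≤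
      ENNReal.ofReal (C₀ * δ ^ d) * ((∫⁻ x in cp i, H x ^ (k : ℝ) ∂σ) ^ (1 / (k : ℝ)) *
        ENNReal.ofReal (C1 * δ ^ d) ^ (1 - 1 / (k : ℝ))) := by
    intro i
    calc ENNReal.ofReal (κ * (δ / 4) ^ d) * ∫⁻ y in Y i, g y
        ≤ σ (cp i) * ∫⁻ y in Y i, g y := mul_le_mul_left (hclσ i) _
      _ = ∫⁻ _x in cp i, (∫⁻ y in Y i, g y) ∂σ := by
          rw [setLIntegral_const, mul_comm]
      _ ≤ ∫⁻ x in cp i, ENNReal.ofReal (C₀ * δ ^ d) * H x ∂σ := by
          apply setLIntegral_mono' (hcm i)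
          intro x hx
          rw [hY, hH]
          exact hint hδ hδ5 hrr (a i) (e := (x : E (d + 1))) (e' := e i) (by simp) (hcdist i x hx)
            V g
      _ = ENNReal.ofReal (C₀ * δ ^ d) * ∫⁻ x in cp i, H x ∂σ :=
          lintegral_const_mul' _ _ ENNReal.ofReal_ne_top
      _ ≤ ENNReal.ofReal (C₀ * δ ^ d) * ((∫⁻ x in cp i, H x ^ (k : ℝ) ∂σ) ^ (1 / (k : ℝ)) *
          σ (cp i) ^ (1 - 1 / (k : ℝ))) := mul_le_mul_right (holder_set σ _ _ hk11) _
      _ ≤ _ := by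
          gcongr
          exact hcuσ i
  have hHk : ∑ i, ∫⁻ x in cp i, H x ^ (k : ℝ) ∂σ ≤ ENNReal.ofReal (C * (1 / δ) ^ B) * I := by
    rw [← lintegral_biUnion_finset hdis fun i _ => hcm i]
    refine (setLIntegral_le_lintegral _ _).trans ?_
    have h1 := h (2 * δ) (by positivity) (by linarith) V hVk g hgm hgt
    rw [← hIg, ← hσ] at h1
    simp only [hH]
    refine h1.trans (mul_le_mul_left (ENNReal.ofReal_le_ofReal ?_) _)
    have : 1 / (2 * δ) ≤ 1 / δ := one_div_le_one_div_of_le hδ (by linarith)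
    gcongr
  have hmain : ENNReal.ofReal (κ * (δ / 4) ^ d) * I ≤ ENNReal.ofReal (C₀ * δ ^ d) *
      ((ENNReal.ofReal (C * (1 / δ) ^ B) * I) ^ (1 / (k : ℝ)) *
        (ENNReal.ofReal (C1 * δ ^ d) * S) ^ (1 - 1 / (k : ℝ))) := by
    calc ENNReal.ofReal (κ * (δ / 4) ^ d) * I
        = ∑ i, c i * (ENNReal.ofReal (κ * (δ / 4) ^ d) * ∫⁻ y in Y i, g y) := by
          rw [hsum, Finset.mul_sum]
          refine Finset.sum_congr rfl fun i _ => ?_
          ring
      _ ≤ ∑ i, c i * (ENNReal.ofReal (C₀ * δ ^ d) *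
          ((∫⁻ x in cp i, H x ^ (k : ℝ) ∂σ) ^ (1 / (k : ℝ)) *
          ENNReal.ofReal (C1 * δ ^ d) ^ (1 - 1 / (k : ℝ)))) := by
          exact Finset.sum_le_sum fun i _ => mul_le_mul_right (hstep i) _
      _ = ENNReal.ofReal (C₀ * δ ^ d) * (ENNReal.ofReal (C1 * δ ^ d) ^ (1 - 1 / (k : ℝ)) *
          ∑ i, c i * (∫⁻ x in cp i, H x ^ (k : ℝ) ∂σ) ^ (1 / (k : ℝ))) := by
          rw [Finset.mul_sum, Finset.mul_sum]
          refine Finset.sum_congr rfl fun i _ => ?_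
          ring
      _ ≤ ENNReal.ofReal (C₀ * δ ^ d) * (ENNReal.ofReal (C1 * δ ^ d) ^ (1 - 1 / (k : ℝ)) *
          (S ^ (1 - 1 / (k : ℝ)) * (ENNReal.ofReal (C * (1 / δ) ^ B) * I) ^ (1 / (k : ℝ)))) := by
          refine mul_le_mul_right (mul_le_mul_right ?_ _) _
          refine (ENNReal.inner_le_Lp_mul_Lq Finset.univ c
            (fun i => (∫⁻ x in cp i, H x ^ (k : ℝ) ∂σ) ^ (1 / (k : ℝ))) hconj).trans ?_
          rw [← hS, hqk]
          refine mul_le_mul_right (ENNReal.rpow_le_rpow ?_ (by positivity)) _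
          refine le_trans (le_of_eq ?_) hHk
          refine Finset.sum_congr rfl fun i _ => ?_
          rw [← ENNReal.rpow_mul, one_div, inv_mul_cancel₀ hk0.ne', ENNReal.rpow_one]
      _ = _ := by
          rw [ENNReal.mul_rpow_of_nonneg (ENNReal.ofReal (C1 * δ ^ d)) S h1p]
          ring
  obtain ⟨J, hJ0, hJ⟩ : ∃ J : ℝ, 0 ≤ J ∧ I = ENNReal.ofReal J :=
    ⟨I.toReal, ENNReal.toReal_nonneg, (ENNReal.ofReal_toReal hIt).symm⟩
  obtain ⟨Q, hQ0, hQ⟩ : ∃ Q : ℝ, 0 ≤ Q ∧ S = ENNReal.ofReal Q :=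
    ⟨S.toReal, ENNReal.toReal_nonneg, (ENNReal.ofReal_toReal hSt).symm⟩
  rw [hJ, hQ, ← ENNReal.ofReal_mul (by positivity), ← ENNReal.ofReal_mul (by positivity),
    ← ENNReal.ofReal_mul (by positivity),
    ENNReal.ofReal_rpow_of_nonneg (by positivity) (by positivity),
    ENNReal.ofReal_rpow_of_nonneg (by positivity) h1p, ← ENNReal.ofReal_mul (by positivity),
    ← ENNReal.ofReal_mul (by positivity), ENNReal.ofReal_le_ofReal_iff (by positivity)] at hmain
  have hfin : J ≤ B₁ * ((1 / δ) ^ B) ^ (1 / (k : ℝ)) * J ^ (1 / (k : ℝ)) *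
      (δ ^ d * Q) ^ (1 - 1 / (k : ℝ)) := by
    have h3 : κ * (δ / 4) ^ d * J ≤ C₀ * δ ^ d * ((C * (1 / δ) ^ B * J) ^ (1 / (k : ℝ)) *
        (C1 * (δ ^ d * Q)) ^ (1 - 1 / (k : ℝ))) := by
      refine hmain.trans (le_of_eq ?_)
      rw [← mul_assoc C1]
    rw [Real.mul_rpow (by positivity) hJ0, Real.mul_rpow hC (by positivity),
      Real.mul_rpow hC1.le (by positivity)] at h3
    have h4 : κ * (δ / 4) ^ d * J = (κ * δ ^ d / 4 ^ d) * J := by rw [div_pow]; ring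
    rw [h4] at h3
    have h5 : 0 < κ * δ ^ d / 4 ^ d := by positivity
    rw [← le_div_iff₀' h5] at h3
    refine h3.trans (le_of_eq ?_)
    rw [hB₁]
    field_simp
  have hsol := solve_ineq hJ0 (by positivity) (by positivity) (by positivity)
    (show (k : ℝ) = ((k : ℝ) - 1) + 1 by ring) hk1 hfin
  rw [hJ, hQ, ← ENNReal.ofReal_mul (by positivity)]
  apply ENNReal.ofReal_le_ofReal
  refine hsol.trans (le_of_eq ?_)
  rw [← Real.rpow_mul (by positivity)]
  have e1 : B * (1 / ((k : ℝ) - 1)) = B / ((k : ℝ) - 1) := by ring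
  rw [e1]
  ring

end Dual

end Pool.Agent.H565.PL
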