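import Pool.Agent.H565.MK.Core3
import Pool.Graph.R_seed8.W131.HM.CapVol
set_option autoImplicit false

/-!
# Stretching tubes
-/

namespace Pool.Agent.H565.PL
open MeasureTheory Finset Metric
open scoped ENNReal
open Pool.Agent.H565.MK

variable {n : ℕ}

/-- Stretching by the factor `t` in the directions orthogonal to `u`. -/
noncomputable def str (u : E n) (t : ℝ) : E n →ₗ[ℝ] E n where
  toFun x := t • x + ((1 - t) * inner ℝ u x) • u
  map_add' x y := by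
    rw [inner_add_right, mul_add, add_smul, smul_add]
    abel
  map_smul' c x := by
    rw [inner_smul_right, RingHom.id_apply, smul_add, smul_smul, smul_smul, smul_smul]
    congr 2 <;> ring

theorem str_apply (u : E n) (t : ℝ) (x : E n) :
    str u t x = t • x + ((1 - t) * inner ℝ u x) • u := rfl

theorem inner_str {u : E n} (hu : ‖u‖ = 1) (t : ℝ) (x : E n) :
    inner ℝ u (str u t x) = inner ℝ u x := by
  rw [str_apply, inner_add_right, inner_smul_right, inner_smul_right, real_inner_self_eq_norm_sq,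
    hu]
  ring

theorem str_str {u : E n} (hu : ‖u‖ = 1) (s t : ℝ) (x : E n) :
    str u s (str u t x) = str u (s * t) x := by
  rw [str_apply u s, inner_str hu, str_apply, str_apply, smul_add, smul_smul, smul_smul, add_assoc,
    ← add_smul]
  congr 2
  ring

theorem str_one (u x : E n) : str u 1 x = x := by
  rw [str_apply]
  simp

theorem norm_str_sq {u : E n} (hu : ‖u‖ = 1) (t : ℝ) (x : E n) :
    ‖str u t x‖ ^ 2 = t ^ 2 * ‖x‖ ^ 2 + (1 - t ^ 2) * (inner ℝ u x) ^ 2 := by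
  rw [str_apply, norm_add_sq_real, norm_smul, norm_smul, inner_smul_left, inner_smul_right, hu,
    Real.norm_eq_abs, Real.norm_eq_abs, mul_pow, sq_abs, mul_one, sq_abs, real_inner_comm x u]
  simp only [RCLike.conj_to_real]
  ring

theorem norm_str_le {u : E n} (hu : ‖u‖ = 1) {t : ℝ} (ht : 1 ≤ t) (x : E n) :
    ‖str u t x‖ ≤ t * ‖x‖ := by
  have h1 := norm_str_sq hu t x
  have h2 : ‖str u t x‖ ^ 2 ≤ (t * ‖x‖) ^ 2 := by
    rw [h1, mul_pow]
    have h3 : 0 ≤ (t ^ 2 - 1) * (inner ℝ u x) ^ 2 := by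
      apply mul_nonneg _ (sq_nonneg _)
      nlinarith
    linarith
  exact (pow_le_pow_iff_left₀ (norm_nonneg _) (by positivity) two_ne_zero).1 h2

theorem le_norm_str {u : E n} (hu : ‖u‖ = 1) {t : ℝ} (ht : 1 ≤ t) (x : E n) :
    ‖x‖ ≤ ‖str u t x‖ := by
  have h1 := norm_str_sq hu t x
  have h2 : ‖x‖ ^ 2 ≤ ‖str u t x‖ ^ 2 := by
    rw [h1]
    have h4 : |inner ℝ u x| ≤ ‖x‖ := by
      have := abs_real_inner_le_norm u x
      rwa [hu, one_mul] at this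
    have h5 : (inner ℝ u x) ^ 2 ≤ ‖x‖ ^ 2 := by
      rw [← sq_abs (inner ℝ u x)]
      exact pow_le_pow_left₀ (abs_nonneg _) h4 2
    have h3 : 0 ≤ (t ^ 2 - 1) * (‖x‖ ^ 2 - (inner ℝ u x) ^ 2) := by
      apply mul_nonneg <;> nlinarith
    nlinarith
  exact (pow_le_pow_iff_left₀ (norm_nonneg _) (norm_nonneg _) two_ne_zero).1 h2

/-- The length of a stretched direction near `u`. -/
theorem norm_str_dir {u e : E n} (hu : ‖u‖ = 1) (he : ‖e‖ = 1) {t : ℝ} (ht : 1 ≤ t)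
    (hd : ‖e - u‖ * t ≤ √n) : ‖str u t e‖ ≤ (n : ℝ) + 1 := by
  have h1 := norm_str_sq hu t e
  rw [he, one_pow, mul_one] at h1
  have hc : inner ℝ u e ≤ 1 := by
    have := real_inner_le_norm u e
    rwa [hu, he, one_mul] at this
  have h3 : ‖e - u‖ ^ 2 = 2 - 2 * inner ℝ u e := by
    rw [norm_sub_sq_real, he, hu, real_inner_comm]
    ring
  have h4 : 1 - (inner ℝ u e) ^ 2 ≤ ‖e - u‖ ^ 2 := by
    rw [h3]
    nlinarith [sq_nonneg (1 - inner ℝ u e : ℝ)]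
  have h5 : t ^ 2 * ‖e - u‖ ^ 2 ≤ n := by
    calc t ^ 2 * ‖e - u‖ ^ 2 = (‖e - u‖ * t) ^ 2 := by ring
      _ ≤ √n ^ 2 := by gcongr
      _ = n := Real.sq_sqrt (by positivity)
  have h6 : (inner ℝ u e) ^ 2 ≤ 1 := by
    have h7 : |inner ℝ u e| ≤ 1 := by
      have := abs_real_inner_le_norm u e
      rwa [hu, he, one_mul] at this
    rw [← sq_abs]
    nlinarith [abs_nonneg (inner ℝ u e : ℝ)]
  have h7 : ‖str u t e‖ ^ 2 ≤ ((n : ℝ) + 1) ^ 2 := by
    rw [h1]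
    have hn : (0 : ℝ) ≤ n := Nat.cast_nonneg _
    have h8 : t ^ 2 * (1 - (inner ℝ u e) ^ 2) ≤ t ^ 2 * ‖e - u‖ ^ 2 := by gcongr
    nlinarith
  exact (pow_le_pow_iff_left₀ (norm_nonneg _) (by positivity) two_ne_zero).1 h7

/-- Stretched directions are more separated. -/
theorem str_sep {u e e' : E n} (hu : ‖u‖ = 1) (he : ‖e‖ = 1) (he' : ‖e'‖ = 1) {t Λ : ℝ}
    (ht : 1 ≤ t) (hc : 1 / 2 ≤ inner ℝ u e) (hc' : 1 / 2 ≤ inner ℝ u e')
    (hΛ : ‖str u t e‖ ≤ Λ) (hΛ' : ‖str u t e'‖ ≤ Λ) :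
    ‖e - e'‖ * t ≤ 2 * (2 * Λ + 4 * Λ ^ 2) *
      ‖‖str u t e‖⁻¹ • str u t e - ‖str u t e'‖⁻¹ • str u t e'‖ := by
  obtain ⟨c, hcd⟩ : ∃ c : ℝ, c = inner ℝ u e := ⟨_, rfl⟩
  obtain ⟨c', hcd'⟩ : ∃ c' : ℝ, c' = inner ℝ u e' := ⟨_, rfl⟩
  rw [← hcd] at hc
  rw [← hcd'] at hc'
  have hc0 : 0 < c := by linarith
  have hc0' : 0 < c' := by linarith
  have hc1 : c ≤ 1 := by
    have := real_inner_le_norm u e
    rwa [hu, he, one_mul, ← hcd] at this
  have hc1' : c' ≤ 1 := by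
    have := real_inner_le_norm u e'
    rwa [hu, he', one_mul, ← hcd'] at this
  have hl1 : 1 ≤ ‖str u t e‖ := by
    have := le_norm_str hu ht e
    rwa [he] at this
  have hl1' : 1 ≤ ‖str u t e'‖ := by
    have := le_norm_str hu ht e'
    rwa [he'] at this
  obtain ⟨l, hl⟩ : ∃ l : ℝ, l = ‖str u t e‖ := ⟨_, rfl⟩
  obtain ⟨l', hl'⟩ : ∃ l' : ℝ, l' = ‖str u t e'‖ := ⟨_, rfl⟩
  rw [← hl] at hΛ hl1 ⊢
  rw [← hl'] at hΛ' hl1' ⊢
  have hl0 : 0 < l := by linarith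
  have hl0' : 0 < l' := by linarith
  have hΛ0 : 0 < Λ := by linarith
  -- the slopes
  have hs1 : ‖c⁻¹ • e‖ = c⁻¹ := by
    rw [norm_smul, he, mul_one, Real.norm_eq_abs, abs_of_pos (by positivity)]
  have hs1' : ‖c'⁻¹ • e'‖ = c'⁻¹ := by
    rw [norm_smul, he', mul_one, Real.norm_eq_abs, abs_of_pos (by positivity)]
  have hA : ‖e - e'‖ ≤ 2 * ‖c⁻¹ • e - c'⁻¹ • e'‖ := by
    have h1 : e - e' = c • (c⁻¹ • e - c'⁻¹ • e') + (c - c') • (c'⁻¹ • e') := by
      rw [smul_sub, smul_smul, smul_smul, smul_smul, mul_inv_cancel₀ hc0.ne', one_smul, sub_mul,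
        mul_inv_cancel₀ hc0'.ne', sub_smul, one_smul]
      abel
    have h2 : |c - c'| ≤ c * c' * ‖c⁻¹ • e - c'⁻¹ • e'‖ := by
      have h3 := abs_norm_sub_norm_le (c⁻¹ • e) (c'⁻¹ • e')
      rw [hs1, hs1'] at h3
      have h4 : c⁻¹ - c'⁻¹ = (c' - c) / (c * c') := by field_simp
      rw [h4, abs_div, abs_of_pos (by positivity : 0 < c * c'), div_le_iff₀ (by positivity),
        abs_sub_comm] at h3
      linarith
    rw [h1]
    refine (norm_add_le _ _).trans ?_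
    rw [norm_smul, norm_smul, hs1', Real.norm_eq_abs, Real.norm_eq_abs, abs_of_pos hc0]
    have h5 : |c - c'| * c'⁻¹ ≤ c * ‖c⁻¹ • e - c'⁻¹ • e'‖ := by
      rw [← div_eq_mul_inv, div_le_iff₀ hc0']
      linarith
    have h6 : c * ‖c⁻¹ • e - c'⁻¹ • e'‖ ≤ 1 * ‖c⁻¹ • e - c'⁻¹ • e'‖ := by gcongr
    linarith
  have hB : ‖c⁻¹ • e - c'⁻¹ • e'‖ * t = ‖c⁻¹ • str u t e - c'⁻¹ • str u t e'‖ := by
    have h1 : c⁻¹ • str u t e - c'⁻¹ • str u t e' = str u t (c⁻¹ • e - c'⁻¹ • e') := by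
      rw [map_sub, map_smul, map_smul]
    have h2 : inner ℝ u (c⁻¹ • e - c'⁻¹ • e') = 0 := by
      rw [inner_sub_right, inner_smul_right, inner_smul_right, ← hcd, ← hcd',
        inv_mul_cancel₀ hc0.ne', inv_mul_cancel₀ hc0'.ne', sub_self]
    rw [h1, str_apply, h2, mul_zero, zero_smul, add_zero, norm_smul, Real.norm_eq_abs,
      abs_of_pos (by linarith), mul_comm]
  -- the normalised directions
  obtain ⟨w, hw⟩ : ∃ w : E n, w = l⁻¹ • str u t e := ⟨_, rfl⟩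
  obtain ⟨w', hw'⟩ : ∃ w' : E n, w' = l'⁻¹ • str u t e' := ⟨_, rfl⟩
  rw [← hw, ← hw']
  have hwn' : ‖w'‖ = 1 := by
    rw [hw', norm_smul, Real.norm_eq_abs, abs_of_pos (by positivity), ← hl',
      inv_mul_cancel₀ hl0'.ne']
  have hC : c⁻¹ • str u t e - c'⁻¹ • str u t e' = (l * c⁻¹) • (w - w') +
      (l * c⁻¹ - l' * c'⁻¹) • w' := by
    have e1 : c⁻¹ • str u t e = (l * c⁻¹) • w := by
      rw [hw, smul_smul, mul_assoc, mul_comm c⁻¹, ← mul_assoc, mul_inv_cancel₀ hl0.ne', one_mul]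
    have e2 : c'⁻¹ • str u t e' = (l' * c'⁻¹) • w' := by
      rw [hw', smul_smul, mul_assoc, mul_comm c'⁻¹, ← mul_assoc, mul_inv_cancel₀ hl0'.ne',
        one_mul]
    rw [e1, e2, smul_sub, sub_smul]
    abel
  have hiw : inner ℝ u w = c / l := by
    rw [hw, inner_smul_right, inner_str hu, ← hcd]
    field_simp
  have hiw' : inner ℝ u w' = c' / l' := by
    rw [hw', inner_smul_right, inner_str hu, ← hcd']
    field_simp
  have hD : |c / l - c' / l'| ≤ ‖w - w'‖ := by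
    rw [← hiw, ← hiw', ← inner_sub_right]
    have := abs_real_inner_le_norm u (w - w')
    rwa [hu, one_mul] at this
  have hlc : l * c⁻¹ ≤ 2 * Λ := by
    rw [← div_eq_mul_inv, div_le_iff₀ hc0]
    nlinarith
  have hlc' : l' * c'⁻¹ ≤ 2 * Λ := by
    rw [← div_eq_mul_inv, div_le_iff₀ hc0']
    nlinarith
  have hE : |l * c⁻¹ - l' * c'⁻¹| ≤ 4 * Λ ^ 2 * ‖w - w'‖ := by
    have h1 : l * c⁻¹ - l' * c'⁻¹ = -((l * c⁻¹) * (l' * c'⁻¹) * (c / l - c' / l')) := by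
      field_simp
      ring
    rw [h1, abs_neg, abs_mul, abs_mul, abs_of_pos (by positivity : 0 < l * c⁻¹),
      abs_of_pos (by positivity : 0 < l' * c'⁻¹)]
    calc l * c⁻¹ * (l' * c'⁻¹) * |c / l - c' / l'| ≤ (2 * Λ) * (2 * Λ) * ‖w - w'‖ := by gcongr
      _ = _ := by ring
  have hF : ‖c⁻¹ • str u t e - c'⁻¹ • str u t e'‖ ≤ (2 * Λ + 4 * Λ ^ 2) * ‖w - w'‖ := by
    rw [hC]
    refine (norm_add_le _ _).trans ?_
    rw [norm_smul, norm_smul, hwn', mul_one, Real.norm_eq_abs, Real.norm_eq_abs,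
      abs_of_pos (by positivity : 0 < l * c⁻¹), add_mul]
    gcongr
  calc ‖e - e'‖ * t ≤ 2 * ‖c⁻¹ • e - c'⁻¹ • e'‖ * t := by gcongr
    _ = 2 * ‖c⁻¹ • str u t e - c'⁻¹ • str u t e'‖ := by rw [← hB]; ring
    _ ≤ 2 * ((2 * Λ + 4 * Λ ^ 2) * ‖w - w'‖) := by gcongr
    _ = _ := by ring

/-- Stretching does not increase the distance to a subspace by more than the factor `t`. -/
theorem infDist_str {u e : E n} (hu : ‖u‖ = 1) (he : ‖e‖ = 1) {t : ℝ} (ht : 1 ≤ t)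
    (V : Submodule ℝ (E n)) :
    infDist (‖str u t e‖⁻¹ • str u t e) (V.map (str u t) : Submodule ℝ (E n)) ≤
      t * infDist e V := by
  have hl1 : 1 ≤ ‖str u t e‖ := by
    have := le_norm_str hu ht e
    rwa [he] at this
  have hne : (V : Set (E n)).Nonempty := ⟨0, V.zero_mem⟩
  have ht0 : 0 < t := by linarith
  rw [← div_le_iff₀' ht0]
  refine le_infDist hne |>.2 ?_
  intro v hv
  rw [div_le_iff₀' ht0]
  have hmem : ‖str u t e‖⁻¹ • str u t v ∈ (V.map (str u t) : Submodule ℝ (E n)) :=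
    Submodule.smul_mem _ _ (Submodule.mem_map_of_mem hv)
  refine (infDist_le_dist_of_mem hmem).trans ?_
  rw [dist_eq_norm, ← smul_sub, ← map_sub, norm_smul, dist_eq_norm, norm_inv, norm_norm]
  calc ‖str u t e‖⁻¹ * ‖str u t (e - v)‖ ≤ 1 * (t * ‖e - v‖) := by
        refine mul_le_mul (inv_le_one_of_one_le₀ hl1) (norm_str_le hu ht _) (norm_nonneg _)
          zero_le_one
    _ = _ := one_mul _

/-- Finite nets. -/
theorem net (F : Type) [NormedAddCommGroup F] [NormedSpace ℝ F] [FiniteDimensional ℝ F] (R ε : ℝ)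
    (hε : 0 < ε) : ∃ Z : Finset F, ∀ w : F, ‖w‖ ≤ R → ∃ z ∈ Z, ‖w - z‖ ≤ ε := by
  have : ProperSpace F := FiniteDimensional.proper ℝ F
  obtain ⟨t, ht, hcov⟩ := Metric.totallyBounded_iff.1
    (isCompact_closedBall (0 : F) R).totallyBounded ε hε
  refine ⟨ht.toFinset, fun w hw => ?_⟩
  obtain ⟨z, hz, hwz⟩ := Set.mem_iUnion₂.1 (hcov (mem_closedBall_zero_iff.2 hw))
  refine ⟨z, ht.mem_toFinset.2 hz, ?_⟩
  rw [← dist_eq_norm]
  exact (mem_ball.1 hwz).le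

/-- A stretched tube is covered by boundedly many thin tubes. -/
theorem str_cover {u e : E n} (hu : ‖u‖ = 1) (he : ‖e‖ = 1) {t δ r R Λ : ℝ} (ht : 1 ≤ t)
    (hr0 : 0 < r) (hr : r ≤ 1 / 4) (hR : t * δ ≤ R * r) (hΛ : ‖str u t e‖ ≤ Λ)
    (T : Finset ℝ) (hT : ∀ w : ℝ, ‖w‖ ≤ Λ / 2 → ∃ z ∈ T, ‖w - z‖ ≤ 1 / 4)
    (Z : Finset (E n)) (hZ : ∀ w : E n, ‖w‖ ≤ R → ∃ z ∈ Z, ‖w - z‖ ≤ 1) (a x : E n)
    (hx : x ∈ tube δ a e) :
    ∃ p ∈ T ×ˢ Z, str u t x ∈ tube r (str u t a + p.1 • (‖str u t e‖⁻¹ • str u t e) + r • p.2)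
      (‖str u t e‖⁻¹ • str u t e) := by
  have hl1 : 1 ≤ ‖str u t e‖ := by
    have := le_norm_str hu ht e
    rwa [he] at this
  have hl0 : 0 < ‖str u t e‖ := by linarith
  obtain ⟨h1, h2⟩ := hx
  obtain ⟨s, hs⟩ : ∃ s : ℝ, s = inner ℝ (x - a) e := ⟨_, rfl⟩
  obtain ⟨w, hw⟩ : ∃ w : E n, w = (x - a) - s • e := ⟨_, rfl⟩
  rw [← hs] at h1 h2
  rw [← hw] at h2
  obtain ⟨z1, hz1, hz1'⟩ := hT (s * ‖str u t e‖) (by
    rw [Real.norm_eq_abs, abs_mul, abs_norm]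
    calc |s| * ‖str u t e‖ ≤ 1 / 2 * Λ := by gcongr
      _ = _ := by ring)
  obtain ⟨z2, hz2, hz2'⟩ := hZ (r⁻¹ • str u t w) (by
    rw [norm_smul, Real.norm_eq_abs, abs_of_pos (by positivity), inv_mul_le_iff₀ hr0]
    calc ‖str u t w‖ ≤ t * ‖w‖ := norm_str_le hu ht w
      _ ≤ t * δ := by gcongr
      _ ≤ R * r := hR
      _ = _ := mul_comm _ _)
  refine ⟨(z1, z2), Finset.mem_product.2 ⟨hz1, hz2⟩, ?_⟩
  have hwn : ‖‖str u t e‖⁻¹ • str u t e‖ = 1 := by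
    rw [norm_smul, norm_inv, norm_norm, inv_mul_cancel₀ hl0.ne']
  refine Pool.Agent.W46.KK.near_axis _ _ _ hwn (s * ‖str u t e‖ - z1) r ?_ le_rfl ?_
  · rw [Real.norm_eq_abs] at hz1'
    linarith
  · have hxa : x = a + s • e + w := by rw [hw]; abel
    have e1 : str u t x - (str u t a + z1 • (‖str u t e‖⁻¹ • str u t e) + r • z2 +
        (s * ‖str u t e‖ - z1) • (‖str u t e‖⁻¹ • str u t e)) = r • (r⁻¹ • str u t w - z2) := by
      rw [hxa, map_add, map_add, map_smul, smul_sub, smul_smul r, mul_inv_cancel₀ hr0.ne', one_smul,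
        sub_smul, smul_smul (s * ‖str u t e‖), mul_assoc, mul_inv_cancel₀ hl0.ne', mul_one]
      abel
    rw [e1, norm_smul, Real.norm_eq_abs, abs_of_pos hr0]
    calc r * ‖r⁻¹ • str u t w - z2‖ ≤ r * 1 := by gcongr
      _ = r := mul_one r

/-- The stretching as a linear equivalence. -/
noncomputable def strE {u : E n} (hu : ‖u‖ = 1) {t : ℝ} (ht : t ≠ 0) : E n ≃ₗ[ℝ] E n :=
  LinearEquiv.ofLinearMap (str u t) (str u t⁻¹)
    (by
      ext1 x
      rw [LinearMap.comp_apply, LinearMap.id_apply, str_str hu, mul_inv_cancel₀ ht, str_one])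
    (by
      ext1 x
      rw [LinearMap.comp_apply, LinearMap.id_apply, str_str hu, inv_mul_cancel₀ ht, str_one])

theorem det_ne {u : E n} (hu : ‖u‖ = 1) {t : ℝ} (ht : t ≠ 0) : LinearMap.det (str u t) ≠ 0 := by
  have h := LinearEquiv.isUnit_det' (strE hu ht)
  exact h.ne_zero

/-- The change of variables. -/
theorem lintegral_str (hn : 1 ≤ n) {u : E n} (hu : ‖u‖ = 1) {t : ℝ} (ht : 1 ≤ t)
    (H : E n → ℝ≥0∞) (hH : Measurable H) :
    ∫⁻ x, H (str u t x) ≤ (ENNReal.ofReal ((n.factorial : ℝ) * 6 ^ n) /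
      volume (closedBall (0 : E n) (1 / 2))) * ENNReal.ofReal (t⁻¹ ^ (n - 1)) * ∫⁻ x, H x := by
  have ht0 : 0 < t := by linarith
  have hdet := det_ne hu ht0.ne'
  have hc : Continuous (str u t) := LinearMap.continuous_of_finiteDimensional _
  have hmap := Measure.map_linearMap_addHaar_eq_smul_addHaar (volume : Measure (E n)) hdet
  have h1 : ∫⁻ x, H (str u t x) = ENNReal.ofReal |(LinearMap.det (str u t))⁻¹| * ∫⁻ x, H x := by
    rw [← lintegral_map hH hc.measurable, hmap, lintegral_smul_measure, smul_eq_mul]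
  have hvb : volume (closedBall (0 : E n) (1 / 2)) ≠ 0 :=
    (measure_closedBall_pos volume _ (by norm_num)).ne'
  have hvt : volume (closedBall (0 : E n) (1 / 2)) ≠ ∞ := measure_closedBall_lt_top.ne
  have h2 : ENNReal.ofReal |(LinearMap.det (str u t))⁻¹| * volume (closedBall (0 : E n) (1 / 2)) ≤
      ENNReal.ofReal ((n.factorial : ℝ) * 6 ^ n * t⁻¹ ^ (n - 1)) := by
    rw [← Measure.addHaar_preimage_linearMap (volume : Measure (E n)) hdet]
    refine (measure_mono ?_).trans (volume_tube hn (inv_pos.2 ht0) (inv_le_one_of_one_le₀ ht)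
      0 u hu)
    intro x hx
    rw [Set.mem_preimage, mem_closedBall_zero_iff] at hx
    have hin : |inner ℝ u x| ≤ 1 / 2 := by
      rw [← inner_str hu t x]
      have := abs_real_inner_le_norm u (str u t x)
      rw [hu, one_mul] at this
      exact this.trans hx
    refine ⟨?_, ?_⟩
    · rw [sub_zero, real_inner_comm]
      exact hin
    · rw [sub_zero, real_inner_comm]
      have e1 : str u t x = (inner ℝ u x : ℝ) • u + t • (x - (inner ℝ u x : ℝ) • u) := by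
        rw [str_apply, smul_sub, smul_smul, sub_mul, one_mul, sub_smul]
        abel
      have h3 : t • (x - (inner ℝ u x : ℝ) • u) = str u t x - (inner ℝ u x : ℝ) • u := by
        rw [e1]
        abel
      have h4 : ‖t • (x - (inner ℝ u x : ℝ) • u)‖ ≤ 1 := by
        rw [h3]
        refine (norm_sub_le _ _).trans ?_
        rw [norm_smul, hu, mul_one, Real.norm_eq_abs]
        linarith
      rw [norm_smul, Real.norm_eq_abs, abs_of_pos ht0] at h4
      rw [← one_div, le_div_iff₀ ht0]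
      linarith
  rw [h1]
  refine mul_le_mul_left ?_ _
  rw [ENNReal.ofReal_mul (by positivity)] at h2
  rw [div_eq_mul_inv, mul_assoc, mul_comm (volume (closedBall (0 : E n) (1 / 2)))⁻¹, ← mul_assoc,
    ← div_eq_mul_inv]
  exact (ENNReal.le_div_iff_mul_le (Or.inl hvb) (Or.inl hvt)).2 h2

end Pool.Agent.H565.PL
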