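import Pool.Agent.H565.PL.Dual
import Pool.Agent.H565.MK.HT1
set_option autoImplicit false

/-!
# From weighted tubes to the maximal function
-/

namespace Pool.Agent.H565.PL
open MeasureTheory Finset Metric
open scoped ENNReal
open Pool.Agent.H565.MK

variable {n : ℕ}

/-- The Kakeya maximal function for functions with values in `[0, ∞]`. -/
noncomputable def kmaxF (δ : ℝ) (f : E n → ℝ≥0∞) (e : E n) : ℝ≥0∞ :=
  ⨆ a : E n, (volume (tube δ a e))⁻¹ * ∫⁻ y in tube δ a e, f y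

/-- Duality for separated directions. -/
theorem dual_sep {k : ℕ} (hk : 2 ≤ k) {δ D : ℝ} (hD : 0 ≤ D) (hn : 1 ≤ n) (hδ : 0 < δ)
    (hδ1 : δ ≤ 1) (ι : Type) [Fintype ι] (e : ι → E n) (he : ∀ i, ‖e i‖ = 1)
    (h : ∀ (a : ι → E n) (c : ι → ℝ≥0∞), (∀ i, c i ≠ ∞) →
      ∫⁻ x, (∑ i ∈ thr δ a e x, c i) ^ (1 + 1 / ((k : ℝ) - 1)) ≤
        ENNReal.ofReal D * ∑ i, c i ^ (1 + 1 / ((k : ℝ) - 1)))
    (f : E n → ℝ≥0∞) (hf : AEMeasurable f) (hft : ∫⁻ y, f y ^ (k : ℝ) ≠ ∞) :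
    ∑ i, (⨆ a : E n, ∫⁻ y in tube δ a (e i), f y) ^ (k : ℝ) ≤
      ENNReal.ofReal (2 ^ (k : ℝ) * D ^ ((k : ℝ) - 1)) * ∫⁻ y, f y ^ (k : ℝ) := by
  classical
  have hk2 : (2 : ℝ) ≤ k := by exact_mod_cast hk
  have hk1 : (0 : ℝ) < (k : ℝ) - 1 := by linarith
  have hk0 : (0 : ℝ) < k := by linarith
  have hk11 : (1 : ℝ) < k := by linarith
  have hp0 : 0 < 1 / ((k : ℝ) - 1) := by positivity
  obtain ⟨q, hq⟩ : ∃ q : ℝ, q = 1 + 1 / ((k : ℝ) - 1) := ⟨_, rfl⟩
  rw [← hq] at h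
  have hq1 : 1 < q := by linarith
  have hq0 : 0 < q := by linarith
  have hkq : ((k : ℝ) - 1) * q = k := by rw [hq]; field_simp; ring
  have hqk : 1 / q = 1 - 1 / k := by rw [hq]; field_simp; ring
  have h1p : 0 ≤ 1 - 1 / (k : ℝ) := by rw [← hqk]; positivity
  have hconj : Real.HolderConjugate k q := by
    rw [Real.holderConjugate_iff]
    refine ⟨hk11, ?_⟩
    rw [← one_div, ← one_div, hqk]
    ring
  obtain ⟨Φ, hΦ⟩ : ∃ Φ : ℝ≥0∞, Φ = ∫⁻ y, f y ^ (k : ℝ) := ⟨_, rfl⟩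
  rw [← hΦ] at hft ⊢
  -- the suprema are finite
  obtain ⟨A, hA⟩ : ∃ A : ι → ℝ≥0∞, ∀ i, A i = ⨆ a : E n, ∫⁻ y in tube δ a (e i), f y :=
    ⟨_, fun _ => rfl⟩
  simp only [← hA]
  have hAt : ∀ i, A i ≠ ∞ := by
    intro i
    have h1 : A i ≤ Φ ^ (1 / (k : ℝ)) *
        ENNReal.ofReal ((n.factorial : ℝ) * 6 ^ n * δ ^ (n - 1)) ^ (1 - 1 / (k : ℝ)) := by
      rw [hA]
      refine iSup_le fun a => ?_
      refine (holder_set volume _ _ hk11).trans ?_
      gcongr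
      · rw [hΦ]
        exact setLIntegral_le_lintegral _ _
      · exact volume_tube hn hδ hδ1 a (e i) (he i)
    refine ne_top_of_le_ne_top (ENNReal.mul_ne_top (ENNReal.rpow_ne_top_of_nonneg (by positivity)
      hft) (ENNReal.rpow_ne_top_of_nonneg h1p ENNReal.ofReal_ne_top)) h1
  have hex : ∀ i, ∃ a : E n, A i ≤ 2 * ∫⁻ y in tube δ a (e i), f y := by
    intro i
    rcases eq_or_ne (A i) 0 with h0 | h0
    · exact ⟨0, by rw [h0]; exact zero_le⟩
    · have h1 : A i / 2 < ⨆ a : E n, ∫⁻ y in tube δ a (e i), f y := by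
        rw [← hA]
        exact ENNReal.half_lt_self h0 (hAt i)
      obtain ⟨a, ha⟩ := lt_iSup_iff.1 h1
      refine ⟨a, ?_⟩
      rw [mul_comm]
      exact (ENNReal.div_le_iff two_ne_zero ENNReal.ofNat_ne_top).1 ha.le
  choose a ha using hex
  obtain ⟨I, hI⟩ : ∃ I : ι → ℝ≥0∞, ∀ i, I i = ∫⁻ y in tube δ (a i) (e i), f y :=
    ⟨_, fun _ => rfl⟩
  have hIt : ∀ i, I i ≠ ∞ := fun i => by
    refine ne_top_of_le_ne_top (hAt i) ?_
    rw [hI, hA]
    exact le_iSup (fun a => ∫⁻ y in tube δ a (e i), f y) (a i)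
  obtain ⟨c, hc⟩ : ∃ c : ι → ℝ≥0∞, ∀ i, c i = I i ^ ((k : ℝ) - 1) := ⟨_, fun _ => rfl⟩
  have hct : ∀ i, c i ≠ ∞ := fun i => by
    rw [hc]
    exact ENNReal.rpow_ne_top_of_nonneg hk1.le (hIt i)
  have hcq : ∀ i, c i ^ q = I i ^ (k : ℝ) := fun i => by
    rw [hc, ← ENNReal.rpow_mul, hkq]
  obtain ⟨S, hS⟩ : ∃ S : ℝ≥0∞, S = ∑ i, I i ^ (k : ℝ) := ⟨_, rfl⟩
  have hSt : S ≠ ∞ := by
    rw [hS]
    exact ENNReal.sum_ne_top.2 fun i _ => ENNReal.rpow_ne_top_of_nonneg hk0.le (hIt i)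
  have hthr : ∀ x, ∑ i ∈ thr δ a e x, c i =
      ∑ i, c i * (tube δ (a i) (e i)).indicator (fun _ => (1 : ℝ≥0∞)) x := by
    intro x
    have h1 := sum_thr δ a e c x (fun _ => True)
    rw [Finset.filter_true, Finset.filter_true] at h1
    exact h1
  have hmeas : Measurable fun x => ∑ i ∈ thr δ a e x, c i := by
    simp only [hthr]
    exact Finset.measurable_sum _ fun i _ => (measurable_const.indicator
      (measurableSet_tube _ _ _)).const_mul _
  have hSle : S ≤ Φ ^ (1 / (k : ℝ)) * (ENNReal.ofReal D * S) ^ (1 - 1 / (k : ℝ)) := by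
    calc S = ∑ i, c i * I i := by
          rw [hS]
          refine Finset.sum_congr rfl fun i _ => ?_
          rw [hc]
          nth_rewrite 3 [← ENNReal.rpow_one (I i)]
          rw [← ENNReal.rpow_add_of_nonneg _ _ hk1.le zero_le_one]
          congr 1
          ring
      _ = ∫⁻ x, f x * ∑ i ∈ thr δ a e x, c i := by
          have e1 : ∀ x, f x * ∑ i ∈ thr δ a e x, c i =
              ∑ i, c i * (tube δ (a i) (e i)).indicator f x := by
            intro x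
            rw [hthr, Finset.mul_sum]
            refine Finset.sum_congr rfl fun i _ => ?_
            by_cases hx : x ∈ tube δ (a i) (e i)
            · rw [Set.indicator_of_mem hx, Set.indicator_of_mem hx]
              ring
            · rw [Set.indicator_of_notMem hx, Set.indicator_of_notMem hx]
              ring
          rw [lintegral_congr e1, lintegral_finsetSum' _ fun i _ =>
            (hf.indicator (measurableSet_tube _ _ _)).const_mul _]
          refine Finset.sum_congr rfl fun i _ => ?_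
          rw [lintegral_const_mul'' _ (hf.indicator (measurableSet_tube _ _ _)),
            lintegral_indicator (measurableSet_tube _ _ _), hI]
      _ ≤ Φ ^ (1 / (k : ℝ)) * (∫⁻ x, (∑ i ∈ thr δ a e x, c i) ^ q) ^ (1 / q) := by
          rw [hΦ]
          exact ENNReal.lintegral_mul_le_Lp_mul_Lq volume hconj hf hmeas.aemeasurable
      _ ≤ _ := by
          rw [hqk]
          refine mul_le_mul_right (ENNReal.rpow_le_rpow ?_ h1p) _
          refine (h a c hct).trans (le_of_eq ?_)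
          rw [hS]
          simp only [hcq]
  obtain ⟨s, hs0, hs⟩ : ∃ s : ℝ, 0 ≤ s ∧ S = ENNReal.ofReal s :=
    ⟨S.toReal, ENNReal.toReal_nonneg, (ENNReal.ofReal_toReal hSt).symm⟩
  obtain ⟨φ, hφ0, hφ⟩ : ∃ φ : ℝ, 0 ≤ φ ∧ Φ = ENNReal.ofReal φ :=
    ⟨Φ.toReal, ENNReal.toReal_nonneg, (ENNReal.ofReal_toReal hft).symm⟩
  have hsφ : s ≤ D ^ ((k : ℝ) - 1) * φ := by
    rw [hs, hφ, ← ENNReal.ofReal_mul hD, ENNReal.ofReal_rpow_of_nonneg hφ0 (by positivity),
      ENNReal.ofReal_rpow_of_nonneg (by positivity) h1p, ← ENNReal.ofReal_mul (by positivity),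
      ENNReal.ofReal_le_ofReal_iff (by positivity)] at hSle
    rcases hs0.eq_or_lt with h0 | h0
    · rw [← h0]
      positivity
    rw [Real.mul_rpow hD hs0] at hSle
    have e1 : s = s ^ (1 / (k : ℝ)) * s ^ (1 - 1 / (k : ℝ)) := by
      rw [← Real.rpow_add h0]
      simp
    have h1 : s ^ (1 / (k : ℝ)) ≤ φ ^ (1 / (k : ℝ)) * D ^ (1 - 1 / (k : ℝ)) := by
      have h2 : 0 < s ^ (1 - 1 / (k : ℝ)) := by positivity
      rw [← mul_le_mul_iff_left₀ h2]
      calc s ^ (1 / (k : ℝ)) * s ^ (1 - 1 / (k : ℝ)) = s := e1.symm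
        _ ≤ _ := hSle
        _ = _ := by ring
    calc s = (s ^ (1 / (k : ℝ))) ^ (k : ℝ) := by
          rw [← Real.rpow_mul hs0, one_div, inv_mul_cancel₀ hk0.ne', Real.rpow_one]
      _ ≤ (φ ^ (1 / (k : ℝ)) * D ^ (1 - 1 / (k : ℝ))) ^ (k : ℝ) := by gcongr
      _ = D ^ ((k : ℝ) - 1) * φ := by
          rw [Real.mul_rpow (by positivity) (by positivity), ← Real.rpow_mul hφ0,
            ← Real.rpow_mul hD, one_div, inv_mul_cancel₀ hk0.ne', Real.rpow_one, mul_comm]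
          congr 2
          field_simp
  calc ∑ i, A i ^ (k : ℝ) ≤ ∑ i, 2 ^ (k : ℝ) * I i ^ (k : ℝ) := by
        refine Finset.sum_le_sum fun i _ => ?_
        rw [← ENNReal.mul_rpow_of_nonneg _ _ hk0.le, hI]
        exact ENNReal.rpow_le_rpow (ha i) hk0.le
    _ = 2 ^ (k : ℝ) * S := by rw [← Finset.mul_sum, hS]
    _ ≤ 2 ^ (k : ℝ) * ENNReal.ofReal (D ^ ((k : ℝ) - 1) * φ) := by
        rw [hs]
        exact mul_le_mul_right (ENNReal.ofReal_le_ofReal hsφ) _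
    _ = _ := by
        rw [hφ, ENNReal.ofReal_mul (p := 2 ^ (k : ℝ)) (by positivity),
          ENNReal.ofReal_mul (by positivity),
          ← ENNReal.ofReal_rpow_of_nonneg (by norm_num : (0 : ℝ) ≤ 2) hk0.le,
          ENNReal.ofReal_ofNat]
        ring

/-- A tube is covered by boundedly many tubes of the same size in a neighbouring direction. -/
theorem tube_cover' (T : Finset ℝ) (hT : ∀ w : ℝ, ‖w‖ ≤ 1 / 2 → ∃ z ∈ T, ‖w - z‖ ≤ 1 / 4)
    (Z : Finset (E n)) (hZ : ∀ w : E n, ‖w‖ ≤ 2 → ∃ z ∈ Z, ‖w - z‖ ≤ 1 / 4) {δ : ℝ}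
    (hδ : 0 < δ) (hδ1 : δ ≤ 1) (a : E n) {e e' : E n} (he : ‖e‖ = 1) (hee : ‖e' - e‖ ≤ δ)
    (x : E n) (hx : x ∈ tube δ a e') :
    ∃ p ∈ T ×ˢ Z, x ∈ tube δ (a + p.1 • e + δ • p.2) e := by
  obtain ⟨h1, h2⟩ := hx
  obtain ⟨s, hs⟩ : ∃ s : ℝ, s = inner ℝ (x - a) e' := ⟨_, rfl⟩
  obtain ⟨w, hw⟩ : ∃ w : E n, w = (x - a) - s • e := ⟨_, rfl⟩
  rw [← hs] at h1 h2
  have hw2 : ‖w‖ ≤ 2 * δ := by
    have h3 : w = ((x - a) - s • e') + s • (e' - e) := by
      rw [hw, smul_sub]; abel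
    rw [h3]
    refine (norm_add_le _ _).trans ?_
    rw [norm_smul, Real.norm_eq_abs]
    have h5 : |s| * ‖e' - e‖ ≤ 1 / 2 * δ := by gcongr
    linarith
  obtain ⟨z1, hz1, hz1'⟩ := hT s h1
  obtain ⟨z2, hz2, hz2'⟩ := hZ (δ⁻¹ • w) (by
    rw [norm_smul, Real.norm_eq_abs, abs_of_pos (by positivity), inv_mul_le_iff₀ hδ]
    linarith)
  refine ⟨(z1, z2), Finset.mem_product.2 ⟨hz1, hz2⟩, ?_⟩
  refine Pool.Agent.W46.KK.near_axis _ _ _ he (s - z1) (δ * (1 / 4)) ?_ (by linarith) ?_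
  · rw [Real.norm_eq_abs] at hz1'
    linarith
  · have hxa : x = a + s • e + w := by rw [hw]; abel
    have e1 : x - (a + z1 • e + δ • z2 + (s - z1) • e) = δ • (δ⁻¹ • w - z2) := by
      rw [hxa, smul_sub, smul_smul δ, mul_inv_cancel₀ hδ.ne', one_smul, sub_smul]
      abel
    change ‖x - (a + z1 • e + δ • z2 + (s - z1) • e)‖ ≤ δ * (1 / 4)
    rw [e1, norm_smul, Real.norm_eq_abs, abs_of_pos hδ]
    gcongr

/-- **From weighted tubes to the maximal function.** -/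
theorem max_of_tubes {k : ℕ} (hk : 2 ≤ k) (hn : 1 ≤ n) : ∃ C : ℝ, 0 < C ∧
    ∀ (δ D : ℝ), 0 < δ → δ < 1 → 0 < D →
    (∀ (ι : Type) [Fintype ι] (a e : ι → E n), (∀ i, ‖e i‖ = 1) →
      (∀ i j, i ≠ j → δ ≤ ‖e i - e j‖) → ∀ c : ι → ℝ≥0∞, (∀ i, c i ≠ ∞) →
      ∫⁻ x, (∑ i ∈ thr δ a e x, c i) ^ (1 + 1 / ((k : ℝ) - 1)) ≤
        ENNReal.ofReal (D * δ ^ (n - 1)) * ∑ i, c i ^ (1 + 1 / ((k : ℝ) - 1))) →
    ∀ f : E n → ℝ≥0∞, AEMeasurable f →
      ∫⁻ e : sphere (0 : E n) 1, kmaxF δ f e ^ (k : ℝ) ∂(volume : Measure (E n)).toSphere ≤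
        ENNReal.ofReal (C * D ^ ((k : ℝ) - 1)) * ∫⁻ y, f y ^ (k : ℝ) := by
  classical
  obtain ⟨d, rfl⟩ : ∃ d, n = d + 1 := ⟨n - 1, by omega⟩
  have hk2 : (2 : ℝ) ≤ k := by exact_mod_cast hk
  have hk1 : (0 : ℝ) < (k : ℝ) - 1 := by linarith
  have hk0 : (0 : ℝ) < k := by linarith
  obtain ⟨κ, hκ, hV⟩ := Pool.Agent.W131.HM.VOL d
  obtain ⟨C1, hC1, hcu⟩ := Pool.Agent.W131.HM.CAP d
  obtain ⟨T, hT⟩ := net ℝ (1 / 2) (1 / 4) (by norm_num)
  obtain ⟨Z, hZ⟩ := net (E (d + 1)) 2 (1 / 4) (by norm_num)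
  obtain ⟨P, hP⟩ : ∃ P : ℝ, P = ((T ×ˢ Z).card : ℝ) + 1 := ⟨_, rfl⟩
  have hP0 : 0 < P := by rw [hP]; positivity
  refine ⟨C1 * (P / κ) ^ (k : ℝ) * 2 ^ (k : ℝ), by positivity, ?_⟩
  intro δ D hδ hδ1 hD h f hf
  rcases eq_or_ne (∫⁻ y, f y ^ (k : ℝ)) ∞ with hft | hft
  · rw [hft, ENNReal.mul_top]
    · exact le_top
    · rw [Ne, ENNReal.ofReal_eq_zero, not_le]
      positivity
  -- a maximal separated set of directions
  obtain ⟨Y, -, hsepY, hcovY⟩ := max_sep (Set.univ : Set (sphere (0 : E (d + 1)) 1))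
    isCompact_univ.totallyBounded hδ
  obtain ⟨e, he⟩ : ∃ e : Y → E (d + 1), ∀ i, e i = ((i : sphere (0 : E (d + 1)) 1) : E (d + 1)) :=
    ⟨_, fun _ => rfl⟩
  have he1 : ∀ i, ‖e i‖ = 1 := fun i => by rw [he]; simp
  have hesep : ∀ i j, i ≠ j → δ ≤ ‖e i - e j‖ := by
    intro i j hij
    have h1 := hsepY i i.2 j j.2 (fun h => hij (Subtype.ext h))
    rw [Subtype.dist_eq, dist_eq_norm] at h1
    rw [he, he]
    exact h1
  have hdual := dual_sep hk (D := D * δ ^ (d + 1 - 1)) (by positivity) (by omega) hδ hδ1.le Y e he1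
    (fun a c hc => h Y a e he1 hesep c hc) f hf hft
  rw [Nat.add_sub_cancel] at hdual
  obtain ⟨A, hA⟩ : ∃ A : Y → ℝ≥0∞, ∀ i, A i = ⨆ a : E (d + 1), ∫⁻ y in tube δ a (e i), f y :=
    ⟨_, fun _ => rfl⟩
  simp only [← hA] at hdual
  -- the maximal function on a cap
  have hcap : ∀ (i : Y) (x : sphere (0 : E (d + 1)) 1), dist x i ≤ δ →
      kmaxF δ f x ≤ ENNReal.ofReal (P / (κ * δ ^ d)) * A i := by
    intro i x hx
    have hxe : ‖(x : E (d + 1)) - e i‖ ≤ δ := by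
      rw [Subtype.dist_eq, dist_eq_norm] at hx
      rw [he]
      exact hx
    have hx1 : ‖(x : E (d + 1))‖ = 1 := by simp
    unfold kmaxF
    refine iSup_le fun a => ?_
    have h1 : ENNReal.ofReal (κ * δ ^ d) ≤ volume (tube δ a (x : E (d + 1))) :=
      (hV a x δ hx1 hδ hδ1.le).1
    have h2 : tube δ a (x : E (d + 1)) ⊆ ⋃ p ∈ T ×ˢ Z, tube δ (a + p.1 • e i + δ • p.2) (e i) := by
      intro y hy
      obtain ⟨p, hp, hpy⟩ := tube_cover' T hT Z hZ hδ hδ1.le a (he1 i) hxe y hy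
      exact Set.mem_biUnion hp hpy
    have h3 : ∫⁻ y in tube δ a (x : E (d + 1)), f y ≤ ENNReal.ofReal P * A i := by
      calc ∫⁻ y in tube δ a (x : E (d + 1)), f y
          ≤ ∫⁻ y in ⋃ p ∈ T ×ˢ Z, tube δ (a + p.1 • e i + δ • p.2) (e i), f y :=
            lintegral_mono_set h2
        _ ≤ ∑ p ∈ T ×ˢ Z, ∫⁻ y in tube δ (a + p.1 • e i + δ • p.2) (e i), f y := by
            rw [← lintegral_indicator (Finset.measurableSet_biUnion _ fun p _ =>
              measurableSet_tube _ _ _)]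
            simp only [← lintegral_indicator (measurableSet_tube _ _ _)]
            rw [← lintegral_finsetSum' _ fun p _ => hf.indicator (measurableSet_tube _ _ _)]
            refine lintegral_mono fun y => ?_
            by_cases hy : y ∈ ⋃ p ∈ T ×ˢ Z, tube δ (a + p.1 • e i + δ • p.2) (e i)
            · rw [Set.indicator_of_mem hy]
              obtain ⟨p, hp, hpy⟩ := Set.mem_iUnion₂.1 hy
              refine le_trans (le_of_eq ?_) (Finset.single_le_sum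
                (f := fun p : ℝ × E (d + 1) =>
                  (tube δ (a + p.1 • e i + δ • p.2) (e i)).indicator f y)
                (fun _ _ => zero_le) hp)
              rw [Set.indicator_of_mem hpy]
            · rw [Set.indicator_of_notMem hy]
              exact zero_le
        _ ≤ ∑ _p ∈ T ×ˢ Z, A i := by
            refine Finset.sum_le_sum fun p _ => ?_
            rw [hA]
            exact le_iSup (fun a => ∫⁻ y in tube δ a (e i), f y) _
        _ ≤ ENNReal.ofReal P * A i := by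
            rw [Finset.sum_const, nsmul_eq_mul]
            refine mul_le_mul_left ?_ _
            rw [← ENNReal.ofReal_natCast]
            refine ENNReal.ofReal_le_ofReal ?_
            rw [hP]
            linarith
    calc (volume (tube δ a (x : E (d + 1))))⁻¹ * ∫⁻ y in tube δ a (x : E (d + 1)), f y
        ≤ (ENNReal.ofReal (κ * δ ^ d))⁻¹ * (ENNReal.ofReal P * A i) :=
          mul_le_mul' (ENNReal.inv_le_inv.2 h1) h3
      _ = _ := by
          rw [← ENNReal.ofReal_inv_of_pos (by positivity), ← mul_assoc,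
            ← ENNReal.ofReal_mul (by positivity)]
          congr 2
          field_simp
  have hpt : ∀ x : sphere (0 : E (d + 1)) 1, kmaxF δ f x ^ (k : ℝ) ≤
      ∑ i : Y, (closedBall (i : sphere (0 : E (d + 1)) 1) δ).indicator
        (fun _ => (ENNReal.ofReal (P / (κ * δ ^ d)) * A i) ^ (k : ℝ)) x := by
    intro x
    obtain ⟨y, hy, hxy⟩ := hcovY x (Set.mem_univ x)
    refine le_trans ?_ (Finset.single_le_sum (f := fun i : Y =>
      (closedBall (i : sphere (0 : E (d + 1)) 1) δ).indicator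
        (fun _ => (ENNReal.ofReal (P / (κ * δ ^ d)) * A i) ^ (k : ℝ)) x)
      (fun _ _ => zero_le) (Finset.mem_univ ⟨y, hy⟩))
    have hmem : x ∈ closedBall (((⟨y, hy⟩ : Y) : sphere (0 : E (d + 1)) 1)) δ := hxy
    rw [Set.indicator_of_mem hmem]
    exact ENNReal.rpow_le_rpow (hcap ⟨y, hy⟩ x hxy) hk0.le
  calc ∫⁻ x : sphere (0 : E (d + 1)) 1, kmaxF δ f x ^ (k : ℝ) ∂(volume : Measure (E (d + 1))).toSphere
      ≤ ∫⁻ x : sphere (0 : E (d + 1)) 1, ∑ i : Y, (closedBall (i : sphere (0 : E (d + 1)) 1)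
          δ).indicator (fun _ => (ENNReal.ofReal (P / (κ * δ ^ d)) * A i) ^ (k : ℝ)) x
          ∂(volume : Measure (E (d + 1))).toSphere := lintegral_mono hpt
    _ = ∑ i : Y, (ENNReal.ofReal (P / (κ * δ ^ d)) * A i) ^ (k : ℝ) *
          (volume : Measure (E (d + 1))).toSphere (closedBall (i : sphere (0 : E (d + 1)) 1) δ) := by
        rw [lintegral_finsetSum _ fun i _ => measurable_const.indicator
          isClosed_closedBall.measurableSet]
        refine Finset.sum_congr rfl fun i _ => ?_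
        rw [lintegral_indicator_const isClosed_closedBall.measurableSet]
    _ ≤ ∑ i : Y, (ENNReal.ofReal (P / (κ * δ ^ d)) * A i) ^ (k : ℝ) *
          ENNReal.ofReal (C1 * δ ^ d) := by
        refine Finset.sum_le_sum fun i _ => mul_le_mul_right (hcu _ _ hδ hδ1.le) _
    _ = ENNReal.ofReal (C1 * δ ^ d) * (ENNReal.ofReal (P / (κ * δ ^ d)) ^ (k : ℝ) *
          ∑ i : Y, A i ^ (k : ℝ)) := by
        rw [Finset.mul_sum, Finset.mul_sum]
        refine Finset.sum_congr rfl fun i _ => ?_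
        rw [ENNReal.mul_rpow_of_nonneg _ _ hk0.le]
        ring
    _ ≤ ENNReal.ofReal (C1 * δ ^ d) * (ENNReal.ofReal (P / (κ * δ ^ d)) ^ (k : ℝ) *
          (ENNReal.ofReal (2 ^ (k : ℝ) * (D * δ ^ d) ^ ((k : ℝ) - 1)) *
            ∫⁻ y, f y ^ (k : ℝ))) := by
        gcongr
    _ = _ := by
        rw [ENNReal.ofReal_rpow_of_nonneg (by positivity) hk0.le, ← mul_assoc, ← mul_assoc,
          ← ENNReal.ofReal_mul (by positivity), ← ENNReal.ofReal_mul (by positivity)]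
        congr 2
        have hd0 : 0 < δ ^ d := by positivity
        rw [Real.mul_rpow hD.le hd0.le, Real.div_rpow hP0.le (by positivity),
          Real.mul_rpow hκ.le hd0.le, Real.div_rpow hP0.le hκ.le]
        have e1 : (δ ^ d) ^ (k : ℝ) = δ ^ d * (δ ^ d) ^ ((k : ℝ) - 1) := by
          rw [← Real.rpow_one_add' hd0.le (by linarith)]
          congr 1
          ring
        rw [e1]
        field_simp

end Pool.Agent.H565.PL
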