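import Pool.Agent.H565.PL.Geo
set_option autoImplicit false

/-!
# Rescaling the tubes of a cap
-/

namespace Pool.Agent.H565.PL
open MeasureTheory Finset Metric
open scoped ENNReal
open Pool.Agent.H565.MK

variable {n : ℕ}

/-- The sum of the weights of the tubes through `x` whose directions are within `r` of `V x`. -/
noncomputable def tsum {ι : Type} [Fintype ι] (δ r : ℝ) (a e : ι → E n) (c : ι → ℝ≥0∞)
    (V : E n → Submodule ℝ (E n)) (x : E n) : ℝ≥0∞ :=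
  ∑ i, {x | x ∈ tube δ (a i) (e i) ∧ infDist (e i) (V x) ≤ r}.indicator (fun _ => c i) x

theorem measurableSet_shading (δ r : ℝ) (a e : E n) (V : SimpleFunc (E n) (Submodule ℝ (E n))) :
    MeasurableSet {x | x ∈ tube δ a e ∧ infDist e (V x) ≤ r} :=
  (measurableSet_tube δ a e).inter (V.measurableSet_preimage {W | infDist e W ≤ r})

theorem measurable_tsum {ι : Type} [Fintype ι] (δ r : ℝ) (a e : ι → E n) (c : ι → ℝ≥0∞)
    (V : SimpleFunc (E n) (Submodule ℝ (E n))) : Measurable (tsum δ r a e c V) := by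
  unfold tsum
  refine Finset.measurable_sum _ fun i _ => ?_
  exact measurable_const.indicator (measurableSet_shading δ r (a i) (e i) V)

/-- The inequality for the shadings that are tangent to a field of subspaces. -/
def PT (n k : ℕ) (η : ℝ) (D : ℝ → ℝ) : Prop :=
  ∀ δ : ℝ, 0 < δ → δ ≤ 1 / 5 → ∀ (ι : Type) [Fintype ι] (a e : ι → E n), (∀ i, ‖e i‖ = 1) →
    (∀ i j, i ≠ j → δ ≤ ‖e i - e j‖) → ∀ c : ι → ℝ≥0∞, (∀ i, c i ≠ ∞) →
    ∀ V : SimpleFunc (E n) (Submodule ℝ (E n)), (∀ x, Module.finrank ℝ (V x) < k) →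
    ∫⁻ x, tsum δ (δ ^ η / 2) a e c V x ^ (1 + 1 / ((k : ℝ) - 1)) ≤
      ENNReal.ofReal (D δ) * ∑ i, c i ^ (1 + 1 / ((k : ℝ) - 1))

/-- The inequality for the tubes of a cap. -/
theorem cell_est (hn : 1 ≤ n) {k : ℕ} (hk : 2 ≤ k) (η : ℝ) (D : ℝ → ℝ) (hPT : PT n k η D) :
    ∃ (C : ℝ) (c₂ : ℝ), 0 ≤ C ∧ 0 < c₂ ∧ c₂ ≤ 1 ∧ ∀ (t δ r₀ : ℝ), 1 ≤ t → 0 < δ → t * δ ≤ 1 →
      t * r₀ ≤ (c₂ * (t * δ)) ^ η / 2 → ∀ u : E n, ‖u‖ = 1 → ∀ (ι : Type) [Fintype ι]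
      (a e : ι → E n), (∀ i, ‖e i‖ = 1) → (∀ i j, i ≠ j → δ ≤ ‖e i - e j‖) →
      (∀ i, ‖e i - u‖ * t ≤ √n) → ((∀ i, 1 / 2 ≤ inner ℝ u (e i)) ∨ t = 1) →
      ∀ c : ι → ℝ≥0∞, (∀ i, c i ≠ ∞) →
      ∀ V : SimpleFunc (E n) (Submodule ℝ (E n)), (∀ x, Module.finrank ℝ (V x) < k) →
      ∫⁻ x, tsum δ r₀ a e c V x ^ (1 + 1 / ((k : ℝ) - 1)) ≤
        ENNReal.ofReal C * (ENNReal.ofReal (t⁻¹ ^ (n - 1)) * (ENNReal.ofReal (D (c₂ * (t * δ))) *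
          ∑ i, c i ^ (1 + 1 / ((k : ℝ) - 1)))) := by
  classical
  have hk2 : (2 : ℝ) ≤ k := by exact_mod_cast hk
  have hk1 : (0 : ℝ) < (k : ℝ) - 1 := by linarith
  have hp0 : 0 < 1 / ((k : ℝ) - 1) := by positivity
  obtain ⟨q, hq⟩ : ∃ q : ℝ, q = 1 + 1 / ((k : ℝ) - 1) := ⟨_, rfl⟩
  have hq1 : 1 ≤ q := by linarith
  have hq0 : 0 ≤ q := by linarith
  unfold PT at hPT
  rw [← hq] at hPT ⊢
  have hn1 : (1 : ℝ) ≤ n := by exact_mod_cast hn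
  obtain ⟨Λ, hΛ⟩ : ∃ Λ : ℝ, Λ = (n : ℝ) + 1 := ⟨_, rfl⟩
  have hΛ2 : 2 ≤ Λ := by linarith
  have hΛq : 20 ≤ 2 * Λ + 4 * Λ ^ 2 := by nlinarith
  obtain ⟨c₂, hc₂⟩ : ∃ c₂ : ℝ, c₂ = 1 / (2 * (2 * Λ + 4 * Λ ^ 2)) := ⟨_, rfl⟩
  have hc₂0 : 0 < c₂ := by rw [hc₂]; positivity
  have hc₂5 : c₂ ≤ 1 / 5 := by
    rw [hc₂, div_le_div_iff₀ (by positivity) (by norm_num)]
    linarith
  obtain ⟨T, hT⟩ := net ℝ (Λ / 2) (1 / 4) (by norm_num)
  obtain ⟨Z, hZ⟩ := net (E n) (1 / c₂) 1 one_pos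
  obtain ⟨C₀, hC₀⟩ : ∃ C₀ : ℝ≥0∞, C₀ = (ENNReal.ofReal ((n.factorial : ℝ) * 6 ^ n) /
      volume (closedBall (0 : E n) (1 / 2))) := ⟨_, rfl⟩
  have hC₀t : C₀ ≠ ∞ := by
    rw [hC₀]
    exact ENNReal.div_ne_top ENNReal.ofReal_ne_top (measure_closedBall_pos volume _
      (by norm_num)).ne'
  obtain ⟨C₁, hC₁⟩ : ∃ C₁ : ℝ≥0∞, C₁ = C₀ * ((((T ×ˢ Z).card : ℕ) : ℝ≥0∞) ^ (q - 1) *
      (((T ×ˢ Z).card : ℕ) : ℝ≥0∞)) := ⟨_, rfl⟩
  have hC₁t : C₁ ≠ ∞ := by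
    rw [hC₁]
    exact ENNReal.mul_ne_top hC₀t (ENNReal.mul_ne_top (ENNReal.rpow_ne_top_of_nonneg
      (by linarith) (ENNReal.natCast_ne_top _)) (ENNReal.natCast_ne_top _))
  refine ⟨C₁.toReal, c₂, ENNReal.toReal_nonneg, hc₂0, by linarith, ?_⟩
  rw [ENNReal.ofReal_toReal hC₁t]
  intro t δ r₀ ht hδ htδ hr₀ u hu ι _ a e he hsep hcap hcos c hc V hV
  have ht0 : 0 < t := by linarith
  obtain ⟨r, hr⟩ : ∃ r : ℝ, r = c₂ * (t * δ) := ⟨_, rfl⟩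
  have hr0 : 0 < r := by rw [hr]; positivity
  have hr5 : r ≤ 1 / 5 := by
    rw [hr]
    calc c₂ * (t * δ) ≤ 1 / 5 * 1 := by gcongr
      _ = 1 / 5 := by norm_num
  rw [← hr] at hr₀ ⊢
  have hlΛ : ∀ i, ‖str u t (e i)‖ ≤ Λ := fun i => by
    rw [hΛ]
    exact norm_str_dir hu (he i) ht (hcap i)
  obtain ⟨e', he'⟩ : ∃ e' : ι → E n, ∀ i, e' i = ‖str u t (e i)‖⁻¹ • str u t (e i) :=
    ⟨_, fun _ => rfl⟩
  have hl1 : ∀ i, 1 ≤ ‖str u t (e i)‖ := fun i => by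
    have := le_norm_str hu ht (e i)
    rwa [he i] at this
  have he'1 : ∀ i, ‖e' i‖ = 1 := fun i => by
    rw [he', norm_smul, norm_inv, norm_norm, inv_mul_cancel₀ (by linarith [hl1 i])]
  have hsep' : ∀ i j, i ≠ j → r ≤ ‖e' i - e' j‖ := by
    intro i j hij
    have h2 := hsep i j hij
    rcases hcos with hcos | rfl
    swap
    · rw [he', he', str_one, str_one, he, he, inv_one, one_smul, one_smul, hr, one_mul]
      refine le_trans ?_ h2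
      nlinarith
    have h1 := str_sep hu (he i) (he j) ht (hcos i) (hcos j) (hlΛ i) (hlΛ j)
    rw [← he', ← he'] at h1
    rw [hr, hc₂, one_div, inv_mul_le_iff₀ (by positivity)]
    calc t * δ ≤ t * ‖e i - e j‖ := by gcongr
      _ = ‖e i - e j‖ * t := mul_comm _ _
      _ ≤ _ := h1
  have hcont : Continuous (str u t⁻¹) := LinearMap.continuous_of_finiteDimensional _
  obtain ⟨V', hV'⟩ : ∃ V' : SimpleFunc (E n) (Submodule ℝ (E n)), ∀ y,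
      V' y = (V (str u t⁻¹ y)).map (str u t) :=
    ⟨(V.comp (str u t⁻¹) hcont.measurable).map (fun W => W.map (str u t)), fun y => rfl⟩
  have hV'k : ∀ y, Module.finrank ℝ (V' y) < k := fun y => by
    rw [hV']
    exact (Submodule.finrank_map_le _ _).trans_lt (hV _)
  obtain ⟨b, hb⟩ : ∃ b : ℝ × E n → ι → E n, ∀ p i, b p i = str u t (a i) + p.1 • e' i + r • p.2 :=
    ⟨_, fun _ _ => rfl⟩
  have hpt : ∀ x, tsum δ r₀ a e c V x ≤
      ∑ p ∈ T ×ˢ Z, tsum r (r ^ η / 2) (b p) e' c V' (str u t x) := by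
    intro x
    unfold tsum
    rw [Finset.sum_comm]
    refine Finset.sum_le_sum fun i _ => ?_
    by_cases hx : x ∈ {x | x ∈ tube δ (a i) (e i) ∧ infDist (e i) (V x) ≤ r₀}
    · rw [Set.indicator_of_mem hx]
      obtain ⟨hx1, hx2⟩ := hx
      obtain ⟨p, hp, hpx⟩ := str_cover hu (he i) ht hr0 (by linarith)
        (R := 1 / c₂) (by rw [hr]; field_simp; rfl) (hlΛ i) T hT Z hZ (a i) x hx1
      rw [← he', ← hb] at hpx
      refine le_trans ?_ (Finset.single_le_sum (f := fun p : ℝ × E n =>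
        {x | x ∈ tube r (b p i) (e' i) ∧ infDist (e' i) (V' x) ≤ r ^ η / 2}.indicator
          (fun _ => c i) (str u t x)) (fun _ _ => zero_le) hp)
      refine le_of_eq ?_
      rw [Set.indicator_of_mem]
      refine ⟨hpx, ?_⟩
      have h3 := infDist_str hu (he i) ht (V x)
      rw [← he'] at h3
      rw [hV', str_str hu, inv_mul_cancel₀ ht0.ne', str_one]
      refine h3.trans (le_trans ?_ hr₀)
      gcongr
    · rw [Set.indicator_of_notMem hx]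
      exact zero_le
  have hHm : ∀ p, Measurable (tsum r (r ^ η / 2) (b p) e' c V') := fun p =>
    measurable_tsum _ _ _ _ _ _
  have hPTp : ∀ p, ∫⁻ x, tsum r (r ^ η / 2) (b p) e' c V' x ^ q ≤
      ENNReal.ofReal (D r) * ∑ i, c i ^ q := fun p =>
    hPT r hr0 hr5 ι (b p) e' he'1 hsep' c hc V' hV'k
  calc ∫⁻ x, tsum δ r₀ a e c V x ^ q
      ≤ ∫⁻ x, (∑ p ∈ T ×ˢ Z, tsum r (r ^ η / 2) (b p) e' c V' (str u t x)) ^ q :=
        lintegral_mono fun x => ENNReal.rpow_le_rpow (hpt x) hq0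
    _ ≤ C₀ * ENNReal.ofReal (t⁻¹ ^ (n - 1)) *
        ∫⁻ y, (∑ p ∈ T ×ˢ Z, tsum r (r ^ η / 2) (b p) e' c V' y) ^ q := by
        have h5 := lintegral_str hn hu ht
          (fun y => (∑ p ∈ T ×ˢ Z, tsum r (r ^ η / 2) (b p) e' c V' y) ^ q)
          ((Finset.measurable_sum _ fun p _ => hHm p).pow_const _)
        rw [← hC₀] at h5
        exact h5
    _ ≤ C₀ * ENNReal.ofReal (t⁻¹ ^ (n - 1)) *
        ∫⁻ y, (((T ×ˢ Z).card : ℕ) : ℝ≥0∞) ^ (q - 1) *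
          ∑ p ∈ T ×ˢ Z, tsum r (r ^ η / 2) (b p) e' c V' y ^ q := by
        refine mul_le_mul_right (lintegral_mono fun y => ?_) _
        exact ENNReal.rpow_sum_le_const_mul_sum_rpow _ _ hq1
    _ = C₀ * ENNReal.ofReal (t⁻¹ ^ (n - 1)) *
        ((((T ×ˢ Z).card : ℕ) : ℝ≥0∞) ^ (q - 1) *
          ∑ p ∈ T ×ˢ Z, ∫⁻ y, tsum r (r ^ η / 2) (b p) e' c V' y ^ q) := by
        rw [lintegral_const_mul _ (Finset.measurable_sum _ fun p _ => (hHm p).pow_const _),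
          lintegral_finsetSum _ fun p _ => (hHm p).pow_const _]
    _ ≤ C₀ * ENNReal.ofReal (t⁻¹ ^ (n - 1)) *
        ((((T ×ˢ Z).card : ℕ) : ℝ≥0∞) ^ (q - 1) *
          ∑ _p ∈ T ×ˢ Z, ENNReal.ofReal (D r) * ∑ i, c i ^ q) := by
        gcongr with p _
        exact hPTp p
    _ = C₁ * (ENNReal.ofReal (t⁻¹ ^ (n - 1)) * (ENNReal.ofReal (D r) * ∑ i, c i ^ q)) := by
        rw [Finset.sum_const, nsmul_eq_mul, hC₁]
        ring

end Pool.Agent.H565.PL
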