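import Pool.Agent.H565.PL.Max
import Pool.Agent.H565.MK.Fam2
set_option autoImplicit false

/-!
# The maximal inequality at the points with spread bushes
-/

namespace Pool.Agent.H565.PL
open MeasureTheory Finset Metric
open scoped ENNReal
open Pool.Agent.H565.MK

variable {n : ℕ}

/-- The weighted inequality on a set with spread bushes. -/
theorem spread_weights {k : ℕ} (hk : 2 ≤ k) (hkn : k ≤ n) (α β A B : ℝ) (hα : 0 ≤ α)
    (hβ : 0 ≤ β) (hA : 0 ≤ A) (hB : 1 ≤ B) :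
    ∃ C : ℝ, 1 ≤ C ∧ ∀ δ : ℝ, 0 < δ → δ < 1 →
      ∀ (ι : Type) [Fintype ι] (a e : ι → E n), (∀ i, ‖e i‖ = 1) →
      DimLe α A δ e → ∀ G : Set (E n), SpreadOn G k β B δ a e → ∀ c : ι → ℝ≥0∞, (∀ i, c i ≠ ∞) →
      ∫⁻ x in G, (∑ i ∈ thr δ a e x, c i) ^ (1 + 1 / ((k : ℝ) - 1)) ≤
        ENNReal.ofReal (C * Real.exp (C * √(Real.log (1 / δ))) *
          (1 / δ) ^ (max (max (α / ((k : ℝ) - 1) - 1) (β / ((k : ℝ) - 1))) 0) * δ ^ (n - 1)) *
          ∑ i, c i ^ (1 + 1 / ((k : ℝ) - 1)) := by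
  classical
  have hn1 : 1 ≤ n := by omega
  have hk2 : (2 : ℝ) ≤ k := by exact_mod_cast hk
  have hk1 : (0 : ℝ) < (k : ℝ) - 1 := by linarith
  have hp1 : 0 < 1 / ((k : ℝ) - 1) := by positivity
  have hsn : 1 ≤ √(n : ℝ) := by
    rw [Real.one_le_sqrt]
    exact_mod_cast hn1
  have hsnβ : 1 ≤ √(n : ℝ) ^ β := Real.one_le_rpow hsn hβ
  have hB' : 1 ≤ B * √(n : ℝ) ^ β := by nlinarith
  obtain ⟨C₁, hC₁, hC⟩ := core2G (n := n) hk hkn α β A (B * √(n : ℝ) ^ β) hα hβ hA hB'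
  obtain ⟨C₂, hC₂, hbest⟩ := best_K C₁ hC₁
  refine ⟨C₂, hC₂, ?_⟩
  intro δ hδ hδ1 ι _ a e he hdim G hsp c hc
  obtain ⟨K, hK, hKL⟩ := hbest δ hδ hδ1.le
  have hK1r : (1 : ℝ) ≤ K := hC₁.trans hK
  have hK1 : 1 ≤ K := by exact_mod_cast hK1r
  have hK0 : (0 : ℝ) < K := by linarith
  -- the good sets of tubes
  obtain ⟨Good, hGood⟩ : ∃ Good : Finset ι → Prop, ∀ S, Good S ↔ ∀ m : ℕ,
      δ ≤ 1 / (K : ℝ) ^ (m + 1) → ∀ (τ : Fin n → ℤ) (V : Submodule ℝ (E n)),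
      Module.finrank ℝ V < k → ∃ Z : Finset (E n),
      (Z.card : ℝ) ≤ (B * √(n : ℝ) ^ β) * (K : ℝ) ^ β ∧
      ∀ i ∈ S, cell K e m i = τ → infDist (e i) V ≤ 1 / (K : ℝ) ^ (m + 1) →
        ∃ z ∈ Z, ‖e i - z‖ ≤ 1 / (K : ℝ) ^ (m + 1) := ⟨_, fun _ => Iff.rfl⟩
  obtain ⟨Fl, hFl⟩ : ∃ Fl : Finset ι → ℝ≥0∞, ∀ S, Fl S = if Good S then 0 else ∞ :=
    ⟨_, fun _ => rfl⟩
  have h := hC K hK δ hδ hδ1.le ι a e he hdim G c hc Fl (by
    intro S m hm τ V hV s P hs hP _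
    by_cases hS : Good S
    · left
      obtain ⟨Z, hZ, hZ2⟩ := (hGood S).1 hS m hm τ V hV
      refine ⟨Z, hZ, fun i hi => ?_⟩
      have h1 := (hP i).1 hi
      have h2 := (hs i).1 h1.1
      exact hZ2 i h2.1 h2.2 h1.2
    · right
      rw [hFl, if_neg hS]
      exact le_top)
  have hgood : ∀ x ∈ G, Good (thr δ a e x) := by
    intro x hx
    rw [hGood]
    intro m hm τ V hV
    by_cases hne : ∃ i₀, i₀ ∈ thr δ a e x ∧ cell K e m i₀ = τ ∧
        infDist (e i₀) V ≤ 1 / (K : ℝ) ^ (m + 1)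
    · obtain ⟨i₀, hi₀, hi₀τ, -⟩ := hne
      have hle : 1 / (K : ℝ) ^ (m + 1) ≤ √n * (1 / (K : ℝ) ^ m) := by
        have h1 : 1 / (K : ℝ) ^ (m + 1) ≤ 1 / (K : ℝ) ^ m := by
          apply one_div_le_one_div_of_le (by positivity)
          exact pow_le_pow_right₀ hK1r (by omega)
        have h2 : 0 < 1 / (K : ℝ) ^ m := by positivity
        nlinarith
      obtain ⟨Z, hZ, hZ2⟩ := hsp x hx (e i₀) V hV (1 / (K : ℝ) ^ (m + 1))
        (√n * (1 / (K : ℝ) ^ m)) hm hle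
      refine ⟨Z, hZ.trans (le_of_eq ?_), fun i hi hiτ hiV => hZ2 i ⟨?_, ?_, hiV⟩⟩
      · have e1 : √n * (1 / (K : ℝ) ^ m) / (1 / (K : ℝ) ^ (m + 1)) = √n * K := by
          rw [pow_succ]
          field_simp
        rw [e1, Real.mul_rpow (by positivity) hK0.le]
        ring
      · rwa [mem_thr] at hi
      · exact cell_dist hK1 e m i i₀ (hiτ.trans hi₀τ.symm)
    · exact ⟨∅, by simp; positivity, fun i hi hiτ hiV => absurd ⟨i, hi, hiτ, hiV⟩ hne⟩
  have hzero : ∫⁻ x in G, (∑ i ∈ thr δ a e x, c i) * Fl (thr δ a e x) ^ (1 / ((k : ℝ) - 1)) = 0 := by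
    have hm : Measurable fun x => (∑ i ∈ thr δ a e x, c i) *
        Fl (thr δ a e x) ^ (1 / ((k : ℝ) - 1)) :=
      measurable_thr δ a e (fun S => (∑ i ∈ S, c i) * Fl S ^ (1 / ((k : ℝ) - 1)))
    rw [lintegral_eq_zero_iff hm, Filter.EventuallyEq, ae_iff]
    have hms : MeasurableSet {x : E n | ¬ (∑ i ∈ thr δ a e x, c i) *
        Fl (thr δ a e x) ^ (1 / ((k : ℝ) - 1)) = (0 : E n → ℝ≥0∞) x} :=
      (hm (measurableSet_singleton 0)).compl
    rw [Measure.restrict_apply hms]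
    have : {x : E n | ¬ (∑ i ∈ thr δ a e x, c i) *
        Fl (thr δ a e x) ^ (1 / ((k : ℝ) - 1)) = (0 : E n → ℝ≥0∞) x} ∩ G = ∅ := by
      ext x
      simp only [Set.mem_inter_iff, Set.mem_ofPred_eq, Set.mem_empty_iff_false, iff_false, not_and,
        Pi.zero_apply]
      intro h1 h2
      apply h1
      rw [hFl, if_pos (hgood x h2), ENNReal.zero_rpow_of_pos hp1, mul_zero]
    rw [this, measure_empty]
  rw [hzero, add_zero] at h
  refine h.trans ?_
  rw [← mul_assoc, ← ENNReal.ofReal_mul (by positivity)]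
  refine mul_le_mul_left (ENNReal.ofReal_le_ofReal ?_) _
  refine mul_le_mul_of_nonneg_right ?_ (by positivity)
  exact mul_le_mul_of_nonneg_right hKL (by positivity)

/-- Duality for fixed tubes and a fixed set. -/
theorem dual_fix {k : ℕ} (hk : 2 ≤ k) {δ D : ℝ} (hD : 0 ≤ D) (hn : 1 ≤ n) (hδ : 0 < δ)
    (hδ1 : δ ≤ 1) (ι : Type) [Fintype ι] (a e : ι → E n) (he : ∀ i, ‖e i‖ = 1) (G : Set (E n))
    (h : ∀ (c : ι → ℝ≥0∞), (∀ i, c i ≠ ∞) →
      ∫⁻ x in G, (∑ i ∈ thr δ a e x, c i) ^ (1 + 1 / ((k : ℝ) - 1)) ≤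
        ENNReal.ofReal D * ∑ i, c i ^ (1 + 1 / ((k : ℝ) - 1)))
    (f : E n → ℝ≥0∞) (hf : AEMeasurable f) (hft : ∫⁻ y, f y ^ (k : ℝ) ≠ ∞) :
    ∑ i, (∫⁻ y in tube δ (a i) (e i) ∩ G, f y) ^ (k : ℝ) ≤
      ENNReal.ofReal (D ^ ((k : ℝ) - 1)) * ∫⁻ y, f y ^ (k : ℝ) := by
  classical
  have hk2 : (2 : ℝ) ≤ k := by exact_mod_cast hk
  have hk1 : (0 : ℝ) < (k : ℝ) - 1 := by linarith
  have hk0 : (0 : ℝ) < k := by linarith
  have hk11 : (1 : ℝ) < k := by linarith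
  have hp0 : 0 < 1 / ((k : ℝ) - 1) := by positivity
  obtain ⟨q, hq⟩ : ∃ q : ℝ, q = 1 + 1 / ((k : ℝ) - 1) := ⟨_, rfl⟩
  rw [← hq] at h
  have hq1 : 1 < q := by linarith
  have hq0 : 0 < q := by linarith
  have hkq : ((k : ℝ) - 1) * q = k := by rw [hq]; field_simp; ring
  have hqk : 1 / q = 1 - 1 / k := by rw [hq]; field_simp; ring
  have h1p : 0 ≤ 1 - 1 / (k : ℝ) := by rw [← hqk]; positivity
  have hconj : Real.HolderConjugate k q := by
    rw [Real.holderConjugate_iff]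
    refine ⟨hk11, ?_⟩
    rw [← one_div, ← one_div, hqk]
    ring
  obtain ⟨Φ, hΦ⟩ : ∃ Φ : ℝ≥0∞, Φ = ∫⁻ y, f y ^ (k : ℝ) := ⟨_, rfl⟩
  rw [← hΦ] at hft ⊢
  obtain ⟨I, hI⟩ : ∃ I : ι → ℝ≥0∞, ∀ i, I i = ∫⁻ y in tube δ (a i) (e i) ∩ G, f y :=
    ⟨_, fun _ => rfl⟩
  simp only [← hI]
  have hIt : ∀ i, I i ≠ ∞ := fun i => by
    have h1 : I i ≤ Φ ^ (1 / (k : ℝ)) *
        ENNReal.ofReal ((n.factorial : ℝ) * 6 ^ n * δ ^ (n - 1)) ^ (1 - 1 / (k : ℝ)) := by
      rw [hI]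
      refine (holder_set volume _ _ hk11).trans ?_
      gcongr
      · rw [hΦ]
        exact setLIntegral_le_lintegral _ _
      · exact (measure_mono Set.inter_subset_left).trans
          (volume_tube hn hδ hδ1 (a i) (e i) (he i))
    refine ne_top_of_le_ne_top (ENNReal.mul_ne_top (ENNReal.rpow_ne_top_of_nonneg (by positivity)
      hft) (ENNReal.rpow_ne_top_of_nonneg h1p ENNReal.ofReal_ne_top)) h1
  obtain ⟨c, hc⟩ : ∃ c : ι → ℝ≥0∞, ∀ i, c i = I i ^ ((k : ℝ) - 1) := ⟨_, fun _ => rfl⟩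
  have hct : ∀ i, c i ≠ ∞ := fun i => by
    rw [hc]
    exact ENNReal.rpow_ne_top_of_nonneg hk1.le (hIt i)
  have hcq : ∀ i, c i ^ q = I i ^ (k : ℝ) := fun i => by
    rw [hc, ← ENNReal.rpow_mul, hkq]
  obtain ⟨S, hS⟩ : ∃ S : ℝ≥0∞, S = ∑ i, I i ^ (k : ℝ) := ⟨_, rfl⟩
  rw [← hS]
  have hSt : S ≠ ∞ := by
    rw [hS]
    exact ENNReal.sum_ne_top.2 fun i _ => ENNReal.rpow_ne_top_of_nonneg hk0.le (hIt i)
  have hthr : ∀ x, ∑ i ∈ thr δ a e x, c i =
      ∑ i, c i * (tube δ (a i) (e i)).indicator (fun _ => (1 : ℝ≥0∞)) x := by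
    intro x
    have h1 := sum_thr δ a e c x (fun _ => True)
    rw [Finset.filter_true, Finset.filter_true] at h1
    exact h1
  have hmeas : Measurable fun x => ∑ i ∈ thr δ a e x, c i := by
    simp only [hthr]
    exact Finset.measurable_sum _ fun i _ => (measurable_const.indicator
      (measurableSet_tube _ _ _)).const_mul _
  have hfG : AEMeasurable f (volume.restrict G) := hf.restrict
  have hSle : S ≤ Φ ^ (1 / (k : ℝ)) * (ENNReal.ofReal D * S) ^ (1 - 1 / (k : ℝ)) := by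
    calc S = ∑ i, c i * I i := by
          rw [hS]
          refine Finset.sum_congr rfl fun i _ => ?_
          rw [hc]
          nth_rewrite 3 [← ENNReal.rpow_one (I i)]
          rw [← ENNReal.rpow_add_of_nonneg _ _ hk1.le zero_le_one]
          congr 1
          ring
      _ = ∫⁻ x in G, f x * ∑ i ∈ thr δ a e x, c i := by
          have e1 : ∀ x, f x * ∑ i ∈ thr δ a e x, c i =
              ∑ i, c i * (tube δ (a i) (e i)).indicator f x := by
            intro x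
            rw [hthr, Finset.mul_sum]
            refine Finset.sum_congr rfl fun i _ => ?_
            by_cases hx : x ∈ tube δ (a i) (e i)
            · rw [Set.indicator_of_mem hx, Set.indicator_of_mem hx]
              ring
            · rw [Set.indicator_of_notMem hx, Set.indicator_of_notMem hx]
              ring
          rw [lintegral_congr e1, lintegral_finsetSum' _ fun i _ =>
            (hfG.indicator (measurableSet_tube _ _ _)).const_mul _]
          refine Finset.sum_congr rfl fun i _ => ?_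
          rw [lintegral_const_mul'' _ (hfG.indicator (measurableSet_tube _ _ _)),
            lintegral_indicator (measurableSet_tube _ _ _), hI,
            Measure.restrict_restrict (measurableSet_tube _ _ _)]
      _ ≤ (∫⁻ x in G, f x ^ (k : ℝ)) ^ (1 / (k : ℝ)) *
          (∫⁻ x in G, (∑ i ∈ thr δ a e x, c i) ^ q) ^ (1 / q) :=
          ENNReal.lintegral_mul_le_Lp_mul_Lq _ hconj hfG hmeas.aemeasurable
      _ ≤ _ := by
          rw [hqk]
          refine mul_le_mul' (ENNReal.rpow_le_rpow ?_ (by positivity))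
            (ENNReal.rpow_le_rpow ?_ h1p)
          · rw [hΦ]
            exact setLIntegral_le_lintegral _ _
          · refine (h c hct).trans (le_of_eq ?_)
            rw [hS]
            simp only [hcq]
  obtain ⟨s, hs0, hs⟩ : ∃ s : ℝ, 0 ≤ s ∧ S = ENNReal.ofReal s :=
    ⟨S.toReal, ENNReal.toReal_nonneg, (ENNReal.ofReal_toReal hSt).symm⟩
  obtain ⟨φ, hφ0, hφ⟩ : ∃ φ : ℝ, 0 ≤ φ ∧ Φ = ENNReal.ofReal φ :=
    ⟨Φ.toReal, ENNReal.toReal_nonneg, (ENNReal.ofReal_toReal hft).symm⟩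
  have hsφ : s ≤ D ^ ((k : ℝ) - 1) * φ := by
    rw [hs, hφ, ← ENNReal.ofReal_mul hD, ENNReal.ofReal_rpow_of_nonneg hφ0 (by positivity),
      ENNReal.ofReal_rpow_of_nonneg (by positivity) h1p, ← ENNReal.ofReal_mul (by positivity),
      ENNReal.ofReal_le_ofReal_iff (by positivity)] at hSle
    rcases hs0.eq_or_lt with h0 | h0
    · rw [← h0]
      positivity
    rw [Real.mul_rpow hD hs0] at hSle
    have e1 : s = s ^ (1 / (k : ℝ)) * s ^ (1 - 1 / (k : ℝ)) := by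
      rw [← Real.rpow_add h0]
      simp
    have h1 : s ^ (1 / (k : ℝ)) ≤ φ ^ (1 / (k : ℝ)) * D ^ (1 - 1 / (k : ℝ)) := by
      have h2 : 0 < s ^ (1 - 1 / (k : ℝ)) := by positivity
      rw [← mul_le_mul_iff_left₀ h2]
      calc s ^ (1 / (k : ℝ)) * s ^ (1 - 1 / (k : ℝ)) = s := e1.symm
        _ ≤ _ := hSle
        _ = _ := by ring
    calc s = (s ^ (1 / (k : ℝ))) ^ (k : ℝ) := by
          rw [← Real.rpow_mul hs0, one_div, inv_mul_cancel₀ hk0.ne', Real.rpow_one]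
      _ ≤ (φ ^ (1 / (k : ℝ)) * D ^ (1 - 1 / (k : ℝ))) ^ (k : ℝ) := by gcongr
      _ = D ^ ((k : ℝ) - 1) * φ := by
          rw [Real.mul_rpow (by positivity) (by positivity), ← Real.rpow_mul hφ0,
            ← Real.rpow_mul hD, one_div, inv_mul_cancel₀ hk0.ne', Real.rpow_one, mul_comm]
          congr 2
          field_simp
  rw [hs, hφ, ← ENNReal.ofReal_mul (by positivity)]
  exact ENNReal.ofReal_le_ofReal hsφ

/-- At the point `x` the directions of the tubes with centres `a e` (one for each unit vector `e`)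
are at most `β`-dimensional along the subspaces of dimension less than `k`. -/
def SpreadPt (k : ℕ) (β B δ : ℝ) (a : E n → E n) (x : E n) : Prop :=
  ∀ (y : E n) (V : Submodule ℝ (E n)), Module.finrank ℝ V < k → ∀ r ρ : ℝ, δ ≤ r → r ≤ ρ →
    ∃ Z : Finset (E n), (Z.card : ℝ) ≤ B * (ρ / r) ^ β ∧
      ∀ e : E n, ‖e‖ = 1 → x ∈ tube δ (a e) e → ‖e - y‖ ≤ ρ → infDist e V ≤ r →
        ∃ z ∈ Z, ‖e - z‖ ≤ r

/-- **The maximal inequality at the points with spread bushes.** -/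
theorem spread_max {k : ℕ} (hk : 2 ≤ k) (hkn : k ≤ n) (β B : ℝ) (hβ : 0 ≤ β) (hB : 1 ≤ B) :
    ∃ C : ℝ, 0 < C ∧ ∀ δ : ℝ, 0 < δ → δ < 1 → ∀ (a : E n → E n) (G : Set (E n)),
      (∀ x ∈ G, SpreadPt k β B δ a x) → ∀ f : E n → ℝ≥0∞, AEMeasurable f →
      ∫⁻ e : sphere (0 : E n) 1, ((volume (tube δ (a e) (e : E n)))⁻¹ *
          ∫⁻ y in tube δ (a e) (e : E n) ∩ G, f y) ^ (k : ℝ)
          ∂(volume : Measure (E n)).toSphere ≤
        ENNReal.ofReal (C * Real.exp (C * √(Real.log (1 / δ))) *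
          (1 / δ) ^ (max ((n : ℝ) - k) β)) * ∫⁻ y, f y ^ (k : ℝ) := by
  classical
  obtain ⟨d, rfl⟩ : ∃ d, n = d + 1 := ⟨n - 1, by omega⟩
  have hk2 : (2 : ℝ) ≤ k := by exact_mod_cast hk
  have hk1 : (0 : ℝ) < (k : ℝ) - 1 := by linarith
  have hk0 : (0 : ℝ) < k := by linarith
  have hk11 : (1 : ℝ) < k := by linarith
  have hknr : (k : ℝ) ≤ ((d + 1 : ℕ) : ℝ) := by exact_mod_cast hkn
  have h1p : 0 ≤ 1 - 1 / (k : ℝ) := by
    rw [sub_nonneg, div_le_one hk0]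
    exact hk11.le
  obtain ⟨κ, hκ, hV⟩ := Pool.Agent.W131.HM.VOL d
  obtain ⟨C1, hC1, hcu⟩ := Pool.Agent.W131.HM.CAP d
  obtain ⟨A₀, hA₀, hcount⟩ := count_dirs (n := d + 1) (by omega)
  obtain ⟨C, hC, hsw⟩ := spread_weights (n := d + 1) hk hkn (((d + 1 : ℕ) : ℝ) - 1) β
    (A₀ * 3 ^ (((d + 1 : ℕ) : ℝ) - 1)) B (by push_cast; simp) hβ (by positivity) hB
  have hlam : max (max ((((d + 1 : ℕ) : ℝ) - 1) / ((k : ℝ) - 1) - 1) (β / ((k : ℝ) - 1))) 0 =
      max (((d + 1 : ℕ) : ℝ) - k) β / ((k : ℝ) - 1) := by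
    have e2 : (((d + 1 : ℕ) : ℝ) - 1) / ((k : ℝ) - 1) - 1 =
        (((d + 1 : ℕ) : ℝ) - k) / ((k : ℝ) - 1) := by
      field_simp
      ring
    rw [e2, max_eq_left, ← max_div_div_right hk1.le]
    exact (div_nonneg hβ hk1.le).trans (le_max_right _ _)
  rw [hlam] at hsw
  obtain ⟨C₃, hC₃⟩ : ∃ C₃ : ℝ, C₃ = C1 * (2 / κ) ^ (k : ℝ) * C ^ ((k : ℝ) - 1) := ⟨_, rfl⟩
  have hC₃0 : 0 < C₃ := by rw [hC₃]; positivity
  refine ⟨C₃ + C * ((k : ℝ) - 1), by positivity, ?_⟩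
  intro δ hδ hδ1 a G hG f hf
  rcases eq_or_ne (∫⁻ y, f y ^ (k : ℝ)) ∞ with hft | hft
  · rw [hft, ENNReal.mul_top]
    · exact le_top
    · rw [Ne, ENNReal.ofReal_eq_zero, not_le]
      positivity
  obtain ⟨Φ, hΦ⟩ : ∃ Φ : ℝ≥0∞, Φ = ∫⁻ y, f y ^ (k : ℝ) := ⟨_, rfl⟩
  obtain ⟨A, hA⟩ : ∃ A : sphere (0 : E (d + 1)) 1 → ℝ≥0∞, ∀ e, A e =
    ∫⁻ y in tube δ (a e) (e : E (d + 1)) ∩ G, f y := ⟨_, fun _ => rfl⟩
  have hAle : ∀ e, A e ≤ Φ ^ (1 / (k : ℝ)) *
      ENNReal.ofReal (((d + 1).factorial : ℝ) * 6 ^ (d + 1) * δ ^ (d + 1 - 1)) ^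
        (1 - 1 / (k : ℝ)) := by
    intro e
    rw [hA]
    refine (holder_set volume _ _ hk11).trans ?_
    gcongr
    · rw [hΦ]
      exact setLIntegral_le_lintegral _ _
    · exact (measure_mono Set.inter_subset_left).trans
        (volume_tube (by omega) hδ hδ1.le (a e) e (by simp))
  have hbd : Φ ^ (1 / (k : ℝ)) *
      ENNReal.ofReal (((d + 1).factorial : ℝ) * 6 ^ (d + 1) * δ ^ (d + 1 - 1)) ^
        (1 - 1 / (k : ℝ)) ≠ ∞ := by
    rw [← hΦ] at hft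
    exact ENNReal.mul_ne_top (ENNReal.rpow_ne_top_of_nonneg (by positivity) hft)
      (ENNReal.rpow_ne_top_of_nonneg h1p ENNReal.ofReal_ne_top)
  obtain ⟨Y, -, hsepY, hcovY⟩ := max_sep (Set.univ : Set (sphere (0 : E (d + 1)) 1))
    isCompact_univ.totallyBounded hδ
  -- the best directions in the caps
  have hbest : ∀ i : Y, ∃ u : sphere (0 : E (d + 1)) 1, dist u i ≤ δ ∧
      ∀ x : sphere (0 : E (d + 1)) 1, dist x i ≤ δ → A x ≤ 2 * A u := by
    intro i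
    obtain ⟨s, hs⟩ : ∃ s : ℝ≥0∞, s = ⨆ (x : sphere (0 : E (d + 1)) 1) (_ : dist x i ≤ δ), A x :=
      ⟨_, rfl⟩
    have hst : s ≠ ∞ := by
      refine ne_top_of_le_ne_top hbd ?_
      rw [hs]
      exact iSup₂_le fun x _ => hAle x
    have hle : ∀ x : sphere (0 : E (d + 1)) 1, dist x i ≤ δ → A x ≤ s := fun x hx => by
      rw [hs]
      exact le_iSup₂ (f := fun (x : sphere (0 : E (d + 1)) 1) (_ : dist x i ≤ δ) => A x) x hx
    rcases eq_or_ne s 0 with h0 | h0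
    · refine ⟨i, by rw [dist_self]; exact hδ.le, fun x hx => ?_⟩
      have := hle x hx
      rw [h0] at this
      exact this.trans zero_le
    · have h1 : s / 2 < ⨆ (x : sphere (0 : E (d + 1)) 1) (_ : dist x i ≤ δ), A x := by
        rw [← hs]
        exact ENNReal.half_lt_self h0 hst
      obtain ⟨u, hu⟩ := lt_iSup_iff.1 h1
      obtain ⟨hu1, hu2⟩ := lt_iSup_iff.1 hu
      refine ⟨u, hu1, fun x hx => (hle x hx).trans ?_⟩
      rw [mul_comm]
      exact (ENNReal.div_le_iff two_ne_zero ENNReal.ofNat_ne_top).1 hu2.le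
  choose u hu1 hu2 using hbest
  obtain ⟨e, he⟩ : ∃ e : Y → E (d + 1), ∀ i, e i = ((u i : sphere (0 : E (d + 1)) 1) : E (d + 1)) :=
    ⟨_, fun _ => rfl⟩
  have he1 : ∀ i, ‖e i‖ = 1 := fun i => by rw [he]; simp
  have hdim : DimLe (((d + 1 : ℕ) : ℝ) - 1) (A₀ * 3 ^ (((d + 1 : ℕ) : ℝ) - 1)) δ e := by
    intro i ρ hρ
    have h1 := hcount δ hδ hδ1 Y (fun i => ((i : sphere (0 : E (d + 1)) 1) : E (d + 1)))
      (fun i => by simp) (fun i j hij => by
        have h1 := hsepY i i.2 j j.2 (fun h => hij (Subtype.ext h))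
        rwa [Subtype.dist_eq, dist_eq_norm] at h1) i (3 * ρ) (by linarith)
    have haux : ∀ j : Y, ‖e j - e i‖ ≤ ρ →
        ‖((j : sphere (0 : E (d + 1)) 1) : E (d + 1)) - ((i : sphere (0 : E (d + 1)) 1) :
          E (d + 1))‖ ≤ 3 * ρ := by
      intro j h3
      have h4 := hu1 j
      have h5 := hu1 i
      rw [Subtype.dist_eq, dist_eq_norm] at h4 h5
      rw [he, he] at h3
      have e1 : ((j : sphere (0 : E (d + 1)) 1) : E (d + 1)) -
          ((i : sphere (0 : E (d + 1)) 1) : E (d + 1)) =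
          -(((u j : sphere (0 : E (d + 1)) 1) : E (d + 1)) -
            ((j : sphere (0 : E (d + 1)) 1) : E (d + 1))) +
          (((u j : sphere (0 : E (d + 1)) 1) : E (d + 1)) - (u i : sphere (0 : E (d + 1)) 1)) +
          (((u i : sphere (0 : E (d + 1)) 1) : E (d + 1)) -
            ((i : sphere (0 : E (d + 1)) 1) : E (d + 1))) := by abel
      rw [e1]
      refine (norm_add_le _ _).trans ((add_le_add (norm_add_le _ _) le_rfl).trans ?_)
      rw [norm_neg]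
      linarith
    have h2 : Nat.card {j : Y // ‖e j - e i‖ ≤ ρ} ≤ Nat.card {j : Y //
        ‖((j : sphere (0 : E (d + 1)) 1) : E (d + 1)) - ((i : sphere (0 : E (d + 1)) 1) :
          E (d + 1))‖ ≤ 3 * ρ} := by
      refine Nat.card_le_card_of_injective (fun j => ⟨j.1, haux j.1 j.2⟩) ?_
      intro j j' hjj
      exact Subtype.ext (Subtype.mk.inj hjj)
    have h3 : (Nat.card {j : Y // ‖e j - e i‖ ≤ ρ} : ℝ) ≤ A₀ * (3 * ρ / δ) ^
        (((d + 1 : ℕ) : ℝ) - 1) := le_trans (by exact_mod_cast h2) h1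
    refine h3.trans (le_of_eq ?_)
    have hρ0 : 0 < ρ := by linarith
    rw [mul_div_assoc, Real.mul_rpow (by norm_num) (by positivity)]
    ring
  have hspr : SpreadOn G k β B δ (fun i => a (e i)) e := by
    intro x hx y V hV r ρ hr hrρ
    obtain ⟨Z, hZ, hZ2⟩ := hG x hx y V hV r ρ hr hrρ
    exact ⟨Z, hZ, fun i hi => hZ2 (e i) (he1 i) hi.1 hi.2.1 hi.2.2⟩
  obtain ⟨D, hD⟩ : ∃ D : ℝ, D = C * Real.exp (C * √(Real.log (1 / δ))) *
    (1 / δ) ^ (max (((d + 1 : ℕ) : ℝ) - k) β / ((k : ℝ) - 1)) := ⟨_, rfl⟩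
  have hD0 : 0 < D := by rw [hD]; positivity
  have hdual := dual_fix hk (D := D * δ ^ (d + 1 - 1)) (by positivity) (by omega) hδ hδ1.le Y
    (fun i => a (e i)) e he1 G (fun c hc => by
      have h1 := hsw δ hδ hδ1 Y (fun i => a (e i)) e he1 hdim G hspr c hc
      rw [← hD] at h1
      exact h1) f hf hft
  rw [Nat.add_sub_cancel, ← hΦ] at hdual
  have hAe : ∀ i, A (u i) = ∫⁻ y in tube δ (a (e i)) (e i) ∩ G, f y := fun i => by rw [hA, he]
  simp only [← hAe] at hdual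
  -- the integral over the sphere
  have hvol : ∀ x : sphere (0 : E (d + 1)) 1, (volume (tube δ (a x) (x : E (d + 1))))⁻¹ ≤
      ENNReal.ofReal (1 / (κ * δ ^ d)) := by
    intro x
    have h1 : ENNReal.ofReal (κ * δ ^ d) ≤ volume (tube δ (a x) (x : E (d + 1))) :=
      (hV (a x) x δ (by simp) hδ hδ1.le).1
    refine (ENNReal.inv_le_inv.2 h1).trans (le_of_eq ?_)
    rw [← ENNReal.ofReal_inv_of_pos (by positivity), one_div]
  have hpt : ∀ x : sphere (0 : E (d + 1)) 1, ((volume (tube δ (a x) (x : E (d + 1))))⁻¹ *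
      ∫⁻ y in tube δ (a x) (x : E (d + 1)) ∩ G, f y) ^ (k : ℝ) ≤
      ∑ i : Y, (closedBall (i : sphere (0 : E (d + 1)) 1) δ).indicator
        (fun _ => (ENNReal.ofReal (2 / (κ * δ ^ d)) * A (u i)) ^ (k : ℝ)) x := by
    intro x
    obtain ⟨y, hy, hxy⟩ := hcovY x (Set.mem_univ x)
    refine le_trans ?_ (Finset.single_le_sum (f := fun i : Y =>
      (closedBall (i : sphere (0 : E (d + 1)) 1) δ).indicator
        (fun _ => (ENNReal.ofReal (2 / (κ * δ ^ d)) * A (u i)) ^ (k : ℝ)) x)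
      (fun _ _ => zero_le) (Finset.mem_univ ⟨y, hy⟩))
    have hmem : x ∈ closedBall (((⟨y, hy⟩ : Y) : sphere (0 : E (d + 1)) 1)) δ := hxy
    rw [Set.indicator_of_mem hmem, ← hA]
    refine ENNReal.rpow_le_rpow ?_ hk0.le
    calc (volume (tube δ (a x) (x : E (d + 1))))⁻¹ * A x
        ≤ ENNReal.ofReal (1 / (κ * δ ^ d)) * (2 * A (u ⟨y, hy⟩)) :=
          mul_le_mul' (hvol x) (hu2 ⟨y, hy⟩ x hxy)
      _ = _ := by
          have e2 : ENNReal.ofReal (2 / (κ * δ ^ d)) =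
              2 * ENNReal.ofReal (1 / (κ * δ ^ d)) := by
            have e3 : 2 / (κ * δ ^ d) = 2 * (1 / (κ * δ ^ d)) := by ring
            rw [e3, ENNReal.ofReal_mul (by norm_num : (0 : ℝ) ≤ 2), ENNReal.ofReal_ofNat]
          rw [e2]
          ring
  rw [← hΦ]
  calc ∫⁻ x : sphere (0 : E (d + 1)) 1, ((volume (tube δ (a x) (x : E (d + 1))))⁻¹ *
        ∫⁻ y in tube δ (a x) (x : E (d + 1)) ∩ G, f y) ^ (k : ℝ)
        ∂(volume : Measure (E (d + 1))).toSphere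
      ≤ ∫⁻ x : sphere (0 : E (d + 1)) 1, ∑ i : Y, (closedBall (i : sphere (0 : E (d + 1)) 1)
          δ).indicator (fun _ => (ENNReal.ofReal (2 / (κ * δ ^ d)) * A (u i)) ^ (k : ℝ)) x
          ∂(volume : Measure (E (d + 1))).toSphere := lintegral_mono hpt
    _ = ∑ i : Y, (ENNReal.ofReal (2 / (κ * δ ^ d)) * A (u i)) ^ (k : ℝ) *
          (volume : Measure (E (d + 1))).toSphere (closedBall (i : sphere (0 : E (d + 1)) 1) δ) := by
        rw [lintegral_finsetSum _ fun i _ => measurable_const.indicator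
          isClosed_closedBall.measurableSet]
        refine Finset.sum_congr rfl fun i _ => ?_
        rw [lintegral_indicator_const isClosed_closedBall.measurableSet]
    _ ≤ ∑ i : Y, (ENNReal.ofReal (2 / (κ * δ ^ d)) * A (u i)) ^ (k : ℝ) *
          ENNReal.ofReal (C1 * δ ^ d) := by
        refine Finset.sum_le_sum fun i _ => mul_le_mul_right (hcu _ _ hδ hδ1.le) _
    _ = ENNReal.ofReal (C1 * δ ^ d) * (ENNReal.ofReal (2 / (κ * δ ^ d)) ^ (k : ℝ) *
          ∑ i : Y, A (u i) ^ (k : ℝ)) := by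
        rw [Finset.mul_sum, Finset.mul_sum]
        refine Finset.sum_congr rfl fun i _ => ?_
        rw [ENNReal.mul_rpow_of_nonneg _ _ hk0.le]
        ring
    _ ≤ ENNReal.ofReal (C1 * δ ^ d) * (ENNReal.ofReal (2 / (κ * δ ^ d)) ^ (k : ℝ) *
          (ENNReal.ofReal ((D * δ ^ d) ^ ((k : ℝ) - 1)) * Φ)) := by
        gcongr
    _ = ENNReal.ofReal (C1 * (2 / κ) ^ (k : ℝ) * D ^ ((k : ℝ) - 1)) * Φ := by
        rw [ENNReal.ofReal_rpow_of_nonneg (by positivity) hk0.le, ← mul_assoc, ← mul_assoc,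
          ← ENNReal.ofReal_mul (by positivity), ← ENNReal.ofReal_mul (by positivity)]
        congr 2
        have hd0 : 0 < δ ^ d := by positivity
        rw [Real.mul_rpow hD0.le hd0.le, Real.div_rpow (by norm_num) (by positivity),
          Real.mul_rpow hκ.le hd0.le, Real.div_rpow (by norm_num) hκ.le]
        have e1 : (δ ^ d) ^ (k : ℝ) = δ ^ d * (δ ^ d) ^ ((k : ℝ) - 1) := by
          rw [← Real.rpow_one_add' hd0.le (by linarith)]
          congr 1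
          ring
        rw [e1]
        field_simp
    _ ≤ _ := by
        refine mul_le_mul_left (ENNReal.ofReal_le_ofReal ?_) _
        have hCexp : 0 < C * Real.exp (C * √(Real.log (1 / δ))) := by positivity
        rw [hD, Real.mul_rpow hCexp.le (by positivity), ← Real.rpow_mul (by positivity),
          div_mul_cancel₀ _ hk1.ne', Real.mul_rpow (by positivity) (Real.exp_pos _).le,
          ← Real.exp_mul]
        have e1 : C * √(Real.log (1 / δ)) * ((k : ℝ) - 1) =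
            (C * ((k : ℝ) - 1)) * √(Real.log (1 / δ)) := by ring
        rw [e1]
        have hs0 := Real.sqrt_nonneg (Real.log (1 / δ))
        have hCk : 0 ≤ C * ((k : ℝ) - 1) := by positivity
        calc C1 * (2 / κ) ^ (k : ℝ) * (C ^ ((k : ℝ) - 1) *
              Real.exp ((C * ((k : ℝ) - 1)) * √(Real.log (1 / δ))) *
              (1 / δ) ^ (max (((d + 1 : ℕ) : ℝ) - k) β))
            = C₃ * Real.exp ((C * ((k : ℝ) - 1)) * √(Real.log (1 / δ))) *
              (1 / δ) ^ (max (((d + 1 : ℕ) : ℝ) - k) β) := by rw [hC₃]; ring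
          _ ≤ (C₃ + C * ((k : ℝ) - 1)) *
              Real.exp ((C₃ + C * ((k : ℝ) - 1)) * √(Real.log (1 / δ))) *
              (1 / δ) ^ (max (((d + 1 : ℕ) : ℝ) - k) β) := by
              gcongr
              · linarith
              · linarith

end Pool.Agent.H565.PL
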