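import Pool.Agent.H565.PL.Resc
import Pool.Agent.H565.MK.Fam
set_option autoImplicit false

/-!
# From the tangential inequality to the full inequality
-/

namespace Pool.Agent.H565.PL
open MeasureTheory Finset Metric
open scoped ENNReal
open Pool.Agent.H565.MK

variable {n : ℕ}

/-- A function of the set of the tubes through `x` is simple. -/
noncomputable def sf {ι β : Type} [Fintype ι] (δ : ℝ) (a e : ι → E n) (Φ : Finset ι → β) :
    SimpleFunc (E n) β where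
  toFun x := Φ (thr δ a e x)
  measurableSet_fiber' y := by
    classical
    have h := measurable_thr δ a e (fun S => if Φ S = y then (1 : ℝ≥0∞) else 0)
    have h2 := h (measurableSet_singleton (1 : ℝ≥0∞))
    refine (MeasurableSet.congr h2 ?_)
    ext x
    simp only [Set.mem_preimage, Set.mem_singleton_iff]
    constructor
    · intro h3
      by_contra h4
      rw [if_neg h4] at h3
      exact zero_ne_one h3
    · intro h3
      rw [if_pos h3]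
  finite_range' := (Set.finite_range Φ).subset (by
    rintro _ ⟨x, rfl⟩
    exact ⟨_, rfl⟩)

theorem sf_apply {ι β : Type} [Fintype ι] (δ : ℝ) (a e : ι → E n) (Φ : Finset ι → β) (x : E n) :
    sf δ a e Φ x = Φ (thr δ a e x) := rfl

theorem sum_filter_tsum {ι : Type} [Fintype ι] (p : ι → Prop) [Fintype {i // p i}] (δ r : ℝ)
    (a e : ι → E n) (c : ι → ℝ≥0∞) (V : E n → Submodule ℝ (E n)) (x : E n)
    [DecidablePred fun i => p i ∧ infDist (e i) (V x) ≤ r] :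
    ∑ i ∈ (thr δ a e x).filter (fun i => p i ∧ infDist (e i) (V x) ≤ r), c i =
      tsum δ r (fun i : {i // p i} => a i) (fun i => e i) (fun i => c i) V x := by
  classical
  unfold tsum
  rw [← Finset.sum_subtype (univ.filter p) (fun i => by simp)
    (fun i => {x | x ∈ tube δ (a i) (e i) ∧ infDist (e i) (V x) ≤ r}.indicator (fun _ => c i) x)]
  simp only [Set.indicator_apply, Set.mem_ofPred_eq]
  rw [← Finset.sum_filter]
  refine Finset.sum_congr ?_ fun _ _ => rfl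
  ext i
  simp only [Finset.mem_filter, mem_thr, Finset.mem_univ, true_and]
  tauto

/-- The best subspace. -/
theorem best_V {ι : Type} [Fintype ι] {k : ℕ} (hk : 0 < k) (P : Submodule ℝ (E n) → Finset ι)
    (g : Finset ι → ℝ≥0∞) : ∃ V : Submodule ℝ (E n), Module.finrank ℝ V < k ∧
      ∀ W : Submodule ℝ (E n), Module.finrank ℝ W < k → g (P W) ≤ g (P V) := by
  classical
  have hne : (univ.filter (fun Q : Finset ι => ∃ V : Submodule ℝ (E n), Module.finrank ℝ V < k ∧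
      Q = P V)).Nonempty :=
    ⟨P ⊥, Finset.mem_filter.2 ⟨Finset.mem_univ _, ⊥, by rw [finrank_bot]; exact hk, rfl⟩⟩
  obtain ⟨Q, hQ, hmax⟩ := Finset.exists_max_image _ g hne
  obtain ⟨V, hV, rfl⟩ := (Finset.mem_filter.1 hQ).2
  exact ⟨V, hV, fun W hW => hmax _ (Finset.mem_filter.2 ⟨Finset.mem_univ _, W, hW, rfl⟩)⟩

/-- The full inequality for one value of `K`. -/
theorem full_K {k : ℕ} (hk : 2 ≤ k) (hkn : k ≤ n) : ∃ C₁ : ℝ, 1 ≤ C₁ ∧ ∀ (η : ℝ) (D : ℝ → ℝ),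
    PT n k η D → 0 ≤ η → ∃ (C₂ c₂ : ℝ), 0 ≤ C₂ ∧ 0 < c₂ ∧ c₂ ≤ 1 ∧
      ∀ (δ : ℝ), 0 < δ → δ < 1 → ∀ (K : ℕ), C₁ ≤ K → 2 * (c₂ * δ) ^ (-η) ≤ K →
      ∀ (ι : Type) [Fintype ι] (a e : ι → E n), (∀ i, ‖e i‖ = 1) →
      (∀ i j, i ≠ j → δ ≤ ‖e i - e j‖) → ∀ c : ι → ℝ≥0∞, (∀ i, c i ≠ ∞) →
      ∀ M : ℕ, (K : ℝ) ^ M ≤ 1 / δ → 1 / δ < (K : ℝ) ^ (M + 1) →
      ∫⁻ x, (∑ i ∈ thr δ a e x, c i) ^ (1 + 1 / ((k : ℝ) - 1)) ≤
        ENNReal.ofReal ((K : ℝ) ^ C₁ * C₁ ^ (Real.log (1 / δ) / Real.log K)) *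
          ((ENNReal.ofReal ((1 / δ) ^ (((n : ℝ) - k) / ((k : ℝ) - 1)) * δ ^ (n - 1)) +
            ∑ m ∈ range M, ENNReal.ofReal (C₂ * (((K : ℝ) ^ m)⁻¹ ^ (n - 1))) *
              ENNReal.ofReal (D (c₂ * ((K : ℝ) ^ m * δ)))) *
              ∑ i, c i ^ (1 + 1 / ((k : ℝ) - 1))) := by
  classical
  have hn1 : 1 ≤ n := by omega
  have hk2 : (2 : ℝ) ≤ k := by exact_mod_cast hk
  have hk1 : (0 : ℝ) < (k : ℝ) - 1 := by linarith
  have hknr : (k : ℝ) ≤ n := by exact_mod_cast hkn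
  have hp0 : 0 < 1 / ((k : ℝ) - 1) := by positivity
  have hn1r : (1 : ℝ) ≤ n := by exact_mod_cast hn1
  obtain ⟨A, hA, hcount⟩ := count_dirs (n := n) hn1
  obtain ⟨C₀, hC₀1, hcore⟩ := core3 (n := n) hk hkn ((n : ℝ) - 1) A (by linarith) (by linarith)
  have hlam : max (((n : ℝ) - 1) / ((k : ℝ) - 1) - 1) 0 = ((n : ℝ) - k) / ((k : ℝ) - 1) := by
    have e2 : ((n : ℝ) - 1) / ((k : ℝ) - 1) - 1 = ((n : ℝ) - k) / ((k : ℝ) - 1) := by
      field_simp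
      ring
    rw [e2, max_eq_left]
    exact div_nonneg (by linarith) hk1.le
  rw [hlam] at hcore
  refine ⟨C₀ + (√n + 1), by have := Real.sqrt_nonneg (n : ℝ); linarith, ?_⟩
  intro η D hPT hη
  obtain ⟨C, c₂, hC, hc₂0, hc₂1, hcell⟩ := cell_est hn1 hk η D hPT
  refine ⟨2 ^ (1 + 1 / ((k : ℝ) - 1)) * C, c₂, by positivity, hc₂0, hc₂1, ?_⟩
  intro δ hδ hδ1 K hK₁ hKη ι _ a e he hsep c hc M hM1 hM2
  have hsn : 1 ≤ √(n : ℝ) := by rwa [Real.one_le_sqrt]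
  have hKC₀ : C₀ ≤ K := by linarith
  have hKn : √(n : ℝ) ≤ K := by linarith
  have hK1r : (1 : ℝ) ≤ K := by linarith
  have hK2r : (1 : ℝ) < K := by linarith
  have hK1 : 1 ≤ K := by exact_mod_cast hK1r
  have hK0 : (0 : ℝ) < K := by linarith
  -- the best subspaces
  have hbest := fun (m : ℕ) (τ : Fin n → ℤ) (S : Finset ι) => best_V (n := n) (k := k) (by omega)
    (fun V => S.filter (fun i => cell K e m i = τ ∧ infDist (e i) V ≤ 1 / (K : ℝ) ^ (m + 1)))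
    (fun Q => ∑ i ∈ Q, c i)
  choose V hVk hVmax using hbest
  have hq0 : 0 ≤ 1 + 1 / ((k : ℝ) - 1) := by positivity
  have h := hcore K hKC₀ δ hδ hδ1.le ι a e he (hcount δ hδ hδ1 ι e he hsep) c hc
    (fun m τ S => (2 * ∑ i ∈ S.filter (fun i => cell K e m i = τ ∧
      infDist (e i) (V m τ S) ≤ 1 / (K : ℝ) ^ (m + 1)), c i) ^ (1 + 1 / ((k : ℝ) - 1))) M hM1 hM2
    (by
      intro S m hm τ W hW s P hs hP hsum
      refine ENNReal.rpow_le_rpow (hsum.trans (mul_le_mul_right ?_ _)) hq0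
      have hPe : P = S.filter (fun i => cell K e m i = τ ∧
          infDist (e i) W ≤ 1 / (K : ℝ) ^ (m + 1)) := by
        ext i
        rw [hP, hs, Finset.mem_filter, and_assoc]
      rw [hPe]
      exact hVmax m τ S W hW)
  -- one class
  have hone : ∀ m, m < M → ∀ τ ∈ univ.image (cell K e m),
      ∫⁻ x, (2 * ∑ i ∈ (thr δ a e x).filter (fun i => cell K e m i = τ ∧
        infDist (e i) (V m τ (thr δ a e x)) ≤ 1 / (K : ℝ) ^ (m + 1)), c i) ^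
          (1 + 1 / ((k : ℝ) - 1)) ≤
      (ENNReal.ofReal (2 ^ (1 + 1 / ((k : ℝ) - 1)) * C * (((K : ℝ) ^ m)⁻¹ ^ (n - 1))) *
        ENNReal.ofReal (D (c₂ * ((K : ℝ) ^ m * δ)))) *
        ∑ i ∈ univ.filter (fun i => cell K e m i = τ), c i ^ (1 + 1 / ((k : ℝ) - 1)) := by
    intro m hm τ hτ
    obtain ⟨i₀, -, hi₀⟩ := Finset.mem_image.1 hτ
    have hKm1 : 1 ≤ (K : ℝ) ^ m := one_le_pow₀ hK1r
    have hKm0 : 0 < (K : ℝ) ^ m := by positivity
    have hKmδ : (K : ℝ) ^ m * δ ≤ 1 := by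
      have h1 : (K : ℝ) ^ m ≤ (K : ℝ) ^ M := pow_le_pow_right₀ hK1r hm.le
      calc (K : ℝ) ^ m * δ ≤ 1 / δ * δ := by gcongr; exact h1.trans hM1
        _ = 1 := by field_simp
    have hr₀ : (K : ℝ) ^ m * (1 / (K : ℝ) ^ (m + 1)) ≤ (c₂ * ((K : ℝ) ^ m * δ)) ^ η / 2 := by
      have e1 : (K : ℝ) ^ m * (1 / (K : ℝ) ^ (m + 1)) = 1 / K := by
        rw [pow_succ]
        field_simp
      have h1 : (c₂ * δ) ^ η ≤ (c₂ * ((K : ℝ) ^ m * δ)) ^ η := by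
        apply Real.rpow_le_rpow (by positivity) _ hη
        calc c₂ * δ = c₂ * (1 * δ) := by ring
          _ ≤ _ := by gcongr
      have h2 : 1 / (K : ℝ) ≤ (c₂ * δ) ^ η / 2 := by
        have h3 : 0 < (c₂ * δ) ^ η := by positivity
        rw [Real.rpow_neg (by positivity), ← div_eq_mul_inv, div_le_iff₀ h3] at hKη
        rw [div_le_div_iff₀ hK0 (by norm_num)]
        linarith
      rw [e1]
      linarith
    have hdist : ∀ i : {i // cell K e m i = τ}, ‖e i - e i₀‖ ≤ √n * (1 / (K : ℝ) ^ m) := by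
      rintro ⟨i, hi⟩
      exact cell_dist hK1 e m i i₀ (hi.trans hi₀.symm)
    have hce := hcell ((K : ℝ) ^ m) δ (1 / (K : ℝ) ^ (m + 1)) hKm1 hδ hKmδ hr₀ (e i₀) (he i₀)
      {i // cell K e m i = τ} (fun i => a i) (fun i => e i) (fun i => he i)
      (fun i j hij => hsep i j (fun h => hij (Subtype.ext h)))
      (by
        intro i
        have h1 := hdist i
        rw [mul_one_div, le_div_iff₀ hKm0] at h1
        exact h1)
      (by
        rcases Nat.eq_zero_or_pos m with h0 | h0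
        · right
          rw [h0, pow_zero]
        · left
          intro i
          have h1 := hdist i
          have h2 : √n * (1 / (K : ℝ) ^ m) ≤ 1 := by
            rw [mul_one_div, div_le_one hKm0]
            refine hKn.trans ?_
            calc (K : ℝ) = (K : ℝ) ^ 1 := (pow_one _).symm
              _ ≤ (K : ℝ) ^ m := pow_le_pow_right₀ hK1r h0
          have h3 : ‖e (i : ι) - e i₀‖ ^ 2 = 2 - 2 * inner ℝ (e i₀) (e (i : ι)) := by
            rw [norm_sub_sq_real, he, he, real_inner_comm]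
            ring
          have h4 : ‖e (i : ι) - e i₀‖ ^ 2 ≤ 1 := by
            have h5 := norm_nonneg (e (i : ι) - e i₀)
            nlinarith
          linarith)
      (fun i => c i) (fun i => hc i) (sf δ a e (V m τ)) (fun x => by
        rw [sf_apply]
        exact hVk m τ _)
    have e1 : ∀ x, (2 * ∑ i ∈ (thr δ a e x).filter (fun i => cell K e m i = τ ∧
        infDist (e i) (V m τ (thr δ a e x)) ≤ 1 / (K : ℝ) ^ (m + 1)), c i) ^
          (1 + 1 / ((k : ℝ) - 1)) = 2 ^ (1 + 1 / ((k : ℝ) - 1)) *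
        tsum δ (1 / (K : ℝ) ^ (m + 1)) (fun i : {i // cell K e m i = τ} => a i) (fun i => e i)
          (fun i => c i) (sf δ a e (V m τ)) x ^ (1 + 1 / ((k : ℝ) - 1)) := by
      intro x
      rw [← ENNReal.mul_rpow_of_nonneg _ _ hq0,
        ← sum_filter_tsum (fun i => cell K e m i = τ) δ (1 / (K : ℝ) ^ (m + 1)) a e c
          (sf δ a e (V m τ)) x]
      rfl
    rw [lintegral_congr e1, lintegral_const_mul _ ((measurable_tsum _ _ _ _ _ _).pow_const _)]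
    refine (mul_le_mul_right hce _).trans (le_of_eq ?_)
    rw [← Finset.sum_subtype (univ.filter (fun i => cell K e m i = τ)) (fun i => by simp)
      (fun i => c i ^ (1 + 1 / ((k : ℝ) - 1))),
      ENNReal.ofReal_mul (p := 2 ^ (1 + 1 / ((k : ℝ) - 1)) * C) (by positivity),
      ENNReal.ofReal_mul (p := 2 ^ (1 + 1 / ((k : ℝ) - 1))) (by positivity),
      ← ENNReal.ofReal_rpow_of_nonneg (by norm_num) hq0, ENNReal.ofReal_ofNat]
    ring
  -- all the classes of one level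
  have hlevel : ∀ m ∈ range M, ∑ τ ∈ univ.image (cell K e m),
      ∫⁻ x, (2 * ∑ i ∈ (thr δ a e x).filter (fun i => cell K e m i = τ ∧
        infDist (e i) (V m τ (thr δ a e x)) ≤ 1 / (K : ℝ) ^ (m + 1)), c i) ^
          (1 + 1 / ((k : ℝ) - 1)) ≤
      (ENNReal.ofReal (2 ^ (1 + 1 / ((k : ℝ) - 1)) * C * (((K : ℝ) ^ m)⁻¹ ^ (n - 1))) *
        ENNReal.ofReal (D (c₂ * ((K : ℝ) ^ m * δ)))) *
        ∑ i, c i ^ (1 + 1 / ((k : ℝ) - 1)) := by
    intro m hm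
    refine (Finset.sum_le_sum fun τ hτ => hone m (Finset.mem_range.1 hm) τ hτ).trans ?_
    rw [← Finset.mul_sum, Finset.sum_fiberwise_of_maps_to
      (fun i hi => Finset.mem_image_of_mem (cell K e m) hi)]
  refine h.trans ?_
  have hX0 : 0 ≤ Real.log (1 / δ) / Real.log K := by
    refine div_nonneg (Real.log_nonneg ?_) (Real.log_nonneg hK1r)
    rw [le_div_iff₀ hδ]
    linarith
  refine mul_le_mul' (ENNReal.ofReal_le_ofReal ?_) ?_
  · refine mul_le_mul ?_ ?_ (by positivity) (by positivity)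
    · exact Real.rpow_le_rpow_of_exponent_le hK1r (by linarith)
    · exact Real.rpow_le_rpow (by linarith) (by linarith) hX0
  · rw [add_mul, Finset.sum_mul]
    exact add_le_add le_rfl (Finset.sum_le_sum hlevel)

/-- **The tangential inequality implies the full inequality.** -/
theorem full_of_PT {k : ℕ} (hk : 2 ≤ k) (hkn : k ≤ n) : ∃ C₁ : ℝ, 1 ≤ C₁ ∧
    ∀ b η C : ℝ, ((n : ℝ) - k) / ((k : ℝ) - 1) ≤ b → 0 < η → 0 ≤ C →
    PT n k η (fun δ => C * (1 / δ) ^ b * δ ^ (n - 1)) →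
    ∃ C' : ℝ, 0 ≤ C' ∧ ∀ δ : ℝ, 0 < δ → δ < 1 →
      ∀ (ι : Type) [Fintype ι] (a e : ι → E n), (∀ i, ‖e i‖ = 1) →
      (∀ i j, i ≠ j → δ ≤ ‖e i - e j‖) → ∀ c : ι → ℝ≥0∞, (∀ i, c i ≠ ∞) →
      ∫⁻ x, (∑ i ∈ thr δ a e x, c i) ^ (1 + 1 / ((k : ℝ) - 1)) ≤
        ENNReal.ofReal (C' * (1 / δ) ^ (b + C₁ * η) * δ ^ (n - 1)) *
          ∑ i, c i ^ (1 + 1 / ((k : ℝ) - 1)) := by
  have hk2 : (2 : ℝ) ≤ k := by exact_mod_cast hk
  have hk1 : (0 : ℝ) < (k : ℝ) - 1 := by linarith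
  have hknr : (k : ℝ) ≤ n := by exact_mod_cast hkn
  obtain ⟨C₁, hC₁, hfull⟩ := full_K (n := n) hk hkn
  refine ⟨C₁, hC₁, ?_⟩
  intro b η C hb hη0 hC hPT
  have hb0 : 0 ≤ b := (div_nonneg (by linarith) hk1.le).trans hb
  have hC₁0 : 0 < C₁ := by linarith
  obtain ⟨C₂, c₂, hC₂, hc₂0, hc₂1, hK⟩ := hfull η _ hPT hη0.le
  obtain ⟨K₀, hK₀⟩ : ∃ K₀ : ℕ, K₀ = ⌈C₁⌉₊ + 2 := ⟨_, rfl⟩
  obtain ⟨C₃, hC₃⟩ : ∃ C₃ : ℝ, C₃ = C₂ * C * (1 / c₂) ^ b := ⟨_, rfl⟩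
  have hC₃0 : 0 ≤ C₃ := by rw [hC₃]; positivity
  obtain ⟨C₄, hC₄⟩ : ∃ C₄ : ℝ, C₄ = 2 * (1 / c₂) ^ η + 1 + K₀ := ⟨_, rfl⟩
  have hC₄0 : 0 ≤ C₄ := by rw [hC₄]; positivity
  refine ⟨C₄ ^ C₁ * (2 * C₁) ^ (1 / η) * (1 + C₃), by positivity, ?_⟩
  intro δ hδ hδ1 ι _ a e he hsep c hc
  obtain ⟨v, hv⟩ : ∃ v, v = 1 / δ := ⟨_, rfl⟩
  have hv1 : 1 ≤ v := by rw [hv, le_div_iff₀ hδ]; linarith
  have hv0 : 0 < v := by linarith
  have hδv : δ = 1 / v := by rw [hv]; field_simp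
  have hlv : 0 ≤ Real.log v := Real.log_nonneg hv1
  obtain ⟨K, hKd⟩ : ∃ K : ℕ, K = ⌈2 * (c₂ * δ) ^ (-η)⌉₊ + K₀ := ⟨_, rfl⟩
  have hK₀r : (⌈C₁⌉₊ : ℝ) + 2 = K₀ := by
    rw [hK₀]; push_cast; ring
  have h01 := Nat.le_ceil C₁
  have h04 : (0 : ℝ) ≤ ⌈C₁⌉₊ := Nat.cast_nonneg _
  have hKr : (K : ℝ) = ⌈2 * (c₂ * δ) ^ (-η)⌉₊ + K₀ := by rw [hKd]; push_cast; ring
  have h05 := Nat.le_ceil (2 * (c₂ * δ) ^ (-η))
  have h06 : (0 : ℝ) ≤ ⌈2 * (c₂ * δ) ^ (-η)⌉₊ := Nat.cast_nonneg _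
  have hKC₁ : C₁ ≤ K := by linarith
  have hKη : 2 * (c₂ * δ) ^ (-η) ≤ K := by
    have : (0 : ℝ) ≤ K₀ := Nat.cast_nonneg _
    linarith
  have hK2 : (2 : ℝ) ≤ K := by linarith
  have hK1 : (1 : ℝ) < K := by linarith
  have hK0 : (0 : ℝ) < K := by linarith
  have hlK : 0 < Real.log K := Real.log_pos hK1
  have hvη : 1 ≤ v ^ η := Real.one_le_rpow hv1 hη0.le
  have hcδ : (c₂ * δ) ^ (-η) = (1 / c₂) ^ η * v ^ η := by
    rw [hδv, Real.rpow_neg (by positivity), ← Real.inv_rpow (by positivity),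
      ← Real.mul_rpow (by positivity) hv0.le]
    congr 1
    field_simp
  have hKv : (K : ℝ) ≤ C₄ * v ^ η := by
    have h7 : (⌈2 * (c₂ * δ) ^ (-η)⌉₊ : ℝ) < 2 * (c₂ * δ) ^ (-η) + 1 :=
      Nat.ceil_lt_add_one (by positivity)
    rw [hKr]
    rw [hcδ] at h7
    have h8 : (0 : ℝ) ≤ K₀ := Nat.cast_nonneg _
    rw [hcδ, hC₄]
    nlinarith
  have hvK : v ^ η ≤ K := by
    refine le_trans ?_ hKη
    rw [hcδ]
    have h7 : 1 ≤ (1 / c₂) ^ η := by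
      refine Real.one_le_rpow ?_ hη0.le
      rw [le_div_iff₀ hc₂0]
      linarith
    nlinarith
  obtain ⟨X, hX⟩ : ∃ X, X = Real.log v / Real.log K := ⟨_, rfl⟩
  have hX0 : 0 ≤ X := by rw [hX]; positivity
  have hXη : X ≤ 1 / η := by
    have h7 := Real.log_le_log (by positivity) hvK
    rw [Real.log_rpow hv0] at h7
    rw [hX, div_le_div_iff₀ hlK hη0]
    linarith
  have h2C : (2 * C₁) ^ X ≤ (2 * C₁) ^ (1 / η) :=
    Real.rpow_le_rpow_of_exponent_le (by linarith) hXη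
  have hKC : (K : ℝ) ^ C₁ ≤ C₄ ^ C₁ * v ^ (C₁ * η) := by
    calc (K : ℝ) ^ C₁ ≤ (C₄ * v ^ η) ^ C₁ := Real.rpow_le_rpow hK0.le hKv hC₁0.le
      _ = C₄ ^ C₁ * v ^ (C₁ * η) := by
        rw [Real.mul_rpow hC₄0 (by positivity), ← Real.rpow_mul hv0.le, mul_comm η]
  obtain ⟨M, hM1, hM2⟩ := exists_nat_pow_near hv1 hK1
  have hMX : (M : ℝ) ≤ 2 ^ X := by
    calc (M : ℝ) ≤ 2 ^ M := by exact_mod_cast Nat.lt_two_pow_self.le
      _ ≤ 2 ^ X := by
        rw [hX]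
        exact pow_le_log (by norm_num) hK1 hM1
  have hmain := hK δ hδ hδ1 K hKC₁ hKη ι a e he hsep c hc M (by rwa [← hv]) (by rwa [← hv])
  rw [← hv, ← hX] at hmain
  rw [← hv]
  refine hmain.trans ?_
  rw [← mul_assoc]
  refine mul_le_mul_left ?_ _
  have hd0 : 0 ≤ δ ^ (n - 1) := by positivity
  have hterm : ∀ m ∈ range M, ENNReal.ofReal (C₂ * (((K : ℝ) ^ m)⁻¹ ^ (n - 1))) *
      ENNReal.ofReal (C * (1 / (c₂ * ((K : ℝ) ^ m * δ))) ^ b *
        (c₂ * ((K : ℝ) ^ m * δ)) ^ (n - 1)) ≤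
      ENNReal.ofReal (C₃ * v ^ b * δ ^ (n - 1)) := by
    intro m _
    have hKm1 : 1 ≤ (K : ℝ) ^ m := one_le_pow₀ (by linarith)
    have hKm0 : 0 < (K : ℝ) ^ m := by positivity
    rw [← ENNReal.ofReal_mul (by positivity)]
    refine ENNReal.ofReal_le_ofReal ?_
    have e1 : (c₂ * ((K : ℝ) ^ m * δ)) ^ (n - 1) = c₂ ^ (n - 1) * ((K : ℝ) ^ m) ^ (n - 1) *
        δ ^ (n - 1) := by rw [mul_pow, mul_pow]; ring
    have e2 : (1 / (c₂ * ((K : ℝ) ^ m * δ))) ^ b ≤ (1 / c₂) ^ b * v ^ b := by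
      rw [← Real.mul_rpow (by positivity) hv0.le]
      apply Real.rpow_le_rpow (by positivity) _ (by positivity)
      rw [hv, div_mul_div_comm, mul_one]
      apply one_div_le_one_div_of_le (by positivity)
      gcongr
      nlinarith
    have e3 : ((K : ℝ) ^ m)⁻¹ ^ (n - 1) * ((K : ℝ) ^ m) ^ (n - 1) = 1 := by
      rw [← mul_pow, inv_mul_cancel₀ hKm0.ne', one_pow]
    have e4 : c₂ ^ (n - 1) ≤ 1 := pow_le_one₀ hc₂0.le hc₂1
    rw [e1]
    calc C₂ * ((K : ℝ) ^ m)⁻¹ ^ (n - 1) * (C * (1 / (c₂ * ((K : ℝ) ^ m * δ))) ^ b *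
          (c₂ ^ (n - 1) * ((K : ℝ) ^ m) ^ (n - 1) * δ ^ (n - 1)))
        = (((K : ℝ) ^ m)⁻¹ ^ (n - 1) * ((K : ℝ) ^ m) ^ (n - 1)) * (C₂ * C *
          (1 / (c₂ * ((K : ℝ) ^ m * δ))) ^ b) * (c₂ ^ (n - 1) * δ ^ (n - 1)) := by ring
      _ ≤ 1 * (C₂ * C * ((1 / c₂) ^ b * v ^ b)) * (1 * δ ^ (n - 1)) := by
          rw [e3]
          gcongr
      _ = _ := by rw [hC₃]; ring
  have hvb : v ^ (((n : ℝ) - k) / ((k : ℝ) - 1)) ≤ v ^ b :=
    Real.rpow_le_rpow_of_exponent_le hv1 hb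
  have h2X : 1 ≤ (2 : ℝ) ^ X := Real.one_le_rpow (by norm_num) hX0
  calc ENNReal.ofReal ((K : ℝ) ^ C₁ * C₁ ^ X) *
        (ENNReal.ofReal (v ^ (((n : ℝ) - k) / ((k : ℝ) - 1)) * δ ^ (n - 1)) +
          ∑ m ∈ range M, ENNReal.ofReal (C₂ * (((K : ℝ) ^ m)⁻¹ ^ (n - 1))) *
            ENNReal.ofReal (C * (1 / (c₂ * ((K : ℝ) ^ m * δ))) ^ b *
              (c₂ * ((K : ℝ) ^ m * δ)) ^ (n - 1)))
      ≤ ENNReal.ofReal ((K : ℝ) ^ C₁ * C₁ ^ X) *
        (ENNReal.ofReal (2 ^ X * (v ^ b * δ ^ (n - 1))) +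
          ∑ _m ∈ range M, ENNReal.ofReal (C₃ * v ^ b * δ ^ (n - 1))) := by
        refine mul_le_mul_right (add_le_add (ENNReal.ofReal_le_ofReal ?_)
          (Finset.sum_le_sum hterm)) _
        calc v ^ (((n : ℝ) - k) / ((k : ℝ) - 1)) * δ ^ (n - 1)
            ≤ 1 * (v ^ b * δ ^ (n - 1)) := by rw [one_mul]; gcongr
          _ ≤ _ := by gcongr
    _ ≤ ENNReal.ofReal ((K : ℝ) ^ C₁ * C₁ ^ X) *
        (ENNReal.ofReal (2 ^ X * (v ^ b * δ ^ (n - 1))) +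
          ENNReal.ofReal (2 ^ X * (C₃ * v ^ b * δ ^ (n - 1)))) := by
        refine mul_le_mul_right (add_le_add le_rfl ?_) _
        rw [Finset.sum_const, Finset.card_range, nsmul_eq_mul, ← ENNReal.ofReal_natCast,
          ← ENNReal.ofReal_mul (by positivity)]
        refine ENNReal.ofReal_le_ofReal ?_
        gcongr
    _ = ENNReal.ofReal ((K : ℝ) ^ C₁ * ((2 * C₁) ^ X * ((1 + C₃) * v ^ b * δ ^ (n - 1)))) := by
        rw [← ENNReal.ofReal_add (by positivity) (by positivity),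
          ← ENNReal.ofReal_mul (by positivity), Real.mul_rpow (by norm_num) hC₁0.le]
        congr 1
        ring
    _ ≤ ENNReal.ofReal (C₄ ^ C₁ * (2 * C₁) ^ (1 / η) * (1 + C₃) * v ^ (b + C₁ * η) *
          δ ^ (n - 1)) := by
        refine ENNReal.ofReal_le_ofReal ?_
        calc (K : ℝ) ^ C₁ * ((2 * C₁) ^ X * ((1 + C₃) * v ^ b * δ ^ (n - 1)))
            ≤ (C₄ ^ C₁ * v ^ (C₁ * η)) * ((2 * C₁) ^ (1 / η) * ((1 + C₃) * v ^ b *
              δ ^ (n - 1))) := by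
              gcongr
          _ = C₄ ^ C₁ * (2 * C₁) ^ (1 / η) * (1 + C₃) * (v ^ b * v ^ (C₁ * η)) *
              δ ^ (n - 1) := by ring
          _ = _ := by rw [← Real.rpow_add hv0]

end Pool.Agent.H565.PL
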