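import Pool.Agent.H565.MK.Core3
set_option autoImplicit false

/-!
# Pruning a bush at all scales
-/

namespace Pool.Agent.H565.PL
open MeasureTheory Finset Metric
open scoped ENNReal
open Pool.Agent.H565.MK

section Tree

variable {F : Type*} [NormedAddCommGroup F] [InnerProductSpace ℝ F] [FiniteDimensional ℝ F]
variable {ι : Type} {G : Type} [DecidableEq G]

open Classical in
/-- At least half of the directions of `s` are within `r` of a subspace of dimension `< k`. -/
def Flt (e : ι → F) (k : ℕ) (r : ℝ) (s : Finset ι) : Prop :=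
  ∃ V : Submodule ℝ F, Module.finrank ℝ V < k ∧
    ∑ _i ∈ s, (1 : ℝ≥0∞) ≤ 2 * ∑ _i ∈ s.filter (fun i => infDist (e i) V ≤ r), (1 : ℝ≥0∞)

open Classical in
/-- The choice of the subspace. -/
noncomputable def Vf (e : ι → F) (k : ℕ) (r : ℝ) (s : Finset ι) : Submodule ℝ F :=
  if h : Flt e k r s then h.choose else ⊥

open Classical in
/-- The pruning of one class. -/
noncomputable def pr1 (e : ι → F) (k : ℕ) (r : ℝ) (T : ℝ≥0∞) (s : Finset ι) : Finset ι :=
  if (s.card : ℝ≥0∞) ≤ T then s else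
    if Flt e k r s then s.filter (fun i => infDist (e i) (Vf e k r s) ≤ r) else ∅

theorem pr1_subset (e : ι → F) (k : ℕ) (r : ℝ) (T : ℝ≥0∞) (s : Finset ι) : pr1 e k r T s ⊆ s := by
  classical
  unfold pr1
  split_ifs
  · exact subset_rfl
  · exact Finset.filter_subset _ _
  · exact Finset.empty_subset _

theorem Vf_finrank (e : ι → F) {k : ℕ} (hk : 1 ≤ k) (r : ℝ) (s : Finset ι) :
    Module.finrank ℝ (Vf e k r s) < k := by
  classical
  by_cases h : Flt e k r s
  · have h1 : Vf e k r s = h.choose := by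
      unfold Vf
      rw [dif_pos h]
    rw [h1]
    exact h.choose_spec.1
  · have h1 : Vf e k r s = ⊥ := by
      unfold Vf
      rw [dif_neg h]
    rw [h1, finrank_bot]
    omega

theorem pr1_struct (e : ι → F) {k : ℕ} (hk : 1 ≤ k) (r : ℝ) (T : ℝ≥0∞) (s : Finset ι) :
    (s.card : ℝ≥0∞) ≤ T ∨ ∃ V : Submodule ℝ F, Module.finrank ℝ V < k ∧
      ∀ i ∈ pr1 e k r T s, infDist (e i) V ≤ r := by
  classical
  by_cases h1 : (s.card : ℝ≥0∞) ≤ T
  · exact Or.inl h1
  · right
    refine ⟨Vf e k r s, Vf_finrank e hk r s, fun i hi => ?_⟩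
    unfold pr1 at hi
    rw [if_neg h1] at hi
    split_ifs at hi with h2
    · exact (Finset.mem_filter.1 hi).2
    · exact absurd hi (Finset.notMem_empty _)

theorem card_one (s : Finset ι) : ∑ _i ∈ s, (1 : ℝ≥0∞) = (s.card : ℝ≥0∞) := by
  rw [Finset.sum_const, nsmul_eq_mul, mul_one]

open Classical in
/-- The mass of the pruned class. -/
theorem pr1_mass (e : ι → F) (g : ι → G) (N : ℕ) (hN : 1 ≤ N) {k : ℕ} (hk : 2 ≤ k) {p : ℝ}
    (hp0 : 0 < p) (hpk : p * (k : ℝ) = 1 + p) {r : ℝ} (hr : 0 < r) {T : ℝ≥0∞} (hT0 : T ≠ 0)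
    (hT : T ≠ ∞) (s : Finset ι) (hg : (s.image g).card ≤ N) :
    (s.card : ℝ≥0∞) ≤ 2 * (pr1 e k r T s).card ∨
    ∃ t : Fin k → ι, (∀ j, t j ∈ s) ∧
      (∀ (lam : Fin k → ℝ) (j : Fin k), r / 2 ^ k * |lam j| ≤ ‖∑ l, lam l • e (t l)‖) ∧
      (s.card : ℝ≥0∞) ≤ T ^ (-p) * ((2 * N) ^ (1 + p) *
        ∏ j, (∑ _i ∈ s.filter (fun i => g i = g (t j)), (1 : ℝ≥0∞)) ^ p) := by
  by_cases h1 : (s.card : ℝ≥0∞) ≤ T
  · left
    unfold pr1
    rw [if_pos h1]
    exact le_mul_of_one_le_left' (by norm_num)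
  · by_cases h2 : Flt e k r s
    · left
      have h3 : Vf e k r s = h2.choose := by
        unfold Vf
        rw [dif_pos h2]
      have h4 := h2.choose_spec.2
      rw [← h3, card_one, card_one] at h4
      unfold pr1
      rw [if_neg h1, if_pos h2]
      exact h4
    · right
      rcases bn s (fun _ => (1 : ℝ≥0∞)) (fun _ => by simp) e g N hN hg r hr k (by omega) with
        ⟨V, hV, hW⟩ | ⟨t, hts, htr, hW⟩
      · exact absurd ⟨V, hV, hW⟩ h2
      · refine ⟨t, hts, htr, ?_⟩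
        rw [card_one] at hW
        have hq0 : (0 : ℝ) ≤ 1 + p := by linarith
        have hX : (s.card : ℝ≥0∞) ^ (1 + p) ≤ (2 * N) ^ (1 + p) *
            ∏ j : Fin k, (∑ _i ∈ s.filter (fun i => g i = g (t j)), (1 : ℝ≥0∞)) ^ p := by
          calc (s.card : ℝ≥0∞) ^ (1 + p) = ∏ _j : Fin k, (s.card : ℝ≥0∞) ^ p := by
                rw [Finset.prod_const, Finset.card_univ, Fintype.card_fin, ← ENNReal.rpow_natCast,
                  ← ENNReal.rpow_mul, hpk]
            _ ≤ ∏ j : Fin k, (2 * N * ∑ _i ∈ s.filter (fun i => g i = g (t j)),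
                  (1 : ℝ≥0∞)) ^ p :=
                Finset.prod_le_prod' fun j _ => ENNReal.rpow_le_rpow (hW j) hp0.le
            _ = _ := by
                simp only [ENNReal.mul_rpow_of_nonneg _ _ hp0.le]
                rw [Finset.prod_mul_distrib, Finset.prod_const, Finset.card_univ, Fintype.card_fin,
                  ← ENNReal.mul_rpow_of_nonneg _ _ hp0.le, ← ENNReal.rpow_natCast,
                  ← ENNReal.rpow_mul, hpk]
        have hTs : T ≤ s.card := (not_le.1 h1).le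
        calc (s.card : ℝ≥0∞) = T ^ (-p) * (T ^ p * s.card) := by
              rw [← mul_assoc, ← ENNReal.rpow_add _ _ hT0 hT, neg_add_cancel, ENNReal.rpow_zero,
                one_mul]
          _ ≤ T ^ (-p) * ((s.card : ℝ≥0∞) ^ p * s.card) := by gcongr
          _ = T ^ (-p) * (s.card : ℝ≥0∞) ^ (1 + p) := by
              congr 1
              rw [add_comm, ENNReal.rpow_add_of_nonneg _ _ hp0.le zero_le_one, ENNReal.rpow_one]
          _ ≤ _ := by gcongr

variable [Fintype ι]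

open Classical in
/-- The pruning at the level `m`. -/
noncomputable def pr (cell : ℕ → ι → G) (e : ι → F) (h : ℕ → ℝ) (k : ℕ) (T : ℝ≥0∞) (m : ℕ)
    (S : Finset ι) : Finset ι :=
  S.filter (fun i => i ∈ pr1 e k (h m) T (S.filter (fun j => cell m j = cell m i)))

/-- The successive prunings. -/
noncomputable def prn (cell : ℕ → ι → G) (e : ι → F) (h : ℕ → ℝ) (k : ℕ) (T : ℝ≥0∞) :
    ℕ → Finset ι → Finset ι
  | 0, S => S
  | m + 1, S => pr cell e h k T m (prn cell e h k T m S)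

theorem pr_subset (cell : ℕ → ι → G) (e : ι → F) (h : ℕ → ℝ) (k : ℕ) (T : ℝ≥0∞) (m : ℕ)
    (S : Finset ι) : pr cell e h k T m S ⊆ S := by
  classical
  exact Finset.filter_subset _ _

theorem pr_filter (cell : ℕ → ι → G) (e : ι → F) (h : ℕ → ℝ) (k : ℕ) (T : ℝ≥0∞) (m : ℕ)
    (S : Finset ι) (τ : G) : (pr cell e h k T m S).filter (fun i => cell m i = τ) =
      pr1 e k (h m) T (S.filter (fun j => cell m j = τ)) := by
  classical
  ext i
  unfold pr
  rw [Finset.mem_filter, Finset.mem_filter]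
  constructor
  · rintro ⟨⟨_, h2⟩, rfl⟩
    exact h2
  · intro hi
    have h1 := pr1_subset _ _ _ _ _ hi
    rw [Finset.mem_filter] at h1
    obtain ⟨h2, rfl⟩ := h1
    exact ⟨⟨h2, hi⟩, rfl⟩

theorem prn_anti (cell : ℕ → ι → G) (e : ι → F) (h : ℕ → ℝ) (k : ℕ) (T : ℝ≥0∞) {m M : ℕ}
    (hm : m ≤ M) (S : Finset ι) : prn cell e h k T M S ⊆ prn cell e h k T m S := by
  induction M, hm using Nat.le_induction with
  | base => exact subset_rfl
  | succ M _ ih => exact (pr_subset cell e h k T M _).trans ih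

/-- The pruned set is flat at every level, except for the small classes. -/
theorem prn_struct (cell : ℕ → ι → G) (e : ι → F) (h : ℕ → ℝ) {k : ℕ} (hk : 1 ≤ k) (T : ℝ≥0∞)
    (M : ℕ) (S : Finset ι) (m : ℕ) (hm : m < M) (τ : G) :
    (((prn cell e h k T M S).filter (fun i => cell m i = τ)).card : ℝ≥0∞) ≤ T ∨
    ∃ V : Submodule ℝ F, Module.finrank ℝ V < k ∧
      ∀ i ∈ (prn cell e h k T M S).filter (fun i => cell m i = τ), infDist (e i) V ≤ h m := by
  have h1 : (prn cell e h k T M S).filter (fun i => cell m i = τ) ⊆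
      (prn cell e h k T (m + 1) S).filter (fun i => cell m i = τ) :=
    Finset.filter_subset_filter _ (prn_anti cell e h k T (by omega) S)
  have h2 : (prn cell e h k T (m + 1) S).filter (fun i => cell m i = τ) =
      pr1 e k (h m) T ((prn cell e h k T m S).filter (fun j => cell m j = τ)) :=
    pr_filter cell e h k T m _ τ
  rw [h2] at h1
  rcases pr1_struct e hk (h m) T ((prn cell e h k T m S).filter (fun j => cell m j = τ)) with
    h3 | ⟨V, hV, h3⟩
  · left
    refine le_trans ?_ h3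
    exact_mod_cast Finset.card_le_card (h1.trans (pr1_subset _ _ _ _ _))
  · exact Or.inr ⟨V, hV, fun i hi => h3 i (h1 hi)⟩

theorem Br_mono (cell : ℕ → ι → G) (e : ι → F) (h : ℕ → ℝ) (k : ℕ) {p : ℝ} (hp0 : 0 < p)
    (m : ℕ) {S S' : Finset ι} (hS : S ⊆ S') :
    Br cell e h k (fun _ => (1 : ℝ≥0∞)) p S m ≤ Br cell e h k (fun _ => (1 : ℝ≥0∞)) p S' m := by
  unfold Br
  refine Finset.sum_le_sum fun τ _ => Finset.sum_le_sum fun σ _ => Finset.prod_le_prod' fun j _ =>
    ENNReal.rpow_le_rpow ?_ hp0.le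
  exact Finset.sum_le_sum_of_subset (Finset.filter_subset_filter _ hS)

/-- The mass of the pruned set. -/
theorem pr_mass (cell : ℕ → ι → G) (e : ι → F) (h : ℕ → ℝ) (N : ℕ) (hN : 1 ≤ N) {k : ℕ}
    (hk : 2 ≤ k) {p : ℝ} (hp0 : 0 < p) (hpk : p * (k : ℝ) = 1 + p) {T : ℝ≥0∞} (hT0 : T ≠ 0)
    (hT : T ≠ ∞) (m : ℕ) (hh : 0 < h m)
    (hcard : ∀ τ, ((univ.filter (fun i => cell m i = τ)).image (cell (m + 2))).card ≤ N)
    (S : Finset ι) :
    (S.card : ℝ≥0∞) ≤ 2 * (pr cell e h k T m S).card +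
      T ^ (-p) * ((2 * N) ^ (1 + p) * Br cell e h k (fun _ => (1 : ℝ≥0∞)) p S m) := by
  classical
  have hsplit : ∀ S' : Finset ι, (S'.card : ℝ≥0∞) = ∑ τ ∈ univ.image (cell m),
      ((S'.filter (fun i => cell m i = τ)).card : ℝ≥0∞) := by
    intro S'
    rw [Finset.card_eq_sum_card_fiberwise (f := cell m) (t := univ.image (cell m))
      (fun i _ => Finset.mem_image_of_mem _ (Finset.mem_univ i))]
    push_cast
    rfl
  have key : ∀ τ, ((S.filter (fun i => cell m i = τ)).card : ℝ≥0∞) ≤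
      2 * (((pr cell e h k T m S).filter (fun i => cell m i = τ)).card : ℝ≥0∞) +
      T ^ (-p) * ((2 * N) ^ (1 + p) * ∑ σ ∈ adm cell e h k m τ,
        ∏ j, (∑ _i ∈ S.filter (fun i => cell m i = τ ∧ cell (m + 2) i = σ j),
          (1 : ℝ≥0∞)) ^ p) := by
    intro τ
    have hsub : ((S.filter (fun i => cell m i = τ)).image (cell (m + 2))).card ≤ N := by
      refine (Finset.card_le_card (Finset.image_subset_image ?_)).trans (hcard τ)
      intro i hi
      rw [Finset.mem_filter] at hi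
      exact Finset.mem_filter.2 ⟨Finset.mem_univ _, hi.2⟩
    rw [pr_filter]
    rcases pr1_mass e (cell (m + 2)) N hN hk hp0 hpk hh hT0 hT
      (S.filter (fun i => cell m i = τ)) hsub with h1 | ⟨t, hts, htr, hW⟩
    · exact h1.trans le_self_add
    · refine (hW.trans ?_).trans le_add_self
      have hτ : ∀ j, cell m (t j) = τ := fun j => (Finset.mem_filter.1 (hts j)).2
      have hσa : (fun j => cell (m + 2) (t j)) ∈ adm cell e h k m τ := by
        unfold adm
        rw [Finset.mem_filter, Fintype.mem_piFinset]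
        refine ⟨fun j => ?_, t, fun j => ⟨hτ j, rfl⟩, htr⟩
        exact Finset.mem_image_of_mem _ (Finset.mem_filter.2 ⟨Finset.mem_univ _, hτ j⟩)
      simp only [Finset.filter_filter]
      refine mul_le_mul_right (mul_le_mul_right ?_ _) _
      exact Finset.single_le_sum (f := fun σ : Fin k → G => ∏ j, (∑ _i ∈ S.filter
        (fun i => cell m i = τ ∧ cell (m + 2) i = σ j), (1 : ℝ≥0∞)) ^ p) (fun _ _ => zero_le) hσa
  calc (S.card : ℝ≥0∞) = ∑ τ ∈ univ.image (cell m),
        ((S.filter (fun i => cell m i = τ)).card : ℝ≥0∞) := hsplit S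
    _ ≤ ∑ τ ∈ univ.image (cell m),
        (2 * (((pr cell e h k T m S).filter (fun i => cell m i = τ)).card : ℝ≥0∞) +
        T ^ (-p) * ((2 * N) ^ (1 + p) * ∑ σ ∈ adm cell e h k m τ,
        ∏ j, (∑ _i ∈ S.filter (fun i => cell m i = τ ∧ cell (m + 2) i = σ j),
          (1 : ℝ≥0∞)) ^ p)) := Finset.sum_le_sum fun τ _ => key τ
    _ = _ := by
        rw [Finset.sum_add_distrib, ← Finset.mul_sum, ← Finset.mul_sum, ← Finset.mul_sum,
          ← hsplit]
        rfl

/-- The mass after all the prunings. -/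
theorem prn_mass (cell : ℕ → ι → G) (e : ι → F) (h : ℕ → ℝ) (N : ℕ) (hN : 1 ≤ N) {k : ℕ}
    (hk : 2 ≤ k) {p : ℝ} (hp0 : 0 < p) (hpk : p * (k : ℝ) = 1 + p) {T : ℝ≥0∞} (hT0 : T ≠ 0)
    (hT : T ≠ ∞) (M : ℕ) (hh : ∀ m < M, 0 < h m)
    (hcard : ∀ m τ, ((univ.filter (fun i => cell m i = τ)).image (cell (m + 2))).card ≤ N)
    (S S₀ : Finset ι) (hS : S ⊆ S₀) :
    (S.card : ℝ≥0∞) ≤ 2 ^ M * ((prn cell e h k T M S).card +
      T ^ (-p) * ∑ m ∈ range M,
        ((2 * N) ^ (1 + p) * Br cell e h k (fun _ => (1 : ℝ≥0∞)) p S₀ m)) := by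
  induction M with
  | zero =>
    simp [prn]
  | succ M ih =>
    refine (ih (fun m hm => hh m (by omega))).trans ?_
    have h1 := pr_mass cell e h N hN hk hp0 hpk hT0 hT M (hh M (by omega)) (hcard M)
      (prn cell e h k T M S)
    have h2 : Br cell e h k (fun _ => (1 : ℝ≥0∞)) p (prn cell e h k T M S) M ≤
        Br cell e h k (fun _ => (1 : ℝ≥0∞)) p S₀ M :=
      Br_mono cell e h k hp0 M ((prn_anti cell e h k T (Nat.zero_le M) S).trans hS)
    have h3 : ((prn cell e h k T M S).card : ℝ≥0∞) ≤ 2 * (prn cell e h k T (M + 1) S).card +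
        T ^ (-p) * ((2 * N) ^ (1 + p) * Br cell e h k (fun _ => (1 : ℝ≥0∞)) p S₀ M) := by
      refine h1.trans (add_le_add le_rfl ?_)
      exact mul_le_mul_right (mul_le_mul_right h2 _) _
    rw [Finset.sum_range_succ]
    calc 2 ^ M * (((prn cell e h k T M S).card : ℝ≥0∞) + T ^ (-p) * ∑ m ∈ range M,
          ((2 * N) ^ (1 + p) * Br cell e h k (fun _ => (1 : ℝ≥0∞)) p S₀ m))
        ≤ 2 ^ M * ((2 * (prn cell e h k T (M + 1) S).card +
          T ^ (-p) * ((2 * N) ^ (1 + p) * Br cell e h k (fun _ => (1 : ℝ≥0∞)) p S₀ M)) +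
          T ^ (-p) * ∑ m ∈ range M,
          ((2 * N) ^ (1 + p) * Br cell e h k (fun _ => (1 : ℝ≥0∞)) p S₀ m)) := by gcongr
      _ = 2 ^ M * (2 * (prn cell e h k T (M + 1) S).card +
          T ^ (-p) * (∑ m ∈ range M,
          ((2 * N) ^ (1 + p) * Br cell e h k (fun _ => (1 : ℝ≥0∞)) p S₀ m) +
          ((2 * N) ^ (1 + p) * Br cell e h k (fun _ => (1 : ℝ≥0∞)) p S₀ M))) := by ring
      _ ≤ 2 ^ M * (2 * (prn cell e h k T (M + 1) S).card +
          2 * (T ^ (-p) * (∑ m ∈ range M,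
          ((2 * N) ^ (1 + p) * Br cell e h k (fun _ => (1 : ℝ≥0∞)) p S₀ m) +
          ((2 * N) ^ (1 + p) * Br cell e h k (fun _ => (1 : ℝ≥0∞)) p S₀ M)))) := by
          refine mul_le_mul_right (add_le_add le_rfl ?_) _
          exact le_mul_of_one_le_left' (by norm_num)
      _ = _ := by rw [pow_succ]; ring

end Tree

end Pool.Agent.H565.PL
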