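import Pool.Agent.H565.PL.Tree
set_option autoImplicit false

/-!
# The transversal part at one level, and the planiness of shadings at all scales
-/

namespace Pool.Agent.H565.PL
open MeasureTheory Finset Metric
open scoped ENNReal
open Pool.Agent.H565.MK

section Tree2

variable {n : ℕ}

/-- The transversal part at one level, for all large `K`. -/
theorem br_total {k : ℕ} (hk : 2 ≤ k) (hkn : k ≤ n) (α A : ℝ) (hα : 0 ≤ α) (hA : 0 ≤ A) :
    ∃ C : ℝ, 1 ≤ C ∧ ∀ K : ℕ, C ≤ K → 4 ≤ K ∧ ∀ δ : ℝ, 0 < δ → δ ≤ 1 →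
      ∀ (ι : Type) [Fintype ι] (a e : ι → E n), (∀ i, ‖e i‖ = 1) →
      (∀ (i : ι) (ρ : ℝ), δ ≤ ρ → (Nat.card {j // ‖e j - e i‖ ≤ ρ} : ℝ) ≤ A * (ρ / δ) ^ α) →
      ∀ m : ℕ, (K : ℝ) ^ m ≤ 1 / δ →
      (2 * (((K ^ 2) ^ n : ℕ) : ℝ≥0∞)) ^ (1 + 1 / ((k : ℝ) - 1)) * ∫⁻ x, Br (cell K e) e
        (fun m => 1 / (K : ℝ) ^ (m + 1)) k (fun _ => (1 : ℝ≥0∞)) (1 / ((k : ℝ) - 1))
        (thr δ a e x) m ≤
        ENNReal.ofReal ((K : ℝ) ^ C * C ^ (Real.log (1 / δ) / Real.log K) *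
          ((1 / δ) ^ (max (α / ((k : ℝ) - 1) - 1) 0) * δ ^ (n - 1))) * Fintype.card ι := by
  classical
  have hk2 : (2 : ℝ) ≤ k := by exact_mod_cast hk
  have hk1 : (0 : ℝ) < (k : ℝ) - 1 := by linarith
  have hp0 : 0 < 1 / ((k : ℝ) - 1) := by positivity
  have hn1 : 1 ≤ n := by omega
  have hn1r : (1 : ℝ) ≤ n := by exact_mod_cast hn1
  obtain ⟨lam, hlam⟩ : ∃ lam, lam = max (α / ((k : ℝ) - 1) - 1) 0 := ⟨_, rfl⟩
  have hl1 : α * (1 / ((k : ℝ) - 1)) - 1 ≤ lam := by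
    have : α / ((k : ℝ) - 1) - 1 ≤ lam := by
      rw [hlam]
      exact le_max_left _ _
    rwa [div_eq_mul_one_div] at this
  have hl2 : (0 : ℝ) * (1 / ((k : ℝ) - 1)) ≤ lam := by
    rw [zero_mul, hlam]
    exact le_max_right _ _
  rw [← hlam]
  have h5 := fun {K : ℕ} (hK : 1 ≤ K) => cc5_le n k K hK (1 / ((k : ℝ) - 1)) α A hp0 hα hA
  have hbr := fun {K : ℕ} (hK1 : 1 ≤ K) (hKn : 2 ^ (k + 2) * √n ≤ (K : ℝ)) {δ v : ℝ} (hδ : 0 < δ)
    (hδ1 : δ ≤ 1) (hδv : δ = 1 / v) (hv1 : 1 ≤ v) {ι : Type} [Fintype ι] (a e : ι → E n) he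
    c m M' hm h1 h2 h3 Z hZ W R hR L hL hW =>
    br_level (n := n) hk hkn α 0 A lam hα le_rfl hA hl1 hl2 (K := K) hK1 hKn (δ := δ) (v := v) hδ
      hδ1 hδv hv1 (ι := ι) a e he c m M' hm h1 h2 h3 Z hZ W R hR L hL hW
  generalize 1 / ((k : ℝ) - 1) = p at hp0 hl1 hl2 h5 hbr ⊢
  obtain ⟨c₅, hc₅⟩ : ∃ c₅ : ℝ, c₅ = 2 ^ (1 + p) * ((n.factorial : ℝ) * 18 ^ n) * A ^ p *
    √n ^ (α * p) := ⟨_, rfl⟩
  have hc₅0 : 0 ≤ c₅ := by rw [hc₅]; positivity
  rw [← hc₅] at h5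
  obtain ⟨e0, he0⟩ : ∃ e0 : ℝ, e0 = 2 * n * (1 + p) + 2 * n * k + 2 * n + α * p := ⟨_, rfl⟩
  rw [← he0] at h5
  have he00 : 0 ≤ e0 := by rw [he0]; positivity
  have hCCa : 0 ≤ (4 : ℝ) ^ k * n := by positivity
  have h36' : (0 : ℝ) ≤ 36 ^ n := by positivity
  refine ⟨1 + 4 ^ k * n + (e0 + 1) + c₅ + 36 ^ n, by linarith, fun K hKK => ?_⟩
  obtain ⟨CC, hCC⟩ : ∃ CC, CC = 1 + 4 ^ k * n + (e0 + 1) + c₅ + 36 ^ n := ⟨_, rfl⟩
  rw [← hCC] at hKK ⊢
  have h36 : (0 : ℝ) ≤ 36 ^ n := by positivity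
  have hK : (4 : ℝ) ^ k * n ≤ K := by linarith
  have h4k' : (4 : ℝ) ≤ 4 ^ k := by
    calc (4 : ℝ) = 4 ^ 1 := by norm_num
      _ ≤ 4 ^ k := pow_le_pow_right₀ (by norm_num) (by omega)
  have hK4 : (4 : ℝ) ≤ K := by nlinarith
  refine ⟨by exact_mod_cast hK4, fun δ hδ hδ1 ι _ a e he hDim m hm => ?_⟩
  have hK0 : (0 : ℝ) < K := by linarith
  have hK1 : 1 ≤ K := by
    have : (1 : ℝ) ≤ K := by linarith
    exact_mod_cast this
  have hlogK : 0 < Real.log K := Real.log_pos (by linarith)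
  have h2k : (4 : ℝ) ≤ 2 ^ k := by
    calc (4 : ℝ) = 2 ^ 2 := by norm_num
      _ ≤ 2 ^ k := pow_le_pow_right₀ (by norm_num) hk
  have hsn : 1 ≤ √(n : ℝ) := by rwa [Real.one_le_sqrt]
  have hsq : √(n : ℝ) * √(n : ℝ) = n := Real.mul_self_sqrt (by positivity)
  have h4k : (4 : ℝ) ^ k = 2 ^ k * 2 ^ k := by rw [← mul_pow]; norm_num
  have hKn : 2 ^ (k + 2) * √n ≤ (K : ℝ) := by
    refine le_trans ?_ hK
    calc 2 ^ (k + 2) * √(n : ℝ) = (2 ^ k * 4) * (√(n : ℝ) * 1) := by rw [pow_add]; ring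
      _ ≤ (2 ^ k * 2 ^ k) * (√(n : ℝ) * √(n : ℝ)) := by gcongr
      _ = _ := by rw [hsq, h4k]
  have hG' : 2 / (2 ^ (k + 1) * √n / K) = K / (2 ^ k * √n) := by
    rw [pow_succ]
    field_simp
  have hG2 : (K : ℝ) ≤ (2 / (2 ^ (k + 1) * √n / K)) * (2 / (2 ^ (k + 1) * √n / K)) := by
    rw [hG', div_mul_div_comm, le_div_iff₀ (by positivity)]
    have e1 : (2 : ℝ) ^ k * √n * (2 ^ k * √n) = 4 ^ k * n := by
      rw [h4k]
      linear_combination (2 ^ k * 2 ^ k) * hsq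
    rw [e1]
    exact mul_le_mul_of_nonneg_left hK hK0.le
  have hG0 : 0 < 2 / (2 ^ (k + 1) * √n / K) := by rw [hG']; positivity
  have hbr0 := fun (v : ℝ) (hδv : δ = 1 / v) (hv1 : 1 ≤ v) (M' : ℕ) hm h1 h2 h3 Z hZ W R
    hR L hL hW => hbr hK1 hKn hδ hδ1 hδv hv1 a e he (fun _ => (1 : ℝ≥0∞)) m M' hm h1 h2 h3 Z hZ W R
      hR L hL hW
  generalize hG : 2 / (2 ^ (k + 1) * √n / (K : ℝ)) = G at hG2 hG0 hbr0
  have hG1 : 1 < G := by nlinarith
  have hlogG : Real.log K ≤ 2 * Real.log G := by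
    have h1 := Real.log_le_log hK0 hG2
    rw [Real.log_mul hG0.ne' hG0.ne'] at h1
    linarith
  obtain ⟨v, hv⟩ : ∃ v, v = 1 / δ := ⟨_, rfl⟩
  have hv1 : 1 ≤ v := by rw [hv, le_div_iff₀ hδ]; linarith
  have hv0 : 0 < v := by linarith
  have hδv : δ = 1 / v := by rw [hv]; field_simp
  have hlogv : 0 ≤ Real.log v := Real.log_nonneg hv1
  obtain ⟨X, hX⟩ : ∃ X, X = Real.log v / Real.log K := ⟨_, rfl⟩
  have hX0 : 0 ≤ X := by rw [hX]; positivity
  rw [← hv] at hm ⊢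
  rw [← hX]
  obtain ⟨M', hM'1, hM'2⟩ := exists_nat_pow_near hv1 hG1
  have h6M : ((6 : ℝ) ^ M') ^ n ≤ (36 ^ n) ^ X := by
    calc ((6 : ℝ) ^ M') ^ n = (6 ^ n) ^ M' := by rw [← pow_mul, ← pow_mul, mul_comm]
      _ ≤ (6 ^ n) ^ (Real.log v / Real.log G) :=
          pow_le_log (one_le_pow₀ (by norm_num)) hG1 hM'1
      _ ≤ (6 ^ n) ^ (2 * X) := by
          apply Real.rpow_le_rpow_of_exponent_le (one_le_pow₀ (by norm_num))
          rw [div_le_iff₀ (Real.log_pos hG1), hX, mul_assoc, div_mul_eq_mul_div,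
            ← mul_div_assoc, le_div_iff₀ hlogK]
          nlinarith
      _ = (36 ^ n) ^ X := by
          rw [Real.rpow_mul (by positivity)]
          congr 1
          rw [Real.rpow_ofNat, ← pow_mul, mul_comm, pow_mul]
          norm_num
  have hmain := hbr0 v hδv hv1 M' hm hM'1 hM'2.le
    (fun τ => cell_count hK1 hn1 hδ hδv e hDim m hm τ) ((36 ^ n) ^ X) h6M _ 1 zero_le_one 1
    (by rw [zero_mul, Real.rpow_zero, mul_one, ENNReal.ofReal_one]) rfl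
  rw [one_mul, Finset.sum_congr rfl (fun i _ => ENNReal.one_rpow (1 + p)), card_one,
    Finset.card_univ] at hmain
  refine hmain.trans (mul_le_mul_left (ENNReal.ofReal_le_ofReal ?_) _)
  have g2 : cc5 n k K p α A ≤ (K : ℝ) ^ CC := by
    calc cc5 n k K p α A ≤ c₅ * (K : ℝ) ^ e0 := h5 hK1
      _ ≤ (K : ℝ) * (K : ℝ) ^ e0 := by
          refine mul_le_mul_of_nonneg_right ?_ (by positivity)
          linarith
      _ = (K : ℝ) ^ (1 + e0) := by rw [Real.rpow_add hK0, Real.rpow_one]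
      _ ≤ (K : ℝ) ^ CC := by
          apply Real.rpow_le_rpow_of_exponent_le (by linarith)
          linarith
  have g3 : ((36 : ℝ) ^ n) ^ X ≤ CC ^ X := Real.rpow_le_rpow h36 (by linarith) hX0
  calc 1 * ((36 ^ n) ^ X * cc5 n k K p α A) * v ^ lam * δ ^ (n - 1)
      = (cc5 n k K p α A * (36 ^ n) ^ X) * (v ^ lam * δ ^ (n - 1)) := by ring
    _ ≤ ((K : ℝ) ^ CC * CC ^ X) * (v ^ lam * δ ^ (n - 1)) := by
        refine mul_le_mul_of_nonneg_right ?_ (by positivity)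
        exact mul_le_mul g2 g3 (by positivity) (by positivity)

variable {ι : Type} [Fintype ι]

/-- The members of the shading at `x`. -/
noncomputable def shd (Y : ι → Set (E n)) (x : E n) : Finset ι := by
  classical
  exact univ.filter (fun i => x ∈ Y i)

theorem mem_shd (Y : ι → Set (E n)) (x : E n) (i : ι) : i ∈ shd Y x ↔ x ∈ Y i := by
  classical
  unfold shd
  simp

theorem measurableSet_shd (Y : ι → Set (E n)) (hY : ∀ i, MeasurableSet (Y i))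
    (P : Finset ι → Prop) : MeasurableSet {x | P (shd Y x)} := by
  classical
  have h1 : {x | P (shd Y x)} = ⋃ S ∈ (univ : Finset (Finset ι)).filter P,
      ⋂ i, if i ∈ S then Y i else (Y i)ᶜ := by
    ext x
    simp only [Set.mem_ofPred_eq, Finset.mem_filter, Finset.mem_univ, true_and, Set.mem_iUnion,
      Set.mem_iInter, exists_prop]
    constructor
    · intro h
      refine ⟨shd Y x, h, fun i => ?_⟩
      by_cases hi : i ∈ shd Y x
      · rw [if_pos hi]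
        exact (mem_shd Y x i).1 hi
      · rw [if_neg hi]
        exact fun h2 => hi ((mem_shd Y x i).2 h2)
    · rintro ⟨S, hS, h⟩
      have : shd Y x = S := by
        ext i
        rw [mem_shd]
        have h2 := h i
        by_cases hi : i ∈ S
        · rw [if_pos hi] at h2
          exact ⟨fun _ => hi, fun _ => h2⟩
        · rw [if_neg hi] at h2
          exact ⟨fun h3 => absurd h3 h2, fun h3 => absurd h3 hi⟩
      rw [this]
      exact hS
  rw [h1]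
  refine Finset.measurableSet_biUnion _ fun S _ => MeasurableSet.iInter fun i => ?_
  split_ifs
  · exact hY i
  · exact (hY i).compl

theorem lintegral_card (Z : ι → Set (E n)) (hZ : ∀ i, MeasurableSet (Z i))
    (f : E n → Finset ι) (hf : ∀ x i, i ∈ f x ↔ x ∈ Z i) :
    ∫⁻ x, ((f x).card : ℝ≥0∞) = ∑ i, volume (Z i) := by
  classical
  have h1 : ∀ x, ((f x).card : ℝ≥0∞) = ∑ i, (Z i).indicator (fun _ => (1 : ℝ≥0∞)) x := by
    intro x
    rw [← card_one, ← Finset.sum_subset (Finset.subset_univ (f x))]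
    · refine Finset.sum_congr rfl fun i hi => ?_
      rw [Set.indicator_of_mem ((hf x i).1 hi)]
    · intro i _ hi
      rw [Set.indicator_of_notMem (fun h => hi ((hf x i).2 h))]
  simp only [h1]
  rw [lintegral_finsetSum _ (fun i _ => measurable_const.indicator (hZ i))]
  refine Finset.sum_congr rfl fun i _ => ?_
  rw [lintegral_indicator (hZ i), setLIntegral_one]

end Tree2

end Pool.Agent.H565.PL
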