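import Pool.Agent.H565.PL.Tree2
set_option autoImplicit false

/-!
# Every shading has a refinement which is plany at all scales above the conjectured multiplicity
-/

namespace Pool.Agent.H565.PL
open MeasureTheory Finset Metric
open scoped ENNReal
open Pool.Agent.H565.MK

section Tree3

variable {n : ℕ}

/-- The threshold. -/
theorem thr_real {k : ℕ} (hk : 2 ≤ k) {K : ℕ} {C₀ C X v l lam u α : ℝ} (hC₀ : 1 ≤ C₀)
    (hK : 2 ≤ K) (hX : 0 ≤ X) (hv : 1 ≤ v) (hlam : 0 < lam)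
    (hl : l = max (α / ((k : ℝ) - 1) - 1) 0)
    (hC1 : ((k : ℝ) - 1) * (C₀ + 1) ≤ C) (hC2 : (4 * C₀) ^ ((k : ℝ) - 1) ≤ C)
    (hu : u = 2 * 4 ^ X * ((K : ℝ) ^ C₀ * C₀ ^ X * v ^ l) / lam) :
    u ^ ((k : ℝ) - 1) ≤ (K : ℝ) ^ C * C ^ X * v ^ (max (α - ((k : ℝ) - 1)) 0) /
      lam ^ ((k : ℝ) - 1) := by
  have hk2 : (2 : ℝ) ≤ k := by exact_mod_cast hk
  have hk1 : (0 : ℝ) < (k : ℝ) - 1 := by linarith
  have hK2 : (2 : ℝ) ≤ K := by exact_mod_cast hK
  have hK0 : (0 : ℝ) < K := by linarith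
  have hv0 : 0 < v := by linarith
  have hC₀0 : 0 < C₀ := by linarith
  have e1 : l * ((k : ℝ) - 1) = max (α - ((k : ℝ) - 1)) 0 := by
    rw [hl, max_mul_of_nonneg _ _ hk1.le, zero_mul, sub_mul, div_mul_cancel₀ _ hk1.ne', one_mul]
  generalize (k : ℝ) - 1 = κ at hk1 hC1 hC2 e1 ⊢
  rw [hu, Real.div_rpow (by positivity) hlam.le, Real.mul_rpow (by positivity) (by positivity),
    Real.mul_rpow (by positivity) (by positivity), Real.mul_rpow (by positivity) (by positivity),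
    Real.mul_rpow (by positivity) (by positivity), ← Real.rpow_mul hv0.le, e1,
    ← Real.rpow_mul hK0.le, ← Real.rpow_mul (by norm_num : (0 : ℝ) ≤ 4), ← Real.rpow_mul hC₀0.le]
  refine div_le_div_of_nonneg_right ?_ (by positivity)
  have h1 : (2 : ℝ) ^ κ * (K : ℝ) ^ (C₀ * κ) ≤ (K : ℝ) ^ C := by
    calc (2 : ℝ) ^ κ * (K : ℝ) ^ (C₀ * κ) ≤ (K : ℝ) ^ κ * (K : ℝ) ^ (C₀ * κ) := by
          refine mul_le_mul_of_nonneg_right ?_ (by positivity)
          exact Real.rpow_le_rpow (by norm_num) hK2 hk1.le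
      _ = (K : ℝ) ^ (κ + C₀ * κ) := by rw [Real.rpow_add hK0]
      _ ≤ (K : ℝ) ^ C := by
          apply Real.rpow_le_rpow_of_exponent_le (by linarith)
          linarith
  have h2 : (4 : ℝ) ^ (X * κ) * C₀ ^ (X * κ) ≤ C ^ X := by
    calc (4 : ℝ) ^ (X * κ) * C₀ ^ (X * κ) = ((4 * C₀) ^ κ) ^ X := by
          rw [← Real.mul_rpow (by norm_num) hC₀0.le, mul_comm X κ, Real.rpow_mul (by positivity)]
      _ ≤ C ^ X := Real.rpow_le_rpow (by positivity) hC2 hX
  calc (2 : ℝ) ^ κ * 4 ^ (X * κ) * ((K : ℝ) ^ (C₀ * κ) * C₀ ^ (X * κ) * v ^ max (α - κ) 0)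
      = ((2 : ℝ) ^ κ * (K : ℝ) ^ (C₀ * κ)) * (4 ^ (X * κ) * C₀ ^ (X * κ)) *
        v ^ max (α - κ) 0 := by ring
    _ ≤ (K : ℝ) ^ C * C ^ X * v ^ max (α - κ) 0 := by
        refine mul_le_mul_of_nonneg_right ?_ (by positivity)
        exact mul_le_mul h1 h2 (by positivity) (by positivity)

theorem lint_aux {f : E n → ℝ≥0∞} {B : ℕ → E n → ℝ≥0∞} (hf : Measurable f)
    (hB : ∀ m, Measurable (B m)) (c d w : ℝ≥0∞) (M : ℕ) :
    ∫⁻ x, c * (f x + d * ∑ m ∈ range M, w * B m x) =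
      c * ((∫⁻ x, f x) + d * ∑ m ∈ range M, w * ∫⁻ x, B m x) := by
  have m1 : ∀ m ∈ range M, Measurable fun x => w * B m x := fun m _ => (hB m).const_mul _
  have m2 : Measurable fun x => ∑ m ∈ range M, w * B m x := Finset.measurable_sum _ m1
  have m3 : Measurable fun x => d * ∑ m ∈ range M, w * B m x := m2.const_mul _
  have m4 : Measurable fun x => f x + d * ∑ m ∈ range M, w * B m x := hf.add m3
  rw [lintegral_const_mul _ m4, lintegral_add_left hf, lintegral_const_mul _ m2,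
    lintegral_finsetSum _ m1]
  simp only [lintegral_const_mul _ (hB _)]

/-- **Planiness at all scales.** -/
theorem plany_refine {k : ℕ} (hk : 2 ≤ k) (hkn : k ≤ n) (α A : ℝ) (hα : 0 ≤ α) (hA : 0 ≤ A) :
    ∃ C : ℝ, 1 ≤ C ∧ ∀ K : ℕ, C ≤ K → ∀ δ : ℝ, 0 < δ → δ ≤ 1 →
      ∀ (ι : Type) [Fintype ι] (a e : ι → E n), (∀ i, ‖e i‖ = 1) →
      (∀ (i : ι) (ρ : ℝ), δ ≤ ρ → (Nat.card {j // ‖e j - e i‖ ≤ ρ} : ℝ) ≤ A * (ρ / δ) ^ α) →
      ∀ Y : ι → Set (E n), (∀ i, MeasurableSet (Y i)) → (∀ i, Y i ⊆ tube δ (a i) (e i)) →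
      ∀ lam : ℝ, 0 < lam →
      ENNReal.ofReal (lam * δ ^ (n - 1)) * Fintype.card ι ≤ ∑ i, volume (Y i) →
      ∃ Z : ι → Set (E n), (∀ i, MeasurableSet (Z i)) ∧ (∀ i, Z i ⊆ Y i) ∧
        ∑ i, volume (Y i) ≤ ENNReal.ofReal (2 * 2 ^ (Real.log (1 / δ) / Real.log K)) *
          ∑ i, volume (Z i) ∧
        ∀ (x : E n) (m : ℕ), (K : ℝ) ^ (m + 1) ≤ 1 / δ → ∀ τ : Fin n → ℤ,
          (Nat.card {i // x ∈ Z i ∧ cell K e m i = τ} : ℝ) ≤
            (K : ℝ) ^ C * C ^ (Real.log (1 / δ) / Real.log K) *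
              (1 / δ) ^ (max (α - ((k : ℝ) - 1)) 0) / lam ^ ((k : ℝ) - 1) ∨
          ∃ V : Submodule ℝ (E n), Module.finrank ℝ V < k ∧
            ∀ i, x ∈ Z i → cell K e m i = τ → infDist (e i) V ≤ 1 / (K : ℝ) ^ (m + 1) := by
  classical
  have hk2 : (2 : ℝ) ≤ k := by exact_mod_cast hk
  have hk1 : (0 : ℝ) < (k : ℝ) - 1 := by linarith
  have hp0 : 0 < 1 / ((k : ℝ) - 1) := by positivity
  have hpk : 1 / ((k : ℝ) - 1) * (k : ℝ) = 1 + 1 / ((k : ℝ) - 1) := by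
    field_simp
    ring
  obtain ⟨C₀, hC₀, hbr⟩ := br_total (n := n) hk hkn α A hα hA
  obtain ⟨C, hC⟩ : ∃ C : ℝ, C = C₀ + ((k : ℝ) - 1) * (C₀ + 1) + (4 * C₀) ^ ((k : ℝ) - 1) :=
    ⟨_, rfl⟩
  have g1 : 0 ≤ ((k : ℝ) - 1) * (C₀ + 1) := by
    have : 0 ≤ C₀ + 1 := by linarith
    positivity
  have g2 : 0 ≤ (4 * C₀) ^ ((k : ℝ) - 1) := by positivity
  refine ⟨C, by linarith, ?_⟩
  intro K hK δ hδ hδ1 ι _ a e he hDim Y hY hYT lam hlam hmass
  obtain ⟨hK4, hbr⟩ := hbr K (by linarith)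
  have hb := hbr δ hδ hδ1 ι a e he hDim
  have hK4r : (4 : ℝ) ≤ K := by exact_mod_cast hK4
  have hK0 : (0 : ℝ) < K := by linarith
  have hKl : 0 < Real.log K := Real.log_pos (by linarith)
  obtain ⟨v, hv⟩ : ∃ v, v = 1 / δ := ⟨_, rfl⟩
  have hv1 : 1 ≤ v := by rw [hv, le_div_iff₀ hδ]; linarith
  have hv0 : 0 < v := by linarith
  obtain ⟨X, hX⟩ : ∃ X, X = Real.log v / Real.log K := ⟨_, rfl⟩
  have hX0 : 0 ≤ X := by
    rw [hX]
    exact div_nonneg (Real.log_nonneg hv1) hKl.le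
  rw [← hv, ← hX] at hb
  rw [← hv, ← hX]
  obtain ⟨M, hM1, hM2⟩ := exists_nat_pow_near hv1 (by linarith : (1 : ℝ) < K)
  have hMX : (2 : ℝ) ^ M ≤ 2 ^ X := by
    rw [hX]
    exact pow_le_log (by norm_num) (by linarith) hM1
  have hMM : (M : ℝ) ≤ 2 ^ X := by
    refine le_trans ?_ hMX
    exact_mod_cast Nat.lt_two_pow_self.le
  obtain ⟨l, hl⟩ : ∃ l, l = max (α / ((k : ℝ) - 1) - 1) 0 := ⟨_, rfl⟩
  rw [← hl] at hb
  obtain ⟨u, hu⟩ : ∃ u, u = 2 * 4 ^ X * ((K : ℝ) ^ C₀ * C₀ ^ X * v ^ l) / lam := ⟨_, rfl⟩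
  have hC₀0 : 0 < C₀ := by linarith
  have hu0 : 0 < u := by rw [hu]; positivity
  have hth := thr_real hk hC₀ (by omega : 2 ≤ K) hX0 hv1 hlam hl (by linarith : _ ≤ C)
    (by linarith : _ ≤ C) hu
  obtain ⟨T, hT⟩ : ∃ T : ℝ≥0∞, T = ENNReal.ofReal (u ^ ((k : ℝ) - 1)) := ⟨_, rfl⟩
  have hT0 : T ≠ 0 := by
    rw [hT, ne_eq, ENNReal.ofReal_eq_zero, not_le]
    positivity
  have hTt : T ≠ ∞ := by rw [hT]; exact ENNReal.ofReal_ne_top
  have hTp : T ^ (-(1 / ((k : ℝ) - 1))) = ENNReal.ofReal (1 / u) := by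
    rw [hT, ENNReal.ofReal_rpow_of_pos (by positivity), ← Real.rpow_mul hu0.le]
    congr 1
    have : ((k : ℝ) - 1) * -(1 / ((k : ℝ) - 1)) = -1 := by field_simp
    rw [this, Real.rpow_neg_one, one_div]
  -- the refinement
  obtain ⟨Z, hZ⟩ : ∃ Z : ι → Set (E n), ∀ i, Z i = {x | i ∈ prn (cell K e) e
      (fun m => 1 / (K : ℝ) ^ (m + 1)) k T M (shd Y x)} := ⟨_, fun _ => rfl⟩
  have hZm : ∀ i, MeasurableSet (Z i) := fun i => by
    rw [hZ]
    exact measurableSet_shd Y hY (fun S => i ∈ prn (cell K e) e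
      (fun m => 1 / (K : ℝ) ^ (m + 1)) k T M S)
  have hprn : ∀ x i, i ∈ prn (cell K e) e (fun m => 1 / (K : ℝ) ^ (m + 1)) k T M (shd Y x) ↔
      x ∈ Z i := fun x i => by rw [hZ]; rfl
  refine ⟨Z, hZm, fun i x hx => ?_, ?_, fun x m hm τ => ?_⟩
  · have h1 := (hprn x i).2 hx
    exact (mem_shd Y x i).1 (prn_anti (cell K e) e _ k T (Nat.zero_le M) (shd Y x) h1)
  · -- the mass
    have h1 : ∀ x, ((shd Y x).card : ℝ≥0∞) ≤ 2 ^ M * (((prn (cell K e) e
        (fun m => 1 / (K : ℝ) ^ (m + 1)) k T M (shd Y x)).card : ℝ≥0∞) +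
        T ^ (-(1 / ((k : ℝ) - 1))) * ∑ m ∈ range M,
        ((2 * (((K ^ 2) ^ n : ℕ) : ℝ≥0∞)) ^ (1 + 1 / ((k : ℝ) - 1)) *
          Br (cell K e) e (fun m => 1 / (K : ℝ) ^ (m + 1)) k (fun _ => (1 : ℝ≥0∞))
            (1 / ((k : ℝ) - 1)) (thr δ a e x) m)) := by
      intro x
      refine prn_mass (cell K e) e (fun m => 1 / (K : ℝ) ^ (m + 1)) ((K ^ 2) ^ n)
        (Nat.one_le_pow _ _ (by positivity)) hk hp0 hpk hT0 hTt M (fun m _ => by positivity)
        (fun m τ => cell_card (by omega) e m τ) (shd Y x) (thr δ a e x) ?_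
      intro i hi
      rw [mem_thr]
      exact hYT i ((mem_shd Y x i).1 hi)
    have h2 : ∑ i, volume (Y i) ≤ 2 ^ M * (∑ i, volume (Z i) +
        T ^ (-(1 / ((k : ℝ) - 1))) * ∑ m ∈ range M,
        ((2 * (((K ^ 2) ^ n : ℕ) : ℝ≥0∞)) ^ (1 + 1 / ((k : ℝ) - 1)) *
          ∫⁻ x, Br (cell K e) e (fun m => 1 / (K : ℝ) ^ (m + 1)) k (fun _ => (1 : ℝ≥0∞))
            (1 / ((k : ℝ) - 1)) (thr δ a e x) m)) := by
      rw [← lintegral_card Y hY (shd Y) (fun x i => mem_shd Y x i),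
        ← lintegral_card Z hZm _ hprn]
      have m1 : Measurable fun x => ((prn (cell K e) e
          (fun m => 1 / (K : ℝ) ^ (m + 1)) k T M (shd Y x)).card : ℝ≥0∞) := by
        have e1 : ∀ x, ((prn (cell K e) e (fun m => 1 / (K : ℝ) ^ (m + 1)) k T M
            (shd Y x)).card : ℝ≥0∞) = ∑ i, (Z i).indicator (fun _ => (1 : ℝ≥0∞)) x := by
          intro x
          rw [← card_one, ← Finset.sum_subset (Finset.subset_univ _)]
          · refine Finset.sum_congr rfl fun i hi => ?_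
            rw [Set.indicator_of_mem ((hprn x i).1 hi)]
          · intro i _ hi
            rw [Set.indicator_of_notMem (fun h => hi ((hprn x i).2 h))]
        simp only [e1]
        exact Finset.measurable_sum _ fun i _ => measurable_const.indicator (hZm i)
      have m2 : ∀ m, Measurable fun x =>
          Br (cell K e) e (fun m => 1 / (K : ℝ) ^ (m + 1)) k (fun _ => (1 : ℝ≥0∞))
            (1 / ((k : ℝ) - 1)) (thr δ a e x) m := fun m =>
        measurable_thr δ a e (fun S => Br (cell K e) e (fun m => 1 / (K : ℝ) ^ (m + 1)) k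
          (fun _ => (1 : ℝ≥0∞)) (1 / ((k : ℝ) - 1)) S m)
      refine (lintegral_mono h1).trans (le_of_eq ?_)
      exact lint_aux m1 m2 _ _ _ M
    have hYf : ∑ i, volume (Y i) ≠ ∞ := by
      rw [ENNReal.sum_ne_top]
      intro i _
      exact ((measure_mono (hYT i)).trans_lt ((volume_tube (by omega) hδ hδ1 (a i) (e i)
        (he i)).trans_lt ENNReal.ofReal_lt_top)).ne
    have h3 : 2 ^ M * (T ^ (-(1 / ((k : ℝ) - 1))) * ∑ m ∈ range M,
        ((2 * (((K ^ 2) ^ n : ℕ) : ℝ≥0∞)) ^ (1 + 1 / ((k : ℝ) - 1)) *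
          ∫⁻ x, Br (cell K e) e (fun m => 1 / (K : ℝ) ^ (m + 1)) k (fun _ => (1 : ℝ≥0∞))
            (1 / ((k : ℝ) - 1)) (thr δ a e x) m)) ≤ (∑ i, volume (Y i)) / 2 := by
      have h4 : ∑ m ∈ range M,
          ((2 * (((K ^ 2) ^ n : ℕ) : ℝ≥0∞)) ^ (1 + 1 / ((k : ℝ) - 1)) *
          ∫⁻ x, Br (cell K e) e (fun m => 1 / (K : ℝ) ^ (m + 1)) k (fun _ => (1 : ℝ≥0∞))
            (1 / ((k : ℝ) - 1)) (thr δ a e x) m) ≤
          ENNReal.ofReal (2 ^ X) * (ENNReal.ofReal ((K : ℝ) ^ C₀ * C₀ ^ X *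
            (v ^ l * δ ^ (n - 1))) * Fintype.card ι) := by
        refine (Finset.sum_le_card_nsmul _ _ _ (fun m hm => hb m ?_)).trans ?_
        · rw [Finset.mem_range] at hm
          exact (pow_le_pow_right₀ (by linarith) hm.le).trans hM1
        · rw [Finset.card_range, nsmul_eq_mul]
          refine mul_le_mul_left ?_ _
          rw [← ENNReal.ofReal_natCast]
          exact ENNReal.ofReal_le_ofReal hMM
      have h5 : (2 : ℝ≥0∞) ^ M ≤ ENNReal.ofReal (2 ^ X) := by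
        have : (2 : ℝ≥0∞) ^ M = ENNReal.ofReal (2 ^ M) := by
          rw [ENNReal.ofReal_pow (by norm_num)]
          norm_num
        rw [this]
        exact ENNReal.ofReal_le_ofReal hMX
      calc _ ≤ ENNReal.ofReal (2 ^ X) * (ENNReal.ofReal (1 / u) * (ENNReal.ofReal (2 ^ X) *
            (ENNReal.ofReal ((K : ℝ) ^ C₀ * C₀ ^ X *
            (v ^ l * δ ^ (n - 1))) * Fintype.card ι))) := by
            rw [hTp]
            exact mul_le_mul' h5 (mul_le_mul_right h4 _)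
        _ = ENNReal.ofReal (1 / 2) * (ENNReal.ofReal (lam * δ ^ (n - 1)) * Fintype.card ι) := by
            rw [← mul_assoc (ENNReal.ofReal (1 / 2)), ← ENNReal.ofReal_mul (by norm_num),
              ← mul_assoc, ← mul_assoc, ← mul_assoc,
              ← ENNReal.ofReal_mul (by positivity), ← ENNReal.ofReal_mul (by positivity),
              ← ENNReal.ofReal_mul (by positivity)]
            congr 2
            have h44 : (4 : ℝ) ^ X = 2 ^ X * 2 ^ X := by
              rw [← Real.mul_rpow (by norm_num) (by norm_num)]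
              norm_num
            have hw : (K : ℝ) ^ C₀ * C₀ ^ X * v ^ l ≠ 0 := by positivity
            have h22 : (2 : ℝ) ^ X ≠ 0 := by positivity
            rw [hu, h44]
            field_simp
        _ ≤ ENNReal.ofReal (1 / 2) * ∑ i, volume (Y i) := mul_le_mul_right hmass _
        _ = _ := by
            rw [ENNReal.div_eq_inv_mul]
            congr 1
            rw [one_div, ENNReal.ofReal_inv_of_pos (by norm_num)]
            norm_num
    have h6 : ∑ i, volume (Y i) ≤ 2 ^ M * ∑ i, volume (Z i) + (∑ i, volume (Y i)) / 2 := by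
      refine h2.trans ?_
      rw [mul_add]
      exact add_le_add le_rfl h3
    have h7 : (∑ i, volume (Y i)) / 2 ≤ 2 ^ M * ∑ i, volume (Z i) := by
      have h8 : (∑ i, volume (Y i)) / 2 + (∑ i, volume (Y i)) / 2 ≤
          2 ^ M * ∑ i, volume (Z i) + (∑ i, volume (Y i)) / 2 := by
        rwa [ENNReal.add_halves]
      exact (ENNReal.add_le_add_iff_right (ENNReal.div_ne_top hYf (by simp))).1 h8
    rw [ENNReal.div_le_iff' (by simp) (by simp)] at h7
    refine h7.trans ?_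
    rw [← mul_assoc]
    refine mul_le_mul_left ?_ _
    rw [ENNReal.ofReal_mul (by norm_num)]
    refine mul_le_mul' (by norm_num) ?_
    have : (2 : ℝ≥0∞) ^ M = ENNReal.ofReal (2 ^ M) := by
      rw [ENNReal.ofReal_pow (by norm_num)]
      norm_num
    rw [this]
    exact ENNReal.ofReal_le_ofReal hMX
  · -- the structure
    have hmM : m < M := by
      by_contra h
      push Not at h
      have : (K : ℝ) ^ (M + 1) ≤ (K : ℝ) ^ (m + 1) :=
        pow_le_pow_right₀ (by linarith) (by omega)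
      linarith
    rcases prn_struct (cell K e) e (fun m => 1 / (K : ℝ) ^ (m + 1)) (by omega : 1 ≤ k) T M
      (shd Y x) m hmM τ with h1 | ⟨V, hV, h1⟩
    · left
      refine le_trans ?_ hth
      have e2 : Nat.card {i // x ∈ Z i ∧ cell K e m i = τ} = ((prn (cell K e) e
          (fun m => 1 / (K : ℝ) ^ (m + 1)) k T M (shd Y x)).filter
          (fun i => cell K e m i = τ)).card := by
        rw [Nat.card_eq_fintype_card, Fintype.card_subtype]
        congr 1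
        ext i
        simp only [Finset.mem_filter, Finset.mem_univ, true_and, hprn]
      rw [e2]
      have h2 := h1.trans (le_of_eq hT)
      rw [← ENNReal.ofReal_natCast] at h2
      exact (ENNReal.ofReal_le_ofReal_iff (by positivity)).1 h2
    · right
      refine ⟨V, hV, fun i hi hτ => h1 i ?_⟩
      rw [Finset.mem_filter]
      exact ⟨(hprn x i).2 hi, hτ⟩

end Tree3

end Pool.Agent.H565.PL
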