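import Pool.Agent.H565.PL.Tree3
import Pool.Agent.H565.MK.Fam
set_option autoImplicit false

/-!
# The Kakeya inequality for shadings which are plany at all scales implies the general one
-/

namespace Pool.Agent.H565.PL
open MeasureTheory Finset Metric
open scoped ENNReal
open Pool.Agent.H565.MK

section Tree4

variable {n : ℕ}

/-- The shading is plany at all scales, except for bushes of at most `T` tubes. -/
def Plany {ι : Type} (k K : ℕ) (T δ : ℝ) (e : ι → E n) (Y : ι → Set (E n)) : Prop :=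
  ∀ (x : E n) (m : ℕ), (K : ℝ) ^ (m + 1) ≤ 1 / δ → ∀ τ : Fin n → ℤ,
    (Nat.card {i // x ∈ Y i ∧ cell K e m i = τ} : ℝ) ≤ T ∨
    ∃ V : Submodule ℝ (E n), Module.finrank ℝ V < k ∧
      ∀ i, x ∈ Y i → cell K e m i = τ → infDist (e i) V ≤ 1 / (K : ℝ) ^ (m + 1)

/-- The restricted conjecture with the loss `δ ^ (-ε)`. -/
def PlanyConj (n : ℕ) (D η ε : ℝ) : Prop :=
  ∃ C : ℝ, ∀ δ : ℝ, 0 < δ → δ < 1 → ∀ (ι : Type) [Fintype ι] [Nonempty ι]
    (a e : ι → E n), (∀ i, ‖e i‖ = 1) → (∀ i j, i ≠ j → δ ≤ ‖e i - e j‖) →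
    ∀ K : ℕ, K = ⌈(1 / δ) ^ η⌉₊ →
    ∀ Y : ι → Set (E n), (∀ i, MeasurableSet (Y i)) → (∀ i, Y i ⊆ tube δ (a i) (e i)) →
    ∀ lam μ : ℝ, 0 < lam → 0 < μ →
    ENNReal.ofReal (lam * δ ^ (n - 1)) * Fintype.card ι ≤ ∑ i, volume (Y i) →
    (∀ i, ∀ x ∈ Y i, μ ≤ Nat.card {j // x ∈ Y j}) →
    Plany n K ((K : ℝ) ^ D / lam ^ ((n : ℝ) - 1)) δ e Y →
    μ * lam ^ ((n : ℝ) - 1) ≤ C * (1 / δ) ^ ε

theorem card_shd {ι : Type} [Fintype ι] (Y : ι → Set (E n)) (x : E n) :
    Nat.card {j // x ∈ Y j} = (shd Y x).card := by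
  classical
  rw [Nat.card_eq_fintype_card, Fintype.card_subtype]
  rfl

theorem measurable_shd_card {ι : Type} [Fintype ι] (Y : ι → Set (E n))
    (hY : ∀ i, MeasurableSet (Y i)) : Measurable fun x => ((shd Y x).card : ℝ≥0∞) := by
  classical
  have e1 : ∀ x, ((shd Y x).card : ℝ≥0∞) = ∑ i, (Y i).indicator (fun _ => (1 : ℝ≥0∞)) x := by
    intro x
    rw [← card_one, ← Finset.sum_subset (Finset.subset_univ _)]
    · refine Finset.sum_congr rfl fun i hi => ?_
      rw [Set.indicator_of_mem ((mem_shd Y x i).1 hi)]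
    · intro i _ hi
      rw [Set.indicator_of_notMem (fun h => hi ((mem_shd Y x i).2 h))]
  simp only [e1]
  exact Finset.measurable_sum _ fun i _ => measurable_const.indicator (hY i)

theorem thr_eq_shd {ι : Type} [Fintype ι] (δ : ℝ) (a e : ι → E n) (x : E n) :
    thr δ a e x = shd (fun i => tube δ (a i) (e i)) x := by
  ext i
  rw [mem_thr, mem_shd]

/-- The total volume of the tubes. -/
theorem total_le {ι : Type} [Fintype ι] (hn : 1 ≤ n) {δ : ℝ} (hδ : 0 < δ) (hδ1 : δ ≤ 1)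
    (a e : ι → E n) (he : ∀ i, ‖e i‖ = 1) (Y : ι → Set (E n))
    (hYT : ∀ i, Y i ⊆ tube δ (a i) (e i)) :
    ∑ i, volume (Y i) ≤
      ENNReal.ofReal ((n.factorial : ℝ) * 6 ^ n * δ ^ (n - 1)) * Fintype.card ι := by
  calc ∑ i, volume (Y i) ≤ ∑ _i : ι, ENNReal.ofReal ((n.factorial : ℝ) * 6 ^ n * δ ^ (n - 1)) :=
        Finset.sum_le_sum fun i _ => (measure_mono (hYT i)).trans
          (volume_tube hn hδ hδ1 (a i) (e i) (he i))
    _ = _ := by rw [Finset.sum_const, Finset.card_univ, nsmul_eq_mul, mul_comm]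

/-- The number of the tubes. -/
theorem card_le (hn : 1 ≤ n) : ∃ A : ℝ, 1 ≤ A ∧ ∀ δ : ℝ, 0 < δ → δ < 1 →
    ∀ (ι : Type) [Fintype ι] (e : ι → E n), (∀ i, ‖e i‖ = 1) →
    (∀ i j, i ≠ j → δ ≤ ‖e i - e j‖) → (Fintype.card ι : ℝ) ≤ A * (1 / δ) ^ ((n : ℝ) - 1) := by
  classical
  obtain ⟨A, hA, h⟩ := count_dirs (n := n) hn
  have hn1 : (1 : ℝ) ≤ n := by exact_mod_cast hn
  have h2 : (1 : ℝ) ≤ 2 ^ ((n : ℝ) - 1) := Real.one_le_rpow (by norm_num) (by linarith)
  refine ⟨A * 2 ^ ((n : ℝ) - 1), by nlinarith, ?_⟩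
  intro δ hδ hδ1 ι _ e he hsep
  rcases isEmpty_or_nonempty ι with hemp | ⟨⟨i⟩⟩
  · rw [Fintype.card_eq_zero]
    push_cast
    positivity
  · have h3 := h δ hδ hδ1 ι e he hsep i 2 (by linarith)
    have h4 : Nat.card {j // ‖e j - e i‖ ≤ 2} = Fintype.card ι := by
      rw [Nat.card_eq_fintype_card, Fintype.card_subtype, ← Finset.card_univ]
      congr 1
      ext j
      simp only [Finset.mem_filter, Finset.mem_univ, true_and, iff_true]
      calc ‖e j - e i‖ ≤ ‖e j‖ + ‖e i‖ := norm_sub_le _ _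
        _ = 2 := by rw [he, he]; norm_num
    rw [h4] at h3
    refine h3.trans (le_of_eq ?_)
    rw [mul_assoc, ← Real.mul_rpow (by norm_num) (by positivity)]
    congr 2
    ring

/-- **From the inequality of the problem to the restricted statement.** -/
theorem plany_of (hn : 2 ≤ n)
    (h : ∀ q : ℝ, (n : ℝ) / ((n : ℝ) - 1) < q → ∃ C : ℝ, 0 < C ∧ ∀ δ : ℝ, 0 < δ → δ < 1 →
      ∀ (ι : Type) [Fintype ι] (a e : ι → E n), (∀ i, ‖e i‖ = 1) →
      (∀ i j, i ≠ j → δ ≤ ‖e i - e j‖) →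
      ∫⁻ x, ((thr δ a e x).card : ℝ≥0∞) ^ q ≤
        ENNReal.ofReal (C * (δ ^ (n - 1) * (Fintype.card ι : ℝ) ^ (q - 1 / ((n : ℝ) - 1)))))
    (ε : ℝ) (hε : 0 < ε) : ∃ C : ℝ, ∀ δ : ℝ, 0 < δ → δ < 1 →
      ∀ (ι : Type) [Fintype ι] [Nonempty ι] (a e : ι → E n), (∀ i, ‖e i‖ = 1) →
      (∀ i j, i ≠ j → δ ≤ ‖e i - e j‖) →
      ∀ Y : ι → Set (E n), (∀ i, MeasurableSet (Y i)) → (∀ i, Y i ⊆ tube δ (a i) (e i)) →
      ∀ lam μ : ℝ, 0 < lam → 0 < μ →
      ENNReal.ofReal (lam * δ ^ (n - 1)) * Fintype.card ι ≤ ∑ i, volume (Y i) →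
      (∀ i, ∀ x ∈ Y i, μ ≤ Nat.card {j // x ∈ Y j}) →
      μ * lam ^ ((n : ℝ) - 1) ≤ C * (1 / δ) ^ ε := by
  classical
  have hn2 : (2 : ℝ) ≤ n := by exact_mod_cast hn
  obtain ⟨s, hs⟩ : ∃ s, s = (n : ℝ) - 1 := ⟨_, rfl⟩
  have hs1 : 1 ≤ s := by linarith
  have hs0 : 0 < s := by linarith
  obtain ⟨θ, hθ⟩ : ∃ θ, θ = ε / (s * s) := ⟨_, rfl⟩
  have hθ0 : 0 < θ := by rw [hθ]; positivity
  have hq : (n : ℝ) / ((n : ℝ) - 1) < 1 + 1 / s + θ := by
    rw [← hs]
    have : (n : ℝ) / s = 1 + 1 / s := by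
      rw [hs]
      have : (n : ℝ) - 1 ≠ 0 := by linarith
      field_simp
      ring
    linarith
  obtain ⟨C, hC, hH⟩ := h _ hq
  obtain ⟨A, hA, hcard⟩ := card_le (n := n) (by omega)
  obtain ⟨q, hqe⟩ : ∃ q, q = 1 + 1 / s + θ := ⟨_, rfl⟩
  rw [← hqe] at hH
  have hq1 : 1 < q := by
    have : 0 < 1 / s := by positivity
    linarith
  refine ⟨(C * A ^ θ) ^ s + ((n.factorial : ℝ) * 6 ^ n) ^ s, ?_⟩
  intro δ hδ hδ1 ι _ _ a e he hsep Y hY hYT lam μ hlam hμ hmass hmult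
  have hN0 : (0 : ℝ) < Fintype.card ι := by exact_mod_cast Fintype.card_pos
  have hN := hcard δ hδ hδ1 ι e he hsep
  rw [← hs] at hN ⊢
  have hδinv : 1 ≤ 1 / δ := by rw [le_div_iff₀ hδ]; linarith
  have hd : 0 < δ ^ (n - 1) := by positivity
  -- the density is bounded
  have htot := hmass.trans (total_le (by omega) hδ hδ1.le a e he Y hYT)
  have hlam2 : lam ≤ (n.factorial : ℝ) * 6 ^ n := by
    rw [← ENNReal.ofReal_natCast, ← ENNReal.ofReal_mul (by positivity),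
      ← ENNReal.ofReal_mul (by positivity), ENNReal.ofReal_le_ofReal_iff (by positivity)] at htot
    have h1 := le_of_mul_le_mul_right htot hN0
    exact le_of_mul_le_mul_right h1 hd
  have hp1 : 1 ≤ (1 / δ) ^ ε := Real.one_le_rpow hδinv hε.le
  have hCA : 0 ≤ (C * A ^ θ) ^ s := by positivity
  have hnn : 0 ≤ ((n.factorial : ℝ) * 6 ^ n) ^ s := by positivity
  rcases le_or_gt μ 1 with hμ1 | hμ1
  · calc μ * lam ^ s ≤ 1 * ((n.factorial : ℝ) * 6 ^ n) ^ s := by
          refine mul_le_mul hμ1 (Real.rpow_le_rpow hlam.le hlam2 hs0.le) (by positivity)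
            zero_le_one
      _ ≤ ((C * A ^ θ) ^ s + ((n.factorial : ℝ) * 6 ^ n) ^ s) * 1 := by linarith
      _ ≤ _ := mul_le_mul_of_nonneg_left hp1 (by positivity)
  · -- the main case
    have h1 := hH δ hδ hδ1 ι a e he hsep
    have h2 : ENNReal.ofReal (μ ^ (q - 1)) * ∑ i, volume (Y i) ≤
        ∫⁻ x, ((thr δ a e x).card : ℝ≥0∞) ^ q := by
      rw [← lintegral_card Y hY (shd Y) (fun x i => mem_shd Y x i),
        ← lintegral_const_mul _ (measurable_shd_card Y hY)]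
      refine lintegral_mono fun x => ?_
      have h3 : ((shd Y x).card : ℝ≥0∞) ≤ ((thr δ a e x).card : ℝ≥0∞) := by
        have : shd Y x ⊆ thr δ a e x := by
          intro i hi
          rw [mem_thr]
          exact hYT i ((mem_shd Y x i).1 hi)
        exact_mod_cast Finset.card_le_card this
      rcases Finset.eq_empty_or_nonempty (shd Y x) with h4 | ⟨i, hi⟩
      · simp only [h4, Finset.card_empty, Nat.cast_zero, mul_zero]
        exact zero_le
      · have h5 : ENNReal.ofReal μ ≤ ((shd Y x).card : ℝ≥0∞) := by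
          rw [← ENNReal.ofReal_natCast, ← card_shd]
          exact ENNReal.ofReal_le_ofReal (hmult i x ((mem_shd Y x i).1 hi))
        calc ENNReal.ofReal (μ ^ (q - 1)) * ((shd Y x).card : ℝ≥0∞)
            = ENNReal.ofReal μ ^ (q - 1) * ((shd Y x).card : ℝ≥0∞) := by
              rw [ENNReal.ofReal_rpow_of_nonneg hμ.le (by linarith)]
          _ ≤ ((thr δ a e x).card : ℝ≥0∞) ^ (q - 1) * ((thr δ a e x).card : ℝ≥0∞) := by
              refine mul_le_mul' (ENNReal.rpow_le_rpow (h5.trans h3) (by linarith)) h3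
          _ = ((thr δ a e x).card : ℝ≥0∞) ^ q := by
              nth_rewrite 2 [← ENNReal.rpow_one ((thr δ a e x).card : ℝ≥0∞)]
              rw [← ENNReal.rpow_add_of_nonneg _ _ (by linarith) zero_le_one]
              congr 1
              ring
    have h3 : μ ^ (q - 1) * (lam * δ ^ (n - 1) * Fintype.card ι) ≤
        C * (δ ^ (n - 1) * (Fintype.card ι : ℝ) ^ (q - 1 / s)) := by
      have h4 := ((mul_le_mul_right hmass (ENNReal.ofReal (μ ^ (q - 1)))).trans h2).trans h1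
      rw [← hs, ← ENNReal.ofReal_natCast, ← ENNReal.ofReal_mul (by positivity),
        ← ENNReal.ofReal_mul (by positivity), ENNReal.ofReal_le_ofReal_iff (by positivity)] at h4
      exact h4
    have e1 : (Fintype.card ι : ℝ) ^ (q - 1 / s) = (Fintype.card ι : ℝ) *
        (Fintype.card ι : ℝ) ^ θ := by
      have : q - 1 / s = 1 + θ := by rw [hqe]; ring
      rw [this, Real.rpow_add hN0, Real.rpow_one]
    have h4 : μ ^ (q - 1) * lam ≤ C * (Fintype.card ι : ℝ) ^ θ := by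
      rw [e1] at h3
      have h5 : (μ ^ (q - 1) * lam) * (δ ^ (n - 1) * Fintype.card ι) ≤
          (C * (Fintype.card ι : ℝ) ^ θ) * (δ ^ (n - 1) * Fintype.card ι) := by
        calc _ = μ ^ (q - 1) * (lam * δ ^ (n - 1) * Fintype.card ι) := by ring
          _ ≤ _ := h3
          _ = _ := by ring
      exact le_of_mul_le_mul_right h5 (by positivity)
    have h5 : μ ^ (q - 1) * lam ≤ C * A ^ θ * (1 / δ) ^ (s * θ) := by
      refine h4.trans ?_
      rw [mul_assoc]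
      refine mul_le_mul_of_nonneg_left ?_ hC.le
      calc (Fintype.card ι : ℝ) ^ θ ≤ (A * (1 / δ) ^ s) ^ θ :=
            Real.rpow_le_rpow hN0.le hN hθ0.le
        _ = _ := by
            rw [Real.mul_rpow (by linarith) (by positivity), ← Real.rpow_mul (by positivity)]
    have h6 : (μ ^ (q - 1) * lam) ^ s ≤ (C * A ^ θ * (1 / δ) ^ (s * θ)) ^ s :=
      Real.rpow_le_rpow (by positivity) h5 hs0.le
    have e2 : (C * A ^ θ * (1 / δ) ^ (s * θ)) ^ s = (C * A ^ θ) ^ s * (1 / δ) ^ ε := by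
      rw [Real.mul_rpow (by positivity) (by positivity), ← Real.rpow_mul (by positivity)]
      congr 2
      rw [hθ]
      field_simp
    rw [e2, Real.mul_rpow (by positivity) hlam.le, ← Real.rpow_mul hμ.le] at h6
    have h7 : μ ≤ μ ^ ((q - 1) * s) := by
      have h8 : (1 : ℝ) ≤ (q - 1) * s := by
        rw [hqe]
        have : (1 + 1 / s + θ - 1) * s = 1 + θ * s := by field_simp; ring
        rw [this]
        have : 0 < θ * s := by positivity
        linarith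
      calc μ = μ ^ (1 : ℝ) := (Real.rpow_one μ).symm
        _ ≤ _ := Real.rpow_le_rpow_of_exponent_le hμ1.le h8
    calc μ * lam ^ s ≤ μ ^ ((q - 1) * s) * lam ^ s :=
          mul_le_mul_of_nonneg_right h7 (by positivity)
      _ ≤ (C * A ^ θ) ^ s * (1 / δ) ^ ε := h6
      _ ≤ _ := by
          refine mul_le_mul_of_nonneg_right ?_ (by positivity)
          linarith

end Tree4

end Pool.Agent.H565.PL
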