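import Pool.Agent.H565.PL.Tree4
set_option autoImplicit false

/-!
# From the restricted conjecture to the inequality of the problem
-/

namespace Pool.Agent.H565.PL
open MeasureTheory Finset Metric
open scoped ENNReal
open Pool.Agent.H565.MK

section Tree5

variable {n : ℕ}

/-- The mass of the part of a refinement where the multiplicity is large. -/
theorem large_part {ι : Type} [Fintype ι] (Z : ι → Set (E n)) (hZ : ∀ i, MeasurableSet (Z i))
    (Eset : Set (E n)) (hE : MeasurableSet Eset) (hZE : ∀ i, Z i ⊆ Eset) (μ VE : ℝ) (hμ : 0 < μ)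
    (hVE : volume Eset = ENNReal.ofReal VE) (hVE0 : 0 ≤ VE)
    (hmass : ENNReal.ofReal (2 * μ * VE) ≤ ∑ i, volume (Z i)) :
    ∃ W : ι → Set (E n), (∀ i, MeasurableSet (W i)) ∧ (∀ i, W i ⊆ Z i) ∧
      ENNReal.ofReal (μ * VE) ≤ ∑ i, volume (W i) ∧
      ∀ i, ∀ x ∈ W i, μ ≤ Nat.card {j // x ∈ W j} := by
  classical
  obtain ⟨E', hE'⟩ : ∃ E' : Set (E n), E' = {x | μ ≤ ((shd Z x).card : ℝ)} := ⟨_, rfl⟩
  have hE'm : MeasurableSet E' := by
    rw [hE']
    exact measurableSet_shd Z hZ (fun S => μ ≤ (S.card : ℝ))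
  refine ⟨fun i => Z i ∩ E', fun i => (hZ i).inter hE'm, fun i => Set.inter_subset_left, ?_, ?_⟩
  · have h1 : ∀ i, volume (Z i) = volume (Z i ∩ E') + volume (Z i \ E') := fun i =>
      (measure_inter_add_diff (Z i) hE'm).symm
    have h2 : ∑ i, volume (Z i \ E') ≤ ENNReal.ofReal (μ * VE) := by
      rw [← lintegral_card (fun i => Z i \ E') (fun i => (hZ i).diff hE'm)
        (shd (fun i => Z i \ E')) (fun x i => mem_shd _ x i), ENNReal.ofReal_mul hμ.le, ← hVE,
        ← setLIntegral_const]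
      rw [← lintegral_indicator hE]
      refine lintegral_mono fun x => ?_
      rcases Finset.eq_empty_or_nonempty (shd (fun i => Z i \ E') x) with h3 | ⟨i, hi⟩
      · simp only [h3, Finset.card_empty, Nat.cast_zero]
        exact zero_le
      · rw [mem_shd] at hi
        rw [Set.indicator_of_mem (hZE i hi.1)]
        have h4 : shd (fun i => Z i \ E') x ⊆ shd Z x := by
          intro j hj
          rw [mem_shd] at hj ⊢
          exact hj.1
        have h5 : ((shd Z x).card : ℝ) < μ := by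
          have := hi.2
          rw [hE', Set.mem_ofPred_eq, not_le] at this
          exact this
        calc ((shd (fun i => Z i \ E') x).card : ℝ≥0∞) ≤ ((shd Z x).card : ℝ≥0∞) := by
              exact_mod_cast Finset.card_le_card h4
          _ = ENNReal.ofReal ((shd Z x).card : ℝ) := (ENNReal.ofReal_natCast _).symm
          _ ≤ ENNReal.ofReal μ := ENNReal.ofReal_le_ofReal h5.le
    have h3 : ENNReal.ofReal (μ * VE) + ENNReal.ofReal (μ * VE) ≤
        ∑ i, volume (Z i ∩ E') + ENNReal.ofReal (μ * VE) := by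
      calc ENNReal.ofReal (μ * VE) + ENNReal.ofReal (μ * VE) = ENNReal.ofReal (2 * μ * VE) := by
            rw [← ENNReal.ofReal_add (by positivity) (by positivity)]
            congr 1
            ring
        _ ≤ ∑ i, volume (Z i) := hmass
        _ = ∑ i, volume (Z i ∩ E') + ∑ i, volume (Z i \ E') := by
            rw [← Finset.sum_add_distrib]
            exact Finset.sum_congr rfl fun i _ => h1 i
        _ ≤ _ := by gcongr
    exact (ENNReal.add_le_add_iff_right ENNReal.ofReal_ne_top).1 h3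
  · rintro i x ⟨hx, hxE⟩
    rw [hE', Set.mem_ofPred_eq, ← card_shd] at hxE
    have : ∀ j, x ∈ Z j ∩ E' ↔ x ∈ Z j := fun j => by
      constructor
      · exact fun h => h.1
      · intro h
        refine ⟨h, ?_⟩
        rw [hE', Set.mem_ofPred_eq, ← card_shd]
        exact hxE
    simp only [this]
    exact hxE

/-- The real arithmetic of the weak type inequality. -/
theorem weak_arith {s t VE lam c D0 N C ε δ : ℝ} (hs : 0 < s) (ht : 0 < t) (hVE : 0 < VE)
    (hN : 0 < N) (hD0 : 0 < D0) (hc : 0 < c) (hlam : lam = t * VE / (D0 * N)) (hδ : 0 < δ)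
    (hmain : (t / c) * (lam / c) ^ s ≤ C * (1 / δ) ^ (ε * s)) :
    t ^ (1 + 1 / s) * VE ≤ ((|C| * c ^ (1 + s)) ^ (1 / s)) * (1 / δ) ^ ε * (D0 * N) := by
  have hlam0 : 0 < lam := by rw [hlam]; positivity
  have h1 : t * lam ^ s ≤ (|C| * c ^ (1 + s)) * (1 / δ) ^ (ε * s) := by
    have e1 : (t / c) * (lam / c) ^ s = t * lam ^ s / c ^ (1 + s) := by
      rw [Real.div_rpow hlam0.le hc.le, Real.rpow_add hc, Real.rpow_one]
      field_simp
    rw [e1, div_le_iff₀ (by positivity)] at hmain
    calc t * lam ^ s ≤ C * (1 / δ) ^ (ε * s) * c ^ (1 + s) := hmain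
      _ ≤ |C| * (1 / δ) ^ (ε * s) * c ^ (1 + s) := by
          have := le_abs_self C
          gcongr
      _ = _ := by ring
  have h2 : (t * lam ^ s) ^ (1 / s) ≤ ((|C| * c ^ (1 + s)) * (1 / δ) ^ (ε * s)) ^ (1 / s) :=
    Real.rpow_le_rpow (by positivity) h1 (by positivity)
  have e2 : (t * lam ^ s) ^ (1 / s) = t ^ (1 / s) * lam := by
    rw [Real.mul_rpow ht.le (by positivity), ← Real.rpow_mul hlam0.le, mul_one_div_cancel hs.ne',
      Real.rpow_one]
  have e3 : ((|C| * c ^ (1 + s)) * (1 / δ) ^ (ε * s)) ^ (1 / s) =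
      (|C| * c ^ (1 + s)) ^ (1 / s) * (1 / δ) ^ ε := by
    rw [Real.mul_rpow (by positivity) (by positivity), ← Real.rpow_mul (by positivity)]
    congr 2
    field_simp
  rw [e2, e3, hlam] at h2
  calc t ^ (1 + 1 / s) * VE = (t ^ (1 / s) * (t * VE / (D0 * N))) * (D0 * N) := by
        rw [Real.rpow_add ht, Real.rpow_one]
        field_simp
    _ ≤ _ := mul_le_mul_of_nonneg_right h2 (by positivity)

end Tree5

end Pool.Agent.H565.PL
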