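import Pool.Agent.H565.PL.Tree5
set_option autoImplicit false

/-!
# From the restricted conjecture to the inequality of the problem, continued
-/

namespace Pool.Agent.H565.PL
open MeasureTheory Finset Metric
open scoped ENNReal
open Pool.Agent.H565.MK

section Tree6

variable {n : ℕ}

/-- The set of the points where the multiplicity is about `t`. -/
def Et {ι : Type} [Fintype ι] (δ : ℝ) (a e : ι → E n) (t : ℝ) : Set (E n) :=
  {x | t ≤ ((thr δ a e x).card : ℝ) ∧ ((thr δ a e x).card : ℝ) < 2 * t}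

theorem measurableSet_Et {ι : Type} [Fintype ι] (δ : ℝ) (a e : ι → E n) (t : ℝ) :
    MeasurableSet (Et δ a e t) := by
  have h := measurableSet_shd (fun i => tube δ (a i) (e i))
    (fun i => measurableSet_tube δ (a i) (e i))
    (fun S => t ≤ (S.card : ℝ) ∧ (S.card : ℝ) < 2 * t)
  unfold Et
  simp only [thr_eq_shd]
  exact h

/-- The weak type inequality from the restricted conjecture. -/
theorem weak_of_plany (hn : 2 ≤ n) : ∃ D : ℝ, 1 ≤ D ∧ ∀ η : ℝ, 0 < η → ∀ ε : ℝ, 0 < ε →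
    PlanyConj n D η (ε * ((n : ℝ) - 1)) → ∃ C : ℝ, 0 ≤ C ∧ ∀ δ : ℝ, 0 < δ → δ < 1 →
      ∀ (ι : Type) [Fintype ι] (a e : ι → E n), (∀ i, ‖e i‖ = 1) →
      (∀ i j, i ≠ j → δ ≤ ‖e i - e j‖) → ∀ t : ℝ, 0 < t →
      ENNReal.ofReal (t ^ (1 + 1 / ((n : ℝ) - 1))) * volume (Et δ a e t) ≤
        ENNReal.ofReal (C * (1 / δ) ^ ε * (δ ^ (n - 1) * Fintype.card ι)) := by
  classical
  have hn2 : (2 : ℝ) ≤ n := by exact_mod_cast hn
  obtain ⟨A₀, hA₀, hdirs⟩ := count_dirs (n := n) (by omega)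
  obtain ⟨A, hA, hcard⟩ := card_le (n := n) (by omega)
  obtain ⟨C₁, hC₁, hpr⟩ := plany_refine (n := n) hn le_rfl ((n : ℝ) - 1) A₀ (by linarith)
    (by linarith)
  refine ⟨C₁ + 1, by linarith, ?_⟩
  intro η hη ε hε hconj
  obtain ⟨s, hs⟩ : ∃ s, s = (n : ℝ) - 1 := ⟨_, rfl⟩
  have hs1 : 1 ≤ s := by linarith
  have hs0 : 0 < s := by linarith
  obtain ⟨C₂, hC₂⟩ := hconj
  rw [← hs] at hC₂
  obtain ⟨B, hB⟩ : ∃ B, B = C₁ + C₁ ^ (1 / η) := ⟨_, rfl⟩
  have hC₁0 : 0 < C₁ := by linarith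
  have hB0 : 0 < B := by rw [hB]; positivity
  obtain ⟨c, hc⟩ : ∃ c : ℝ, c = 4 * 2 ^ (1 / η) := ⟨_, rfl⟩
  have hc1 : 1 ≤ c := by
    have : (1 : ℝ) ≤ 2 ^ (1 / η) := Real.one_le_rpow (by norm_num) (by positivity)
    linarith
  have hc0 : 0 < c := by linarith
  rw [← hs]
  refine ⟨(|C₂| * c ^ (1 + s)) ^ (1 / s) +
    (A * B ^ (s / η)) ^ (1 / s) * ((n.factorial : ℝ) * 6 ^ n), by positivity, ?_⟩
  intro δ hδ hδ1 ι _ a e he hsep t ht
  have hδinv : 1 ≤ 1 / δ := by rw [le_div_iff₀ hδ]; linarith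
  have hδinv0 : 0 < 1 / δ := by positivity
  have hd : 0 < δ ^ (n - 1) := by positivity
  have hpe : 1 ≤ (1 / δ) ^ ε := Real.one_le_rpow hδinv hε.le
  have hNr : (0 : ℝ) ≤ Fintype.card ι := Nat.cast_nonneg _
  have hEm := measurableSet_Et δ a e t
  -- the shading by the level set
  obtain ⟨Y, hYd⟩ : ∃ Y : ι → Set (E n), Y = fun i => tube δ (a i) (e i) ∩ Et δ a e t := ⟨_, rfl⟩
  have hYm : ∀ i, MeasurableSet (Y i) := fun i => by
    rw [hYd]
    exact (measurableSet_tube δ (a i) (e i)).inter hEm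
  have hYT : ∀ i, Y i ⊆ tube δ (a i) (e i) := fun i => by
    rw [hYd]
    exact Set.inter_subset_left
  have hYE : ∀ i, Y i ⊆ Et δ a e t := fun i => by
    rw [hYd]
    exact Set.inter_subset_right
  have hmassY : ENNReal.ofReal t * volume (Et δ a e t) ≤ ∑ i, volume (Y i) := by
    rw [← lintegral_card Y hYm (shd Y) (fun x i => mem_shd Y x i), ← setLIntegral_const,
      ← lintegral_indicator hEm]
    refine lintegral_mono fun x => ?_
    by_cases hx : x ∈ Et δ a e t
    · rw [Set.indicator_of_mem hx, ← ENNReal.ofReal_natCast]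
      refine ENNReal.ofReal_le_ofReal ?_
      have : shd Y x = thr δ a e x := by
        ext i
        rw [mem_shd, mem_thr, hYd]
        exact ⟨fun h => h.1, fun h => ⟨h, hx⟩⟩
      rw [this]
      exact hx.1
    · rw [Set.indicator_of_notMem hx]
      exact zero_le
  have htot := hmassY.trans (total_le (by omega) hδ hδ1.le a e he Y hYT)
  have hvolt : volume (Et δ a e t) ≠ ∞ := by
    intro h
    rw [h, ENNReal.mul_top (by
      rw [ne_eq, ENNReal.ofReal_eq_zero, not_le]; exact ht)] at htot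
    have : ENNReal.ofReal ((n.factorial : ℝ) * 6 ^ n * δ ^ (n - 1)) * (Fintype.card ι : ℝ≥0∞) <
      ∞ := ENNReal.mul_lt_top ENNReal.ofReal_lt_top (by simp)
    exact absurd htot (not_le.2 this)
  obtain ⟨VE, hVE⟩ : ∃ VE, VE = (volume (Et δ a e t)).toReal := ⟨_, rfl⟩
  have hVE0 : 0 ≤ VE := by rw [hVE]; exact ENNReal.toReal_nonneg
  have hVEv : volume (Et δ a e t) = ENNReal.ofReal VE := by
    rw [hVE, ENNReal.ofReal_toReal hvolt]
  rw [hVEv, ← ENNReal.ofReal_mul (by positivity)]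
  refine ENNReal.ofReal_le_ofReal ?_
  rw [hVEv, ← ENNReal.ofReal_mul ht.le, ← ENNReal.ofReal_natCast,
    ← ENNReal.ofReal_mul (by positivity), ENNReal.ofReal_le_ofReal_iff (by positivity)] at htot
  rcases hVE0.eq_or_lt with hV0 | hV0
  · rw [← hV0, mul_zero]
    positivity
  have hne : (Et δ a e t).Nonempty := by
    rw [Set.nonempty_iff_ne_empty]
    intro h
    rw [h, measure_empty] at hVEv
    have := hVEv.symm
    rw [ENNReal.ofReal_eq_zero] at this
    linarith
  obtain ⟨x₀, hx₀⟩ := hne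
  have htN : t ≤ Fintype.card ι := by
    refine hx₀.1.trans ?_
    exact_mod_cast Finset.card_le_univ _
  have hN0 : (0 : ℝ) < Fintype.card ι := lt_of_lt_of_le ht htN
  have hNA := hcard δ hδ hδ1 ι e he hsep
  rw [← hs] at hNA
  have hpos1 : 0 ≤ (|C₂| * c ^ (1 + s)) ^ (1 / s) := by positivity
  have hpos2 : 0 ≤ (A * B ^ (s / η)) ^ (1 / s) * ((n.factorial : ℝ) * 6 ^ n) := by positivity
  rcases lt_or_ge ((1 / δ) ^ η) B with hsm | hbig
  · -- `δ` is not small
    have h1 : (Fintype.card ι : ℝ) ≤ A * B ^ (s / η) := by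
      refine hNA.trans (mul_le_mul_of_nonneg_left ?_ (by linarith))
      calc (1 / δ) ^ s = ((1 / δ) ^ η) ^ (s / η) := by
            rw [← Real.rpow_mul hδinv0.le]
            congr 1
            field_simp
        _ ≤ B ^ (s / η) := Real.rpow_le_rpow (by positivity) hsm.le (by positivity)
    calc t ^ (1 + 1 / s) * VE = t ^ (1 / s) * (t * VE) := by
          rw [Real.rpow_add ht, Real.rpow_one]
          ring
      _ ≤ (A * B ^ (s / η)) ^ (1 / s) * (((n.factorial : ℝ) * 6 ^ n * δ ^ (n - 1)) *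
          Fintype.card ι) := by
          refine mul_le_mul (Real.rpow_le_rpow ht.le (htN.trans h1) (by positivity)) htot
            (by positivity) (by positivity)
      _ = ((A * B ^ (s / η)) ^ (1 / s) * ((n.factorial : ℝ) * 6 ^ n)) * 1 *
          (δ ^ (n - 1) * Fintype.card ι) := by ring
      _ ≤ _ := by
          refine mul_le_mul_of_nonneg_right ?_ (by positivity)
          refine mul_le_mul (by linarith) hpe zero_le_one (by positivity)
  · -- `δ` is small
    have hNe : Nonempty ι := by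
      rw [← Fintype.card_pos_iff]
      exact_mod_cast hN0
    obtain ⟨K, hK⟩ : ∃ K : ℕ, K = ⌈(1 / δ) ^ η⌉₊ := ⟨_, rfl⟩
    have hKη : (1 / δ) ^ η ≤ K := by rw [hK]; exact Nat.le_ceil _
    have hKB : B ≤ K := hbig.trans hKη
    have hKC : C₁ ≤ K := by
      have : 0 ≤ C₁ ^ (1 / η) := by positivity
      linarith
    have hK1 : (1 : ℝ) < K := by
      have : 1 ≤ C₁ ^ (1 / η) := Real.one_le_rpow hC₁ (by positivity)
      linarith
    have hK0 : (0 : ℝ) < K := by linarith
    have hlogK : 0 < Real.log K := Real.log_pos hK1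
    obtain ⟨X, hX⟩ : ∃ X, X = Real.log (1 / δ) / Real.log K := ⟨_, rfl⟩
    have hX0 : 0 ≤ X := by
      rw [hX]
      exact div_nonneg (Real.log_nonneg hδinv) hlogK.le
    have hX1 : X ≤ 1 / η := by
      rw [hX, div_le_div_iff₀ hlogK hη, one_mul]
      have h1 := Real.log_le_log (by positivity) hKη
      rw [Real.log_rpow hδinv0] at h1
      linarith
    have hCX : C₁ ^ X ≤ K := by
      calc C₁ ^ X ≤ C₁ ^ (1 / η) := Real.rpow_le_rpow_of_exponent_le hC₁ hX1
        _ ≤ B := by linarith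
        _ ≤ K := hKB
    have h2X : (2 : ℝ) ^ X ≤ 2 ^ (1 / η) := Real.rpow_le_rpow_of_exponent_le (by norm_num) hX1
    obtain ⟨lam, hlam⟩ : ∃ lam, lam = t * VE / (δ ^ (n - 1) * Fintype.card ι) := ⟨_, rfl⟩
    have hlam0 : 0 < lam := by rw [hlam]; positivity
    have hmY : ENNReal.ofReal (lam * δ ^ (n - 1)) * Fintype.card ι ≤ ∑ i, volume (Y i) := by
      refine le_trans (le_of_eq ?_) hmassY
      rw [hVEv, ← ENNReal.ofReal_natCast, ← ENNReal.ofReal_mul (by positivity),
        ← ENNReal.ofReal_mul ht.le]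
      congr 1
      rw [hlam]
      field_simp
    obtain ⟨Z, hZm, hZY, hZmass, hZpl⟩ := hpr K hKC δ hδ hδ1.le ι a e he
      (hdirs δ hδ hδ1 ι e he hsep) Y hYm hYT lam hlam0 hmY
    rw [← hX] at hZmass hZpl
    have hmZ : ENNReal.ofReal (2 * (t / c) * VE) ≤ ∑ i, volume (Z i) := by
      have h1 : ENNReal.ofReal (t * VE) ≤ ENNReal.ofReal (2 * 2 ^ (1 / η)) *
          ∑ i, volume (Z i) := by
        calc ENNReal.ofReal (t * VE) = ENNReal.ofReal t * volume (Et δ a e t) := by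
              rw [hVEv, ENNReal.ofReal_mul ht.le]
          _ ≤ _ := hmassY
          _ ≤ _ := hZmass
          _ ≤ _ := by
              refine mul_le_mul_left (ENNReal.ofReal_le_ofReal ?_) _
              linarith
      have h2 : ENNReal.ofReal (2 * (t / c) * VE) = ENNReal.ofReal (1 / (2 * 2 ^ (1 / η))) *
          ENNReal.ofReal (t * VE) := by
        rw [← ENNReal.ofReal_mul (by positivity)]
        congr 1
        rw [hc]
        field_simp
        ring
      rw [h2]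
      calc ENNReal.ofReal (1 / (2 * 2 ^ (1 / η))) * ENNReal.ofReal (t * VE)
          ≤ ENNReal.ofReal (1 / (2 * 2 ^ (1 / η))) * (ENNReal.ofReal (2 * 2 ^ (1 / η)) *
            ∑ i, volume (Z i)) := mul_le_mul_right h1 _
        _ = ∑ i, volume (Z i) := by
            rw [← mul_assoc, ← ENNReal.ofReal_mul (by positivity),
              one_div_mul_cancel (by positivity), ENNReal.ofReal_one, one_mul]
    obtain ⟨W, hWm, hWZ, hWmass, hWmult⟩ := large_part Z hZm (Et δ a e t) hEm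
      (fun i => (hZY i).trans (hYE i)) (t / c) VE (by positivity) hVEv hVE0 hmZ
    have hfin := hC₂ δ hδ hδ1 ι a e he hsep K hK W hWm
      (fun i => (hWZ i).trans ((hZY i).trans (hYT i))) (lam / c) (t / c) (by positivity)
      (by positivity) (by
        refine le_trans (le_of_eq ?_) hWmass
        rw [← ENNReal.ofReal_natCast, ← ENNReal.ofReal_mul (by positivity)]
        congr 1
        rw [hlam]
        field_simp) hWmult (by
        intro x m hm τ
        rcases hZpl x m hm τ with h1 | ⟨V, hV, h1⟩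
        · left
          have h2 : (Nat.card {i // x ∈ W i ∧ cell K e m i = τ} : ℝ) ≤
              (Nat.card {i // x ∈ Z i ∧ cell K e m i = τ} : ℝ) := by
            rw [Nat.card_eq_fintype_card, Nat.card_eq_fintype_card]
            exact_mod_cast Fintype.card_le_of_injective
              (fun i : {i // x ∈ W i ∧ cell K e m i = τ} =>
                (⟨i.1, hWZ i.1 i.2.1, i.2.2⟩ : {i // x ∈ Z i ∧ cell K e m i = τ}))
              (fun i j hij => by
                have := congrArg Subtype.val hij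
                exact Subtype.ext this)
          refine h2.trans (h1.trans ?_)
          rw [sub_self, max_self, Real.rpow_zero, mul_one, ← hs]
          have h3 : (lam / c) ^ s ≤ lam ^ s := by
            refine Real.rpow_le_rpow (by positivity) ?_ hs0.le
            rw [div_le_iff₀ hc0]
            nlinarith
          have h4 : (K : ℝ) ^ C₁ * C₁ ^ X ≤ (K : ℝ) ^ (C₁ + 1) := by
            rw [Real.rpow_add hK0, Real.rpow_one]
            exact mul_le_mul_of_nonneg_left hCX (by positivity)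
          exact div_le_div₀ (by positivity) h4 (by positivity) h3
        · exact Or.inr ⟨V, hV, fun i hi hτ => h1 i (hWZ i hi) hτ⟩)
    have hw := weak_arith (C := C₂) (ε := ε) (δ := δ) hs0 ht hV0 hN0 hd hc0 hlam hδ hfin
    refine hw.trans ?_
    refine mul_le_mul_of_nonneg_right (mul_le_mul_of_nonneg_right ?_ (by positivity))
      (by positivity)
    linarith

/-- **From the weak type to the strong type inequality.** -/
theorem strong_of_weak (hn : 2 ≤ n) (ε₁ ε₂ : ℝ) (hε₁ : 0 < ε₁) (hε₂ : 0 < ε₂)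
    (h : ∃ C : ℝ, 0 ≤ C ∧ ∀ δ : ℝ, 0 < δ → δ < 1 →
      ∀ (ι : Type) [Fintype ι] (a e : ι → E n), (∀ i, ‖e i‖ = 1) →
      (∀ i j, i ≠ j → δ ≤ ‖e i - e j‖) → ∀ t : ℝ, 0 < t →
      ENNReal.ofReal (t ^ (1 + 1 / ((n : ℝ) - 1))) * volume (Et δ a e t) ≤
        ENNReal.ofReal (C * (1 / δ) ^ ε₁ * (δ ^ (n - 1) * Fintype.card ι))) :
    ∃ C : ℝ, 0 < C ∧ ∀ δ : ℝ, 0 < δ → δ < 1 →
      ∀ (ι : Type) [Fintype ι] (a e : ι → E n), (∀ i, ‖e i‖ = 1) →
      (∀ i j, i ≠ j → δ ≤ ‖e i - e j‖) →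
      ∫⁻ x, ((thr δ a e x).card : ℝ≥0∞) ^ (1 + 1 / ((n : ℝ) - 1)) ≤
        ENNReal.ofReal (C * (1 / δ) ^ (ε₁ + ε₂) * (δ ^ (n - 1) * Fintype.card ι)) := by
  classical
  have hn2 : (2 : ℝ) ≤ n := by exact_mod_cast hn
  obtain ⟨s, hs⟩ : ∃ s, s = (n : ℝ) - 1 := ⟨_, rfl⟩
  have hs1 : 1 ≤ s := by linarith
  have hs0 : 0 < s := by linarith
  rw [← hs] at h ⊢
  obtain ⟨C, hC, hw⟩ := h
  obtain ⟨A, hA, hcard⟩ := card_le (n := n) (by omega)
  obtain ⟨κ, hκ⟩ : ∃ κ, κ = ε₂ / s := ⟨_, rfl⟩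
  have hκ0 : 0 < κ := by rw [hκ]; positivity
  have hl2 : 0 < Real.log 2 := Real.log_pos (by norm_num)
  obtain ⟨b, hb⟩ : ∃ b, b = κ * Real.log 2 := ⟨_, rfl⟩
  have hb0 : 0 < b := by rw [hb]; positivity
  have hq0 : 0 < 1 + 1 / s := by positivity
  refine ⟨2 ^ (1 + 1 / s) * C * ((1 + 1 / b) * A ^ κ) + 1, by positivity, ?_⟩
  intro δ hδ hδ1 ι _ a e he hsep
  have hδinv : 1 ≤ 1 / δ := by rw [le_div_iff₀ hδ]; linarith
  have hNA := hcard δ hδ hδ1 ι e he hsep
  rw [← hs] at hNA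
  rcases isEmpty_or_nonempty ι with hemp | hne
  · have : ∀ x, (thr δ a e x).card = 0 := fun x => by
      rw [Finset.card_eq_zero]
      exact Finset.eq_empty_of_isEmpty _
    simp only [this, Nat.cast_zero, ENNReal.zero_rpow_of_pos hq0, lintegral_zero]
    exact zero_le
  have hN0 : (0 : ℝ) < Fintype.card ι := by exact_mod_cast Fintype.card_pos
  obtain ⟨J, hJ⟩ : ∃ J, J = Nat.log 2 (Fintype.card ι) := ⟨_, rfl⟩
  have hJN : (2 : ℝ) ^ J ≤ Fintype.card ι := by
    have : 2 ^ J ≤ Fintype.card ι := by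
      rw [hJ]
      exact Nat.pow_log_le_self 2 (Fintype.card_pos).ne'
    exact_mod_cast this
  have hJle : ((J + 1 : ℕ) : ℝ) ≤ (1 + 1 / b) * A ^ κ * (1 / δ) ^ ε₂ := by
    have h1 : 1 + b * J ≤ Real.exp (b * J) := by
      have := Real.add_one_le_exp (b * J)
      linarith
    have h2 : Real.exp (b * J) = ((2 : ℝ) ^ J) ^ κ := by
      rw [← Real.rpow_natCast, ← Real.rpow_mul (by norm_num), Real.rpow_def_of_pos (by norm_num),
        hb]
      congr 1
      ring
    have h3 : ((2 : ℝ) ^ J) ^ κ ≤ A ^ κ * (1 / δ) ^ ε₂ := by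
      calc ((2 : ℝ) ^ J) ^ κ ≤ (A * (1 / δ) ^ s) ^ κ :=
            Real.rpow_le_rpow (by positivity) (hJN.trans hNA) hκ0.le
        _ = _ := by
            rw [Real.mul_rpow (by linarith) (by positivity), ← Real.rpow_mul (by positivity)]
            congr 2
            rw [hκ]
            field_simp
    have h4 : ((J + 1 : ℕ) : ℝ) ≤ (1 + 1 / b) * (1 + b * J) := by
      push_cast
      have e1 : (1 + 1 / b) * (1 + b * J) = J + 1 + (b * J + 1 / b) := by
        field_simp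
        ring
      rw [e1]
      have : 0 ≤ b * J + 1 / b := by positivity
      linarith
    calc ((J + 1 : ℕ) : ℝ) ≤ (1 + 1 / b) * (1 + b * J) := h4
      _ ≤ (1 + 1 / b) * (A ^ κ * (1 / δ) ^ ε₂) := by
          refine mul_le_mul_of_nonneg_left ?_ (by positivity)
          rw [h2] at h1
          exact h1.trans h3
      _ = _ := by ring
  have hpt : ∀ x, ((thr δ a e x).card : ℝ≥0∞) ^ (1 + 1 / s) ≤ ∑ j ∈ range (J + 1),
      ENNReal.ofReal ((2 * 2 ^ j) ^ (1 + 1 / s)) *
        (Et δ a e ((2 : ℝ) ^ j)).indicator (fun _ => (1 : ℝ≥0∞)) x := by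
    intro x
    rcases Nat.eq_zero_or_pos (thr δ a e x).card with h0 | h0
    · rw [h0, Nat.cast_zero, ENNReal.zero_rpow_of_pos hq0]
      exact zero_le
    · obtain ⟨j, hj⟩ : ∃ j, j = Nat.log 2 (thr δ a e x).card := ⟨_, rfl⟩
      have hjJ : j < J + 1 := by
        rw [hj, hJ, Nat.lt_succ_iff]
        exact Nat.log_mono_right (Finset.card_le_univ _)
      have hj1 : 2 ^ j ≤ (thr δ a e x).card := by
        rw [hj]
        exact Nat.pow_log_le_self 2 h0.ne'
      have hj2 : (thr δ a e x).card < 2 ^ (j + 1) := by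
        rw [hj]
        exact Nat.lt_pow_succ_log_self (by norm_num) _
      have hx : x ∈ Et δ a e ((2 : ℝ) ^ j) := by
        refine ⟨by exact_mod_cast hj1, ?_⟩
        rw [← pow_succ']
        exact_mod_cast hj2
      refine le_trans ?_ (Finset.single_le_sum (f := fun j =>
        ENNReal.ofReal ((2 * 2 ^ j) ^ (1 + 1 / s)) *
        (Et δ a e ((2 : ℝ) ^ j)).indicator (fun _ => (1 : ℝ≥0∞)) x) (fun _ _ => zero_le)
        (Finset.mem_range.2 hjJ))
      rw [Set.indicator_of_mem hx, mul_one, ← ENNReal.ofReal_natCast,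
        ENNReal.ofReal_rpow_of_nonneg (Nat.cast_nonneg _) hq0.le]
      refine ENNReal.ofReal_le_ofReal (Real.rpow_le_rpow (Nat.cast_nonneg _) ?_ hq0.le)
      rw [← pow_succ']
      exact_mod_cast hj2.le
  refine (lintegral_mono hpt).trans ?_
  rw [lintegral_finsetSum _ (fun j _ => (measurable_const.indicator
    (measurableSet_Et δ a e ((2 : ℝ) ^ j))).const_mul _)]
  have hj : ∀ j ∈ range (J + 1), ∫⁻ x, ENNReal.ofReal ((2 * 2 ^ j) ^ (1 + 1 / s)) *
      (Et δ a e ((2 : ℝ) ^ j)).indicator (fun _ => (1 : ℝ≥0∞)) x ≤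
      ENNReal.ofReal (2 ^ (1 + 1 / s) * (C * (1 / δ) ^ ε₁ *
        (δ ^ (n - 1) * Fintype.card ι))) := by
    intro j _
    rw [lintegral_const_mul _ (measurable_const.indicator (measurableSet_Et δ a e _)),
      lintegral_indicator (measurableSet_Et δ a e _), setLIntegral_one,
      Real.mul_rpow (by norm_num) (by positivity), ENNReal.ofReal_mul (by positivity), mul_assoc,
      ENNReal.ofReal_mul (p := 2 ^ (1 + 1 / s)) (by positivity)]
    exact mul_le_mul_right (hw δ hδ hδ1 ι a e he hsep ((2 : ℝ) ^ j) (by positivity)) _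
  refine (Finset.sum_le_card_nsmul _ _ _ hj).trans ?_
  rw [Finset.card_range, nsmul_eq_mul, ← ENNReal.ofReal_natCast,
    ← ENNReal.ofReal_mul (by positivity)]
  refine ENNReal.ofReal_le_ofReal ?_
  have e2 : (1 / δ) ^ ε₁ * (1 / δ) ^ ε₂ = (1 / δ) ^ (ε₁ + ε₂) := by
    rw [← Real.rpow_add (by positivity)]
  calc ((J + 1 : ℕ) : ℝ) * (2 ^ (1 + 1 / s) * (C * (1 / δ) ^ ε₁ *
        (δ ^ (n - 1) * Fintype.card ι)))
      ≤ ((1 + 1 / b) * A ^ κ * (1 / δ) ^ ε₂) * (2 ^ (1 + 1 / s) * (C * (1 / δ) ^ ε₁ *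
        (δ ^ (n - 1) * Fintype.card ι))) := mul_le_mul_of_nonneg_right hJle (by positivity)
    _ = 2 ^ (1 + 1 / s) * C * ((1 + 1 / b) * A ^ κ) *
        ((1 / δ) ^ ε₁ * (1 / δ) ^ ε₂) * (δ ^ (n - 1) * Fintype.card ι) := by ring
    _ = 2 ^ (1 + 1 / s) * C * ((1 + 1 / b) * A ^ κ) * (1 / δ) ^ (ε₁ + ε₂) *
        (δ ^ (n - 1) * Fintype.card ι) := by rw [e2]
    _ ≤ _ := by
        refine mul_le_mul_of_nonneg_right (mul_le_mul_of_nonneg_right ?_ (by positivity))
          (by positivity)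
        linarith

end Tree6

end Pool.Agent.H565.PL
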